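import Pool.Agent.GapReg.Defs

set_option autoImplicit false

/-!
# Cutting an exponential sum at frequency `P`
-/

namespace Pool.Agent.GapReg

open Finset Filter Topology Polynomial
open Pool.Agent.MP_e061a3_an

namespace CUAux

lemma coeff_dom_mul (p q : ℂ[X]) (P Q : ℝ[X]) (hp : ∀ n, ‖p.coeff n‖ ≤ P.coeff n)
    (hq : ∀ n, ‖q.coeff n‖ ≤ Q.coeff n) (n : ℕ) : ‖(p * q).coeff n‖ ≤ (P * Q).coeff n := by
  rw [coeff_mul, coeff_mul]
  refine (norm_sum_le _ _).trans (sum_le_sum fun x _ => ?_)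
  rw [norm_mul]
  exact mul_le_mul (hp _) (hq _) (norm_nonneg _) ((norm_nonneg _).trans (hp _))

/-- The polynomial `∏ (1 - (X/m)²)`. -/
noncomputable def Ph (S : Finset ℕ) : ℂ[X] := ∏ m ∈ S, (1 - C ((((m:ℝ)⁻¹ ^ 2 : ℝ)) : ℂ) * X ^ 2)

/-- The polynomial `∏ (1 + (X/m)²)`. -/
noncomputable def Ps (S : Finset ℕ) : ℝ[X] := ∏ m ∈ S, (1 + C ((m:ℝ)⁻¹ ^ 2) * X ^ 2)

lemma dom_one (n : ℕ) : ‖(1 : ℂ[X]).coeff n‖ ≤ (1 : ℝ[X]).coeff n := by
  rw [coeff_one, coeff_one]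
  split_ifs <;> simp

lemma dom_factor (a : ℝ) (ha : 0 ≤ a) (n : ℕ) :
    ‖(1 - C ((a : ℝ) : ℂ) * X ^ 2 : ℂ[X]).coeff n‖ ≤ (1 + C a * X ^ 2 : ℝ[X]).coeff n := by
  rw [coeff_sub, coeff_add, coeff_one, coeff_one, coeff_C_mul, coeff_C_mul, coeff_X_pow,
    coeff_X_pow]
  rcases eq_or_ne n 0 with h | h
  · subst h; simp
  · rcases eq_or_ne n 2 with h2 | h2
    · subst h2; simp [abs_of_nonneg ha]
    · simp [h, h2]

lemma dom_Ph (S : Finset ℕ) : ∀ n, ‖(Ph S).coeff n‖ ≤ (Ps S).coeff n := by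
  classical
  induction S using Finset.induction_on with
  | empty => intro n; simpa [Ph, Ps] using dom_one n
  | insert a s has ih =>
    intro n
    unfold Ph Ps at *
    rw [prod_insert has, prod_insert has]
    exact coeff_dom_mul _ _ _ _ (fun k => dom_factor _ (by positivity) k) ih n

lemma eval_Ps (S : Finset ℕ) (x : ℝ) : (Ps S).eval x = ∏ m ∈ S, (1 + (x / m) ^ 2) := by
  unfold Ps
  rw [eval_prod]
  refine prod_congr rfl fun m _ => ?_
  simp only [eval_add, eval_one, eval_mul, eval_C, eval_pow, eval_X]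
  ring

lemma eval_Ph (S : Finset ℕ) (z : ℂ) : (Ph S).eval z = ∏ m ∈ S, (1 - (z / m) ^ 2) := by
  unfold Ph
  rw [eval_prod]
  refine prod_congr rfl fun m _ => ?_
  simp only [eval_sub, eval_one, eval_mul, eval_C, eval_pow, eval_X]
  push_cast
  ring

lemma eval_Ph_zero (S : Finset ℕ) (h0 : ∀ m ∈ S, 0 < m) (m : ℕ) (hm : m ∈ S) :
    (Ph S).eval (m : ℂ) = 0 := by
  rw [eval_Ph]
  refine prod_eq_zero hm ?_
  have : (m:ℂ) ≠ 0 := by exact_mod_cast (h0 m hm).ne'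
  rw [div_self this]; ring

lemma sum_norm_le (S : Finset ℕ) (B η : ℝ)
    (hprod : ∀ x : ℝ, 0 ≤ x → ∏ m ∈ S, (1 + (x / m) ^ 2) ≤ Real.exp (B + η * x)) (N : ℕ)
    (x : ℝ) (hx : 0 ≤ x) :
    ∑ n ∈ range N, ‖(Ph S).coeff n‖ * x ^ n ≤ Real.exp (B + η * x) := by
  refine le_trans ?_ (hprod x hx)
  rw [← eval_Ps, eval_eq_sum_range]
  have hnn : ∀ n, 0 ≤ (Ps S).coeff n := fun n => (norm_nonneg _).trans (dom_Ph S n)
  calc ∑ n ∈ range N, ‖(Ph S).coeff n‖ * x ^ n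
      ≤ ∑ n ∈ range N, (Ps S).coeff n * x ^ n :=
        sum_le_sum fun n _ => mul_le_mul_of_nonneg_right (dom_Ph S n) (by positivity)
    _ ≤ ∑ n ∈ range (max N ((Ps S).natDegree + 1)), (Ps S).coeff n * x ^ n :=
        sum_le_sum_of_subset_of_nonneg (range_mono (le_max_left _ _))
          (fun n _ _ => mul_nonneg (hnn n) (by positivity))
    _ = ∑ n ∈ range ((Ps S).natDegree + 1), (Ps S).coeff n * x ^ n := by
        symm
        refine sum_subset (range_mono (le_max_right _ _)) fun n _ hn => ?_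
        rw [coeff_eq_zero_of_natDegree_lt (by simpa using hn), zero_mul]

lemma iteratedDeriv_expSum (c : ℕ → ℂ) (S : Finset ℕ) (j : ℕ) :
    iteratedDeriv j (expSum c S) = expSum (fun m => c m * (m:ℂ) ^ j) S := by
  induction j with
  | zero => simp [iteratedDeriv_zero]
  | succ j ih =>
    rw [iteratedDeriv_succ, ih]
    funext w
    have h : ∀ m ∈ S, HasDerivAt (fun w : ℂ => c m * (m:ℂ) ^ j * Complex.exp (m * w))
        (c m * (m:ℂ) ^ (j + 1) * Complex.exp (m * w)) w := by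
      intro m _
      have h1 : HasDerivAt (fun w : ℂ => (m:ℂ) * w) (m:ℂ) w := by
        simpa using (hasDerivAt_id w).const_mul (m:ℂ)
      have h2 := (h1.cexp).const_mul (c m * (m:ℂ) ^ j)
      convert! h2 using 1
      ring
    have h3 := HasDerivAt.fun_sum h
    exact h3.deriv

lemma norm_moment_le (c : ℕ → ℂ) (S : Finset ℕ) (w : ℂ) (ρ : ℝ) (hρ : 0 < ρ) (M : ℝ)
    (hM : ∀ u : ℂ, ‖u - w‖ ≤ ρ → ‖expSum c S u‖ ≤ M) (j : ℕ) :
    ‖expSum (fun m => c m * (m:ℂ) ^ j) S w‖ ≤ j.factorial * M / ρ ^ j := by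
  rw [← iteratedDeriv_expSum]
  exact Complex.norm_iteratedDeriv_le_of_forall_mem_sphere_norm_le j hρ
    (differentiable_expSum c S).diffContOnCl
    (fun z hz => hM z (by rw [← dist_eq_norm]; exact (Metric.mem_sphere.mp hz).le))

/-- The partial fraction sum. -/
noncomputable def HH (c : ℕ → ℂ) (S : Finset ℕ) (w ζ : ℂ) : ℂ :=
  ∑ m ∈ S, c m * Complex.exp (m * w) * (ζ - m)⁻¹

lemma identity (c : ℕ → ℂ) (S : Finset ℕ) (h0 : ∀ m ∈ S, 0 < m) (w ζ : ℂ)
    (hζ : ∀ m ∈ S, ζ ≠ m) :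
    (Ph S).eval ζ * HH c S w ζ = ∑ n ∈ range ((Ph S).natDegree + 1), (Ph S).coeff n *
      ∑ j ∈ range n, ζ ^ (n - 1 - j) * expSum (fun m => c m * (m:ℂ) ^ j) S w := by
  unfold HH expSum
  rw [mul_sum]
  have key : ∀ m ∈ S, (Ph S).eval ζ * (c m * Complex.exp (m * w) * (ζ - m)⁻¹)
      = ∑ n ∈ range ((Ph S).natDegree + 1), (Ph S).coeff n *
        ∑ j ∈ range n, ζ ^ (n - 1 - j) * (c m * (m:ℂ) ^ j * Complex.exp (m * w)) := by
    intro m hm
    have hne : ζ - m ≠ 0 := sub_ne_zero.mpr (hζ m hm)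
    have e1 : (Ph S).eval ζ = (Ph S).eval ζ - (Ph S).eval (m:ℂ) := by
      rw [eval_Ph_zero S h0 m hm, sub_zero]
    have e2 : (Ph S).eval ζ - (Ph S).eval (m:ℂ) = (∑ n ∈ range ((Ph S).natDegree + 1),
        (Ph S).coeff n * ∑ j ∈ range n, ζ ^ (n - 1 - j) * (m:ℂ) ^ j) * (ζ - m) := by
      rw [eval_eq_sum_range, eval_eq_sum_range, ← sum_sub_distrib, sum_mul]
      refine sum_congr rfl fun n _ => ?_
      have h := geom_sum₂_mul (m:ℂ) ζ n
      have h' : (∑ j ∈ range n, ζ ^ (n - 1 - j) * (m:ℂ) ^ j) * (ζ - m) = ζ ^ n - (m:ℂ) ^ n := by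
        have h2 : ∑ j ∈ range n, ζ ^ (n - 1 - j) * (m:ℂ) ^ j
            = ∑ i ∈ range n, (m:ℂ) ^ i * ζ ^ (n - 1 - i) :=
          sum_congr rfl fun j _ => mul_comm _ _
        rw [h2]
        linear_combination (-1 : ℂ) * h
      rw [mul_assoc, h']
      ring
    rw [e1, e2]
    have e3 : ∀ A : ℂ, A * (ζ - m) * (c m * Complex.exp (m * w) * (ζ - m)⁻¹)
        = A * (c m * Complex.exp (m * w)) := by
      intro A; field_simp
    rw [e3, sum_mul]
    refine sum_congr rfl fun n _ => ?_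
    rw [mul_assoc, sum_mul]
    congr 1
    refine sum_congr rfl fun j _ => ?_
    ring
  rw [sum_congr rfl key, sum_comm]
  refine sum_congr rfl fun n _ => ?_
  rw [← mul_sum, sum_comm]
  congr 1
  refine sum_congr rfl fun j _ => ?_
  rw [mul_sum]

lemma inner_bound (P ρ : ℝ) (hP : 0 < P) (hρ : 0 < ρ) (M : ℝ) (hM0 : 0 ≤ M) (n : ℕ) (ζ : ℂ)
    (hζ : ‖ζ‖ = P) (e : ℕ → ℂ) (he : ∀ j, ‖e j‖ ≤ j.factorial * M / ρ ^ j) :
    P * ‖∑ j ∈ range n, ζ ^ (n - 1 - j) * e j‖ ≤ M * ((2 * P) ^ n + n * (n / ρ) ^ n) := by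
  have h1 : P * ‖∑ j ∈ range n, ζ ^ (n - 1 - j) * e j‖
      ≤ ∑ j ∈ range n, M * (P ^ n + (n / ρ) ^ n) := by
    calc P * ‖∑ j ∈ range n, ζ ^ (n - 1 - j) * e j‖
        ≤ P * ∑ j ∈ range n, ‖ζ ^ (n - 1 - j) * e j‖ :=
          mul_le_mul_of_nonneg_left (norm_sum_le _ _) hP.le
      _ = ∑ j ∈ range n, P * ‖ζ ^ (n - 1 - j) * e j‖ := mul_sum _ _ _
      _ ≤ ∑ j ∈ range n, M * (P ^ n + (n / ρ) ^ n) := by
          refine sum_le_sum fun j hj => ?_
          have hjn : j < n := mem_range.mp hj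
          rw [norm_mul, norm_pow, hζ]
          have e1 : P * (P ^ (n - 1 - j) * ‖e j‖) = P ^ (n - j) * ‖e j‖ := by
            rw [← mul_assoc, ← pow_succ']
            congr 2
            omega
          rw [e1]
          have hf : (j.factorial : ℝ) ≤ (n:ℝ) ^ j := by
            have : j.factorial ≤ n ^ j :=
              (Nat.factorial_le_pow j).trans (Nat.pow_le_pow_left hjn.le j)
            exact_mod_cast this
          have h2 : ‖e j‖ ≤ M * (n / ρ) ^ j := by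
            refine (he j).trans ?_
            rw [div_pow, mul_comm (j.factorial : ℝ) M, mul_div_assoc]
            exact mul_le_mul_of_nonneg_left
              (div_le_div_of_nonneg_right hf (by positivity)) hM0
          have hn0 : (0:ℝ) ≤ n / ρ := by positivity
          have h3 : P ^ (n - j) * (n / ρ) ^ j ≤ P ^ n + (n / ρ) ^ n := by
            rcases le_total P (n / ρ) with h | h
            · have : P ^ (n - j) * (n / ρ) ^ j ≤ (n / ρ) ^ (n - j) * (n / ρ) ^ j :=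
                mul_le_mul_of_nonneg_right (pow_le_pow_left₀ hP.le h _) (by positivity)
              rw [← pow_add, Nat.sub_add_cancel hjn.le] at this
              have h4 : 0 ≤ P ^ n := by positivity
              linarith
            · have : P ^ (n - j) * (n / ρ) ^ j ≤ P ^ (n - j) * P ^ j :=
                mul_le_mul_of_nonneg_left (pow_le_pow_left₀ hn0 h _) (by positivity)
              rw [← pow_add, Nat.sub_add_cancel hjn.le] at this
              have h4 : 0 ≤ ((n:ℝ) / ρ) ^ n := by positivity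
              linarith
          calc P ^ (n - j) * ‖e j‖ ≤ P ^ (n - j) * (M * (n / ρ) ^ j) :=
                mul_le_mul_of_nonneg_left h2 (by positivity)
            _ = M * (P ^ (n - j) * (n / ρ) ^ j) := by ring
            _ ≤ M * (P ^ n + (n / ρ) ^ n) := mul_le_mul_of_nonneg_left h3 hM0
  refine h1.trans ?_
  rw [sum_const, card_range, nsmul_eq_mul]
  have h5 : (n:ℝ) ≤ 2 ^ n := by
    have : n ≤ 2 ^ n := Nat.lt_two_pow_self.le
    exact_mod_cast this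
  have h6 : (n:ℝ) * P ^ n ≤ (2 * P) ^ n := by
    rw [mul_pow]
    exact mul_le_mul_of_nonneg_right h5 (by positivity)
  calc (n:ℝ) * (M * (P ^ n + (n / ρ) ^ n)) = M * (n * P ^ n + n * (n / ρ) ^ n) := by ring
    _ ≤ M * ((2 * P) ^ n + n * (n / ρ) ^ n) :=
        mul_le_mul_of_nonneg_left (by linarith) hM0

lemma exp_half_le : Real.exp (1 / 2) ≤ 2 := by
  have h : Real.exp (1 / 2) ^ 2 ≤ 2 ^ 2 := by
    rw [← Real.exp_nat_mul]
    norm_num
    linarith [Real.exp_one_lt_d9]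
  exact le_of_sq_le_sq h (by norm_num)

lemma sum_nat_half (N : ℕ) : ∑ n ∈ range N, (n:ℝ) * (1 / 2) ^ n ≤ 2 := by
  have h := hasSum_coe_mul_geometric_of_norm_lt_one (𝕜 := ℝ) (r := 1 / 2) (by norm_num)
  have h2 := sum_le_hasSum (range N) (fun n _ => by positivity) h
  refine h2.trans ?_
  norm_num

lemma second_sum (S : Finset ℕ) (B η : ℝ) (hη : 0 ≤ η)
    (hprod : ∀ x : ℝ, 0 ≤ x → ∏ m ∈ S, (1 + (x / m) ^ 2) ≤ Real.exp (B + η * x))
    (ρ : ℝ) (hρ0 : 0 < ρ) (hρ : 8 * η ≤ ρ) (N : ℕ) :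
    ∑ n ∈ range N, ‖(Ph S).coeff n‖ * (n * (n / ρ) ^ n) ≤ 2 * Real.exp B := by
  have h1 : ∀ n : ℕ, ‖(Ph S).coeff n‖ * ((n:ℝ) * (n / ρ) ^ n)
      ≤ Real.exp B * (n * (1 / 2) ^ n) := by
    intro n
    have hx : (0:ℝ) ≤ 4 * n / ρ := by positivity
    have h2 := sum_norm_le S B η hprod (n + 1) (4 * n / ρ) hx
    have h3 : ‖(Ph S).coeff n‖ * (4 * n / ρ) ^ n ≤ Real.exp (B + η * (4 * n / ρ)) := by
      refine le_trans ?_ h2
      exact single_le_sum (f := fun k => ‖(Ph S).coeff k‖ * (4 * (n:ℝ) / ρ) ^ k)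
        (fun k _ => by positivity) (self_mem_range_succ n)
    have h4 : η * (4 * n / ρ) ≤ n * (1 / 2) := by
      rw [show η * (4 * n / ρ) = n * (4 * η / ρ) by ring]
      apply mul_le_mul_of_nonneg_left _ (by positivity)
      rw [div_le_iff₀ hρ0]
      linarith
    have h5 : Real.exp (B + η * (4 * n / ρ)) ≤ Real.exp B * 2 ^ n := by
      calc Real.exp (B + η * (4 * n / ρ)) ≤ Real.exp (B + n * (1 / 2)) :=
            Real.exp_le_exp.mpr (by linarith)
        _ = Real.exp B * Real.exp (1 / 2) ^ n := by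
            rw [Real.exp_add, Real.exp_nat_mul]
        _ ≤ Real.exp B * 2 ^ n :=
            mul_le_mul_of_nonneg_left (pow_le_pow_left₀ (Real.exp_pos _).le exp_half_le n)
              (Real.exp_pos _).le
    have h6 : (4 * (n:ℝ) / ρ) ^ n = 4 ^ n * (n / ρ) ^ n := by
      rw [← mul_pow]; congr 1; ring
    rw [h6] at h3
    have h7 : ‖(Ph S).coeff n‖ * ((n:ℝ) / ρ) ^ n ≤ Real.exp B * (1 / 2) ^ n := by
      have h8 : (0:ℝ) < 4 ^ n := by positivity
      have h9 : 4 ^ n * (‖(Ph S).coeff n‖ * ((n:ℝ) / ρ) ^ n) ≤ 4 ^ n * (Real.exp B * (1 / 2) ^ n) := by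
        have e1 : (4:ℝ) ^ n * (Real.exp B * (1 / 2) ^ n) = Real.exp B * 2 ^ n := by
          have : (4:ℝ) ^ n * (1 / 2) ^ n = 2 ^ n := by
            rw [← mul_pow]; norm_num
          calc (4:ℝ) ^ n * (Real.exp B * (1 / 2) ^ n) = Real.exp B * (4 ^ n * (1 / 2) ^ n) := by ring
            _ = _ := by rw [this]
        rw [e1]
        calc 4 ^ n * (‖(Ph S).coeff n‖ * ((n:ℝ) / ρ) ^ n)
            = ‖(Ph S).coeff n‖ * (4 ^ n * (n / ρ) ^ n) := by ring
          _ ≤ _ := h3.trans h5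
      exact le_of_mul_le_mul_left h9 h8
    calc ‖(Ph S).coeff n‖ * ((n:ℝ) * (n / ρ) ^ n)
        = n * (‖(Ph S).coeff n‖ * (n / ρ) ^ n) := by ring
      _ ≤ n * (Real.exp B * (1 / 2) ^ n) := mul_le_mul_of_nonneg_left h7 (by positivity)
      _ = _ := by ring
  calc ∑ n ∈ range N, ‖(Ph S).coeff n‖ * (n * (n / ρ) ^ n)
      ≤ ∑ n ∈ range N, Real.exp B * (n * (1 / 2) ^ n) := sum_le_sum fun n _ => h1 n
    _ = Real.exp B * ∑ n ∈ range N, (n:ℝ) * (1 / 2) ^ n := by rw [mul_sum]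
    _ ≤ Real.exp B * 2 := mul_le_mul_of_nonneg_left (sum_nat_half N) (Real.exp_pos _).le
    _ = _ := by ring

lemma eval_Ph_lower (S : Finset ℕ) (P : ℝ) (hP : 0 < P) (ζ : ℂ) (hζ : ‖ζ‖ = P) :
    ∏ m ∈ S, |1 - (P / m) ^ 2| ≤ ‖(Ph S).eval ζ‖ := by
  rw [eval_Ph, norm_prod]
  refine prod_le_prod (fun m _ => abs_nonneg _) fun m _ => ?_
  have h1 : ‖(ζ / m) ^ 2‖ = (P / m) ^ 2 := by
    rw [norm_pow, norm_div, hζ, Complex.norm_natCast]
  have h2 := abs_norm_sub_norm_le (1:ℂ) ((ζ / m) ^ 2)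
  rw [norm_one, h1] at h2
  exact h2

lemma HH_bound (S : Finset ℕ) (h0 : ∀ m ∈ S, 0 < m) (c : ℕ → ℂ) (B η : ℝ) (hη : 0 ≤ η)
    (hprod : ∀ x : ℝ, 0 ≤ x → ∏ m ∈ S, (1 + (x / m) ^ 2) ≤ Real.exp (B + η * x))
    (ρ : ℝ) (hρ0 : 0 < ρ) (hρ : 8 * η ≤ ρ) (P : ℝ) (hP : 0 < P) (E : ℝ)
    (hE : Real.exp (-E) ≤ ∏ m ∈ S, |1 - (P / m) ^ 2|) (w : ℂ) (M : ℝ) (hM0 : 0 ≤ M)
    (hM : ∀ u : ℂ, ‖u - w‖ ≤ ρ → ‖expSum c S u‖ ≤ M) (hne : ∀ m ∈ S, (m:ℝ) ≠ P)
    (ζ : ℂ) (hζ : ‖ζ‖ = P) :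
    P * ‖HH c S w ζ‖ ≤ 3 * Real.exp (B + 2 * η * P + E) * M := by
  have hζm : ∀ m ∈ S, ζ ≠ m := by
    intro m hm h
    apply hne m hm
    rw [h, Complex.norm_natCast] at hζ
    exact hζ
  have hid := identity c S h0 w ζ hζm
  have h1 : P * ‖(Ph S).eval ζ * HH c S w ζ‖ ≤ M * (3 * Real.exp (B + 2 * η * P)) := by
    rw [hid]
    calc P * ‖∑ n ∈ range ((Ph S).natDegree + 1), (Ph S).coeff n *
          ∑ j ∈ range n, ζ ^ (n - 1 - j) * expSum (fun m => c m * (m:ℂ) ^ j) S w‖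
        ≤ P * ∑ n ∈ range ((Ph S).natDegree + 1), ‖(Ph S).coeff n *
          ∑ j ∈ range n, ζ ^ (n - 1 - j) * expSum (fun m => c m * (m:ℂ) ^ j) S w‖ :=
          mul_le_mul_of_nonneg_left (norm_sum_le _ _) hP.le
      _ = ∑ n ∈ range ((Ph S).natDegree + 1), ‖(Ph S).coeff n‖ *
          (P * ‖∑ j ∈ range n, ζ ^ (n - 1 - j) * expSum (fun m => c m * (m:ℂ) ^ j) S w‖) := by
          rw [mul_sum]
          refine sum_congr rfl fun n _ => ?_
          rw [norm_mul]; ring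
      _ ≤ ∑ n ∈ range ((Ph S).natDegree + 1), ‖(Ph S).coeff n‖ *
          (M * ((2 * P) ^ n + n * (n / ρ) ^ n)) := by
          refine sum_le_sum fun n _ => mul_le_mul_of_nonneg_left ?_ (norm_nonneg _)
          exact inner_bound P ρ hP hρ0 M hM0 n ζ hζ _
            (fun j => norm_moment_le c S w ρ hρ0 M hM j)
      _ = M * (∑ n ∈ range ((Ph S).natDegree + 1), ‖(Ph S).coeff n‖ * (2 * P) ^ n
          + ∑ n ∈ range ((Ph S).natDegree + 1), ‖(Ph S).coeff n‖ * (n * (n / ρ) ^ n)) := by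
          rw [← sum_add_distrib, mul_sum]
          refine sum_congr rfl fun n _ => ?_
          ring
      _ ≤ M * (Real.exp (B + 2 * η * P) + 2 * Real.exp B) := by
          apply mul_le_mul_of_nonneg_left _ hM0
          have ha := sum_norm_le S B η hprod ((Ph S).natDegree + 1) (2 * P) (by positivity)
          have hb := second_sum S B η hη hprod ρ hρ0 hρ ((Ph S).natDegree + 1)
          have hc : B + η * (2 * P) = B + 2 * η * P := by ring
          rw [hc] at ha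
          linarith
      _ ≤ M * (3 * Real.exp (B + 2 * η * P)) := by
          apply mul_le_mul_of_nonneg_left _ hM0
          have : Real.exp B ≤ Real.exp (B + 2 * η * P) := Real.exp_le_exp.mpr (by
            have : 0 ≤ 2 * η * P := by positivity
            linarith)
          linarith
  have h2 := hE.trans (eval_Ph_lower S P hP ζ hζ)
  rw [norm_mul] at h1
  have h3 : Real.exp (-E) * (P * ‖HH c S w ζ‖) ≤ M * (3 * Real.exp (B + 2 * η * P)) := by
    calc Real.exp (-E) * (P * ‖HH c S w ζ‖) ≤ ‖(Ph S).eval ζ‖ * (P * ‖HH c S w ζ‖) :=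
          mul_le_mul_of_nonneg_right h2 (by positivity)
      _ = P * (‖(Ph S).eval ζ‖ * ‖HH c S w ζ‖) := by ring
      _ ≤ _ := h1
  have h4 : P * ‖HH c S w ζ‖ = Real.exp E * (Real.exp (-E) * (P * ‖HH c S w ζ‖)) := by
    rw [← mul_assoc, ← Real.exp_add]
    simp
  rw [h4, show B + 2 * η * P + E = E + (B + 2 * η * P) by ring, Real.exp_add E]
  calc Real.exp E * (Real.exp (-E) * (P * ‖HH c S w ζ‖))
      ≤ Real.exp E * (M * (3 * Real.exp (B + 2 * η * P))) :=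
        mul_le_mul_of_nonneg_left h3 (Real.exp_pos _).le
    _ = _ := by ring

lemma circle_inv (P : ℝ) (hP : 0 < P) (m : ℕ) (hm : (m:ℝ) ≠ P) :
    (∮ z in C(0, P), (z - (m:ℂ))⁻¹) = if (m:ℝ) < P then 2 * Real.pi * Complex.I else 0 := by
  split_ifs with h
  · refine circleIntegral.integral_sub_inv_of_mem_ball ?_
    rw [Metric.mem_ball, dist_zero_right, Complex.norm_natCast]
    exact h
  · have hlt : P < m := lt_of_le_of_ne (not_lt.mp h) (Ne.symm hm)
    refine DiffContOnCl.circleIntegral_eq_zero hP.le ?_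
    refine DifferentiableOn.diffContOnCl (s := Metric.ball (0:ℂ) P) ?_
    intro z hz
    have hz' : ‖z‖ ≤ P := by
      have := Metric.closure_ball_subset_closedBall hz
      simpa using this
    refine DifferentiableAt.differentiableWithinAt ?_
    refine (differentiableAt_id.sub_const _).inv ?_
    intro h0
    have h1 : z = m := by simpa [sub_eq_zero] using h0
    rw [h1, Complex.norm_natCast] at hz'
    linarith

lemma integrable_inv (P : ℝ) (hP : 0 < P) (m : ℕ) (hm : (m:ℝ) ≠ P) (a : ℂ) :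
    CircleIntegrable (fun z : ℂ => a * (z - (m:ℂ))⁻¹) 0 P := by
  refine ContinuousOn.circleIntegrable hP.le ?_
  refine continuousOn_const.mul (ContinuousOn.inv₀ (by fun_prop) ?_)
  intro z hz h0
  have hz' : ‖z‖ = P := by simpa using hz
  have h1 : z = m := by simpa [sub_eq_zero] using h0
  rw [h1, Complex.norm_natCast] at hz'
  exact hm hz'

lemma integral_HH (c : ℕ → ℂ) (S : Finset ℕ) (w : ℂ) (P : ℝ) (hP : 0 < P)
    (hne : ∀ m ∈ S, (m:ℝ) ≠ P) :
    (∮ z in C(0, P), HH c S w z) = 2 * Real.pi * Complex.I *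
      expSum c (S.filter (fun m : ℕ => (m:ℝ) < P)) w := by
  unfold HH
  rw [circleIntegral.integral_fun_sum (fun m hm => integrable_inv P hP m (hne m hm) _)]
  unfold expSum
  rw [sum_filter, mul_sum]
  refine sum_congr rfl fun m hm => ?_
  rw [circleIntegral.integral_const_mul, circle_inv P hP m (hne m hm)]
  split_ifs <;> ring

end CUAux

open CUAux

theorem cut_bound (S : Finset ℕ) (h0 : ∀ m ∈ S, 0 < m) (c : ℕ → ℂ) (B η : ℝ) (hη : 0 ≤ η)
    (hprod : ∀ x : ℝ, 0 ≤ x → ∏ m ∈ S, (1 + (x / m) ^ 2) ≤ Real.exp (B + η * x))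
    (ρ : ℝ) (hρ0 : 0 < ρ) (hρ : 8 * η ≤ ρ) (P : ℝ) (hP : 0 < P) (E : ℝ)
    (hE : Real.exp (-E) ≤ ∏ m ∈ S, |1 - (P / m) ^ 2|) (w : ℂ) (M : ℝ)
    (hM : ∀ u : ℂ, ‖u - w‖ ≤ ρ → ‖expSum c S u‖ ≤ M) :
    ‖expSum c (S.filter (fun m : ℕ => (m : ℝ) < P)) w‖
      ≤ 3 * Real.exp (B + 2 * η * P + E) * M := by
  have hM0 : 0 ≤ M := (norm_nonneg _).trans (hM w (by simpa using hρ0.le))
  have hne : ∀ m ∈ S, (m:ℝ) ≠ P := by
    intro m hm h
    have h1 : ∏ m ∈ S, |1 - (P / m) ^ 2| = 0 := by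
      refine prod_eq_zero hm ?_
      rw [h, div_self hP.ne']
      norm_num
    rw [h1] at hE
    exact absurd hE (not_le.mpr (Real.exp_pos _))
  have hb : ∀ z ∈ Metric.sphere (0:ℂ) P,
      ‖HH c S w z‖ ≤ 3 * Real.exp (B + 2 * η * P + E) * M / P := by
    intro z hz
    have hz' : ‖z‖ = P := by simpa using hz
    rw [le_div_iff₀ hP, mul_comm]
    exact HH_bound S h0 c B η hη hprod ρ hρ0 hρ P hP E hE w M hM0 hM hne z hz'
  have h1 := circleIntegral.norm_integral_le_of_norm_le_const hP.le hb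
  rw [integral_HH c S w P hP hne] at h1
  have h2 : 2 * Real.pi * P * (3 * Real.exp (B + 2 * η * P + E) * M / P)
      = 2 * Real.pi * (3 * Real.exp (B + 2 * η * P + E) * M) := by
    field_simp
  rw [h2, norm_mul] at h1
  have h3 : ‖(2 * Real.pi * Complex.I : ℂ)‖ = 2 * Real.pi := by
    simp [abs_of_pos Real.pi_pos]
  rw [h3] at h1
  exact le_of_mul_le_mul_left h1 (by positivity)

end Pool.Agent.GapReg
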