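import Pool.Agent.GapReg.Defs

set_option autoImplicit false

namespace Pool.Agent.GapReg

open Finset Filter Topology
open Pool.Agent.MP_e061a3_an

theorem expSum_left (c : ℕ → ℂ) (S : Finset ℕ) (q : ℝ) (hq : 0 ≤ q) (hS : ∀ m ∈ S, q ≤ (m : ℝ))
    (z₀ w : ℂ) (r : ℝ) (K : ℕ) (hK : 2 ≤ K) (hKr : ‖w - z₀‖ ≤ K * r) (hre : w.re ≤ z₀.re)
    (M : ℝ) (hM : 0 ≤ M) (hb : ∀ u, ‖u - z₀‖ ≤ r → ‖expSum c S u‖ ≤ M) :
    ‖expSum c S w‖ ≤ (2 * Real.exp 1 * K) ^ S.card
      * Real.exp (-(q * (z₀.re - w.re) / 2)) * M := by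
  rcases Nat.eq_zero_or_pos S.card with h0 | hn
  · have hS : S = ∅ := card_eq_zero.mp h0
    subst hS
    simp only [expSum, sum_empty, norm_zero, card_empty, pow_zero, one_mul]
    positivity
  set n := S.card with hndef
  have hnR : (0:ℝ) < n := by exact_mod_cast hn
  have hKR : (2:ℝ) ≤ K := by exact_mod_cast hK
  have hK0 : (0:ℝ) < K := by linarith
  set m := (K - 1) * n with hmdef
  have hmn : m + n = K * n := by
    rw [hmdef]
    obtain ⟨K', rfl⟩ : ∃ K', K = K' + 1 := ⟨K - 1, by omega⟩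
    simp only [Nat.add_sub_cancel]
    ring
  have hm1 : (m:ℝ) = K * n - n := by
    have : ((m + n : ℕ) : ℝ) = ((K * n : ℕ) : ℝ) := by rw [hmn]
    push_cast at this
    linarith
  set ζ : ℂ := (z₀ - w) / ((K * n : ℕ) : ℂ) with hζ
  have hKn0 : ((K * n : ℕ) : ℂ) ≠ 0 := by
    have : K * n ≠ 0 := by positivity
    exact_mod_cast this
  have hKnR : (0:ℝ) < ((K * n : ℕ) : ℝ) := by
    have : 0 < K * n := by positivity
    exact_mod_cast this
  have hζre : ζ.re = (z₀.re - w.re) / ((K * n : ℕ) : ℝ) := by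
    rw [hζ]
    rw [show (((K * n : ℕ) : ℂ)) = (((K * n : ℕ) : ℝ) : ℂ) by push_cast; ring]
    rw [Complex.div_ofReal_re]
    simp
  -- points of the progression lie in the small disc
  have hpts : ∀ j : ℕ, m < j → j ≤ m + n → ‖w + j * ζ - z₀‖ ≤ r := by
    intro j h1 h2
    have hjR1 : (m:ℝ) < j := by exact_mod_cast h1
    have hjR2 : (j:ℝ) ≤ K * n := by
      have : j ≤ K * n := by omega
      exact_mod_cast this
    have e1 : w + j * ζ - z₀ = (((1 - (j:ℝ) / ((K * n : ℕ) : ℝ) : ℝ)) : ℂ) * (w - z₀) := by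
      rw [hζ]
      push_cast
      have : (K:ℂ) * n ≠ 0 := by exact_mod_cast hKn0
      field_simp
      ring
    rw [e1, norm_mul, Complex.norm_real, Real.norm_eq_abs]
    have h3 : (j:ℝ) / ((K * n : ℕ) : ℝ) ≤ 1 := by
      rw [div_le_one hKnR]
      push_cast
      exact hjR2
    have h4 : 1 - (j:ℝ) / ((K * n : ℕ) : ℝ) ≤ 1 / K := by
      rw [sub_le_iff_le_add, div_add_div _ _ hK0.ne' hKnR.ne', le_div_iff₀ (by positivity)]
      push_cast
      nlinarith
    rw [abs_of_nonneg (by linarith)]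
    calc (1 - (j:ℝ) / ((K * n : ℕ) : ℝ)) * ‖w - z₀‖ ≤ 1 / K * (K * r) := by
          apply mul_le_mul h4 hKr (norm_nonneg _) (by positivity)
      _ = r := by field_simp
  have hC : turanC n m ≤ (2 * Real.exp 1 * K) ^ n := by
    apply turanC_le
    have : n + m = K * n := by omega
    rw [this]
    push_cast
    exact le_rfl
  have hζ0 : 0 ≤ ζ.re := by rw [hζre]; exact div_nonneg (by linarith) hKnR.le
  have h := expSum_turan c S m w ζ q (Real.exp (-(q * (z₀.re - w.re) / 2)) * M) (by positivity)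
    (fun p hp => mul_nonneg (by linarith [hS p hp]) hζ0) (fun j h1 h2 => by
      have h5 : -(q * j * ζ.re) ≤ -(q * (z₀.re - w.re) / 2) := by
        have hj : (m:ℝ) ≤ j := by exact_mod_cast h1.le
        have h6 : (1:ℝ) / 2 ≤ (j:ℝ) / ((K * n : ℕ) : ℝ) := by
          rw [div_le_div_iff₀ (by norm_num) hKnR]
          push_cast
          nlinarith
        have h7 : q * j * ((z₀.re - w.re) / ((K * n : ℕ) : ℝ))
            = q * (z₀.re - w.re) * ((j:ℝ) / ((K * n : ℕ) : ℝ)) := by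
          field_simp
        rw [hζre, h7]
        have h8 : 0 ≤ q * (z₀.re - w.re) := mul_nonneg hq (by linarith)
        nlinarith
      calc ‖expSum c S (w + j * ζ)‖ * Real.exp (-(q * j * ζ.re))
          ≤ M * Real.exp (-(q * (z₀.re - w.re) / 2)) := by
            apply mul_le_mul (hb _ (hpts j h1 h2)) (Real.exp_le_exp.mpr h5) (Real.exp_pos _).le hM
        _ = Real.exp (-(q * (z₀.re - w.re) / 2)) * M := mul_comm _ _)
  calc ‖expSum c S w‖ ≤ turanC n m * (Real.exp (-(q * (z₀.re - w.re) / 2)) * M) := h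
    _ ≤ (2 * Real.exp 1 * K) ^ n * (Real.exp (-(q * (z₀.re - w.re) / 2)) * M) :=
        mul_le_mul_of_nonneg_right hC (by positivity)
    _ = _ := by ring

end Pool.Agent.GapReg
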