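import Pool.Agent.GapReg.ProdBound
import Pool.Agent.GapReg.CutOp
import Pool.Agent.GapReg.LeftExt

set_option autoImplicit false

namespace Pool.Agent.GapReg

open Finset Filter Topology
open Pool.Agent.MP_e061a3_an

theorem cut_good (A : Set ℕ) (δ ℓ ρ : ℝ) (hδ : 0 < δ) (hℓ : 1 ≤ ℓ) (hD : Dens A δ ℓ)
    (hρ : 2000 * δ ≤ ρ) (c : ℕ → ℂ) (T : Finset ℕ) (hT : ∀ m ∈ T, m ∈ A) (w₀ : ℂ) (M : ℝ)
    (hM : ∀ u : ℂ, ‖u - w₀‖ ≤ ρ → ‖expSum c T u‖ ≤ M) (x k : ℕ) (hx : ℓ ≤ x) (hk : x ≤ k)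
    (hgood : ∀ S : Finset ℕ, (∀ m ∈ S, m ∈ A) →
      Real.exp (-(60 * δ * x)) ≤ ∏ m ∈ S, |1 - (((k : ℝ) + 1 / 2) / m) ^ 2|) :
    ∀ u : ℂ, ‖u - w₀‖ ≤ ρ / 2 →
      ‖expSum c (T.filter (fun m : ℕ => (m : ℝ) < (k : ℝ) + 1 / 2)) u‖
        ≤ 3 * Real.exp (100 * δ * ((k : ℝ) + 1 / 2)) * M := by
  intro u hu
  have hρ0 : 0 < ρ := by linarith
  have hM0 : 0 ≤ M := (norm_nonneg _).trans (hM w₀ (by simpa using hρ0.le))
  have hkR : (x : ℝ) ≤ k := by exact_mod_cast hk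
  have h := cut_bound T (fun m hm => hD.1 m (hT m hm)) c (13 * δ * ℓ) (13 * δ) (by positivity)
    (fun y hy => by
      have := prod_one_add_sq_le A δ ℓ hδ hℓ hD T hT y hy
      simpa using this)
    (ρ / 2) (by linarith) (by linarith) ((k : ℝ) + 1 / 2) (by positivity) (60 * δ * x)
    (hgood T hT) u M (fun v hv => hM v (by
      have : v - w₀ = (v - u) + (u - w₀) := by ring
      rw [this]
      refine (norm_add_le _ _).trans ?_
      linarith))
  refine h.trans ?_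
  refine mul_le_mul_of_nonneg_right ?_ hM0
  refine mul_le_mul_of_nonneg_left ?_ (by norm_num)
  apply Real.exp_le_exp.mpr
  have e1 : δ * ℓ ≤ δ * ((k : ℝ) + 1 / 2) := mul_le_mul_of_nonneg_left (by linarith) hδ.le
  have e2 : δ * (x : ℝ) ≤ δ * ((k : ℝ) + 1 / 2) := mul_le_mul_of_nonneg_left (by linarith) hδ.le
  have e3 : 0 ≤ δ * ((k : ℝ) + 1 / 2) := by positivity
  nlinarith

theorem block_left (A : Set ℕ) (δ ℓ ρ : ℝ) (hδ : 0 < δ) (hℓ : 1 ≤ ℓ) (hD : Dens A δ ℓ)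
    (hρ : 2000 * δ ≤ ρ) (c : ℕ → ℂ) (T : Finset ℕ) (hT : ∀ m ∈ T, m ∈ A) (P Q : ℝ) (hP : ℓ ≤ P)
    (hQ : Q ≤ 8 * P) (hTP : ∀ m ∈ T, P ≤ (m : ℝ) ∧ (m : ℝ) ≤ Q) (w₀ : ℂ) (M : ℝ) (hM0 : 0 ≤ M)
    (hM : ∀ u : ℂ, ‖u - w₀‖ ≤ ρ / 2 → ‖expSum c T u‖ ≤ 6 * Real.exp (100 * δ * Q) * M)
    (w : ℂ) (hw : Horn w₀ ρ w) :
    ‖expSum c T w‖ ≤ 6 * Real.exp (-(P * (w₀.re - w.re) / 4)) * M := by
  have hρ0 : 0 < ρ := by linarith
  have hP0 : 0 < P := by linarith
  rcases T.eq_empty_or_nonempty with hE | ⟨m₀, hm₀⟩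
  · subst hE
    simp only [expSum, sum_empty, norm_zero]
    positivity
  have hPQ : P ≤ Q := (hTP m₀ hm₀).1.trans (hTP m₀ hm₀).2
  have hQ0 : 0 < Q := by linarith
  set y : ℝ := ‖w - w₀‖ / ρ with hy
  have hy0 : 0 ≤ y := by positivity
  set L : ℝ := Real.log (1 + y) with hL
  have hL0 : 0 ≤ L := Real.log_nonneg (by linarith)
  set D : ℝ := w₀.re - w.re with hDdef
  have hD8 : 8 * ρ * (1 + L) ≤ D := hw
  have hDρ : 8 * ρ ≤ D := by nlinarith
  have hDn : D ≤ ‖w - w₀‖ := by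
    have h1 : D = -((w - w₀).re) := by rw [hDdef, Complex.sub_re]; ring
    rw [h1]
    exact (neg_le_abs _).trans (Complex.abs_re_le_norm _)
  have hy8 : 8 ≤ y := by
    rw [hy, le_div_iff₀ hρ0]
    linarith
  -- the integer K
  set K : ℕ := ⌈2 * y⌉₊ with hK
  have hK1 : 2 * y ≤ K := Nat.le_ceil _
  have hK2 : (K : ℝ) < 2 * y + 1 := Nat.ceil_lt_add_one (by positivity)
  have hK2' : 2 ≤ K := by
    have : (2 : ℝ) ≤ K := by linarith
    exact_mod_cast this
  have hnorm : ‖w - w₀‖ = y * ρ := by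
    rw [hy]
    field_simp
  have hl := expSum_left c T P hP0.le (fun m hm => (hTP m hm).1) w₀ w (ρ / 2) K hK2'
    (by rw [hnorm]; nlinarith) (by linarith) (6 * Real.exp (100 * δ * Q) * M) (by positivity) hM
  refine hl.trans ?_
  -- cardinality
  have hcard : (T.card : ℝ) ≤ 16 * δ * P := by
    have h1 := hD.2 T hT Q hQ0.le (fun m hm => (hTP m hm).2)
    have h2 : √(ℓ * Q) ≤ Q := by
      rw [Real.sqrt_le_left hQ0.le]
      nlinarith
    nlinarith
  have hpow : (2 * Real.exp 1 * K) ^ T.card ≤ Real.exp (16 * δ * P * (24 / 10 + L)) := by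
    have hb : 2 * Real.exp 1 * K ≤ Real.exp (24 / 10 + L) := by
      have h4 : (4 : ℝ) ≤ Real.exp (14 / 10) := by
        have h5 : (2.7:ℝ) ≤ Real.exp 1 := by
          have := Real.exp_one_gt_d9
          linarith
        have h6 : Real.exp (14 / 10) ^ 5 = Real.exp 1 ^ 7 := by
          rw [← Real.exp_nat_mul, ← Real.exp_nat_mul]
          norm_num
        have h7 : (4 : ℝ) ^ 5 ≤ Real.exp (14 / 10) ^ 5 := by
          rw [h6]
          calc (4 : ℝ) ^ 5 ≤ 2.7 ^ 7 := by norm_num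
            _ ≤ _ := pow_le_pow_left₀ (by norm_num) h5 7
        exact le_of_pow_le_pow_left₀ (by norm_num) (Real.exp_pos _).le h7
      have e1 : Real.exp (24 / 10 + L) = Real.exp 1 * Real.exp (14 / 10) * (1 + y) := by
        rw [hL, show (24 / 10 + Real.log (1 + y) : ℝ) = 1 + 14 / 10 + Real.log (1 + y) by ring,
          Real.exp_add, Real.exp_add, Real.exp_log (by linarith)]
      rw [e1]
      have h8 : (K : ℝ) ≤ 2 * (1 + y) := by linarith
      have h9 : 0 < Real.exp 1 := Real.exp_pos 1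
      calc 2 * Real.exp 1 * K ≤ 2 * Real.exp 1 * (2 * (1 + y)) := by gcongr
        _ = Real.exp 1 * 4 * (1 + y) := by ring
        _ ≤ _ := by gcongr
    calc (2 * Real.exp 1 * K) ^ T.card ≤ Real.exp (24 / 10 + L) ^ T.card :=
          pow_le_pow_left₀ (by positivity) hb _
      _ = Real.exp (T.card * (24 / 10 + L)) := by rw [← Real.exp_nat_mul]
      _ ≤ _ := by
          apply Real.exp_le_exp.mpr
          apply mul_le_mul_of_nonneg_right hcard
          linarith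
  calc (2 * Real.exp 1 * K) ^ T.card * Real.exp (-(P * D / 2)) * (6 * Real.exp (100 * δ * Q) * M)
      ≤ Real.exp (16 * δ * P * (24 / 10 + L)) * Real.exp (-(P * D / 2))
          * (6 * Real.exp (100 * δ * Q) * M) := by gcongr
    _ = 6 * Real.exp (16 * δ * P * (24 / 10 + L) + -(P * D / 2) + 100 * δ * Q) * M := by
        rw [Real.exp_add, Real.exp_add]
        ring
    _ ≤ 6 * Real.exp (-(P * D / 4)) * M := by
        refine mul_le_mul_of_nonneg_right ?_ hM0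
        refine mul_le_mul_of_nonneg_left ?_ (by norm_num)
        apply Real.exp_le_exp.mpr
        have f1 : δ * Q ≤ δ * (8 * P) := mul_le_mul_of_nonneg_left hQ hδ.le
        have f2 : 16000 * δ * (1 + L) ≤ D := by
          refine le_trans ?_ hD8
          have : 16000 * δ ≤ 8 * ρ := by linarith
          exact mul_le_mul_of_nonneg_right this (by linarith)
        have f3 : P * (16000 * δ * (1 + L)) ≤ P * D := mul_le_mul_of_nonneg_left f2 hP0.le
        have f4 : 0 ≤ δ * P := by positivity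
        have f5 : 0 ≤ δ * P * L := by positivity
        nlinarith

end Pool.Agent.GapReg
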