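import Pool.Agent.GapReg.Defs

set_option autoImplicit false

/-!
# Decay of an entire function in a region where it is at most `2` on the boundary
-/

namespace Pool.Agent.GapReg

open Finset Filter Topology
open Pool.Agent.MP_e061a3_an

namespace DYAux

lemma prod_lower (n : ℕ) (hn : 0 < n) (x σ τ : ℝ) (hσ : 0 < σ) (hτ : 0 < τ) (d : ℕ → ℝ)
    (hd : ∀ j < n, |x - (j + 1) * σ| ≤ d j) (hdτ : ∀ j < n, τ ≤ d j) :
    τ * (σ * n / 4) ^ (n - 1) * Real.exp (-n) ≤ ∏ j ∈ range n, d j := by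
  obtain ⟨k, hk, hmin⟩ := exists_min_image (range n) (fun j : ℕ => |x - ((j:ℝ) + 1) * σ|)
    ⟨0, mem_range.mpr hn⟩
  have hkn : k < n := mem_range.mp hk
  have hnR : (0:ℝ) < n := by exact_mod_cast hn
  have hfar : ∀ j ∈ (range n).erase k, |(k:ℝ) - j| * (σ / 2) ≤ d j := by
    intro j hj
    have hjn : j < n := mem_range.mp (mem_of_mem_erase hj)
    have h1 := hmin j (mem_range.mpr hjn)
    have h2 := hd j hjn
    have h3 : |(k:ℝ) - j| * σ ≤ |x - ((j:ℝ) + 1) * σ| + |x - ((k:ℝ) + 1) * σ| := by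
      have e : |(k:ℝ) - j| * σ = |(x - ((j:ℝ) + 1) * σ) - (x - ((k:ℝ) + 1) * σ)| := by
        rw [show (x - ((j:ℝ) + 1) * σ) - (x - ((k:ℝ) + 1) * σ) = ((k:ℝ) - j) * σ by ring,
          abs_mul, abs_of_pos hσ]
      rw [e]
      exact abs_sub _ _
    linarith
  have h1 : ∏ j ∈ (range n).erase k, |(k:ℝ) - j| * (σ / 2) ≤ ∏ j ∈ (range n).erase k, d j :=
    prod_le_prod (fun j _ => by positivity) hfar
  rw [prod_mul_distrib, prod_erase_range n k hkn, prod_const, card_erase_of_mem hk,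
    card_range] at h1
  have hchoose : ((n - 1).factorial : ℝ) ≤ 2 ^ (n - 1) * (k.factorial * (n - 1 - k).factorial) := by
    have h2 := Nat.choose_mul_factorial_mul_factorial (n := n - 1) (k := k) (by omega)
    have h3 : (n - 1).choose k ≤ 2 ^ (n - 1) := Nat.choose_le_two_pow _ _
    have h4 : (n - 1).factorial ≤ 2 ^ (n - 1) * (k.factorial * (n - 1 - k).factorial) := by
      rw [← h2, mul_assoc]
      exact Nat.mul_le_mul_right _ h3
    exact_mod_cast h4
  have hfac : (n:ℝ) ^ (n - 1) * Real.exp (-n) ≤ ((n - 1).factorial : ℝ) := by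
    have h2 := Real.pow_div_factorial_le_exp (x := (n:ℝ)) hnR.le n
    have h3 : (n.factorial : ℝ) = n * (n - 1).factorial := by
      rw [← Nat.mul_factorial_pred hn.ne']
      push_cast; rfl
    have h4 : (n:ℝ) ^ n = n * n ^ (n - 1) := by
      rw [← pow_succ', Nat.sub_add_cancel hn]
    have hf : (0:ℝ) < (n - 1).factorial := by exact_mod_cast Nat.factorial_pos _
    rw [h3, h4, mul_div_mul_left _ _ hnR.ne', div_le_iff₀ hf] at h2
    calc (n:ℝ) ^ (n - 1) * Real.exp (-n) ≤ (Real.exp n * (n - 1).factorial) * Real.exp (-n) :=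
          mul_le_mul_of_nonneg_right h2 (Real.exp_pos _).le
      _ = (n - 1).factorial * (Real.exp n * Real.exp (-n)) := by ring
      _ = (n - 1).factorial := by rw [← Real.exp_add]; simp
  have hkey : (σ * n / 4) ^ (n - 1) * Real.exp (-n)
      ≤ (k.factorial : ℝ) * ((n - 1 - k).factorial) * (σ / 2) ^ (n - 1) := by
    have e1 : (σ * n / 4) ^ (n - 1) = (σ / 4) ^ (n - 1) * n ^ (n - 1) := by
      rw [← mul_pow]; congr 1; ring
    have e2 : (σ / 2) ^ (n - 1) = (σ / 4) ^ (n - 1) * 2 ^ (n - 1) := by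
      rw [← mul_pow]; congr 1; ring
    rw [e1, e2]
    calc (σ / 4) ^ (n - 1) * (n:ℝ) ^ (n - 1) * Real.exp (-n)
        = (σ / 4) ^ (n - 1) * (n ^ (n - 1) * Real.exp (-n)) := by ring
      _ ≤ (σ / 4) ^ (n - 1) * (2 ^ (n - 1) * (k.factorial * (n - 1 - k).factorial)) :=
          mul_le_mul_of_nonneg_left (hfac.trans hchoose) (by positivity)
      _ = _ := by ring
  have hd0 : 0 ≤ ∏ j ∈ (range n).erase k, d j :=
    prod_nonneg fun j hj => hτ.le.trans (hdτ j (mem_range.mp (mem_of_mem_erase hj)))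
  rw [← mul_prod_erase (range n) d hk]
  calc τ * (σ * n / 4) ^ (n - 1) * Real.exp (-n)
      = τ * ((σ * n / 4) ^ (n - 1) * Real.exp (-n)) := by ring
    _ ≤ τ * ∏ j ∈ (range n).erase k, d j :=
        mul_le_mul_of_nonneg_left (hkey.trans h1) hτ.le
    _ ≤ d k * ∏ j ∈ (range n).erase k, d j :=
        mul_le_mul_of_nonneg_right (hdτ k hkn) hd0

lemma num1 : (4000 * Real.exp 1 : ℝ) ≤ Real.exp (19 / 2) := by
  have h1 : (4000:ℝ) ≤ Real.exp (17 / 2) := by
    have h : (4000:ℝ) ^ 2 ≤ Real.exp (17 / 2) ^ 2 := by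
      rw [← Real.exp_nat_mul]
      have e : ((2:ℕ):ℝ) * (17 / 2) = ((17:ℕ):ℝ) * 1 := by norm_num
      rw [e, Real.exp_nat_mul]
      have h2 : (2.7:ℝ) ≤ Real.exp 1 := by linarith [Real.exp_one_gt_d9]
      calc (4000:ℝ) ^ 2 ≤ 2.7 ^ 17 := by norm_num
        _ ≤ _ := pow_le_pow_left₀ (by norm_num) h2 _
    exact le_of_sq_le_sq h (Real.exp_pos _).le
  calc 4000 * Real.exp 1 ≤ Real.exp (17 / 2) * Real.exp 1 :=
        mul_le_mul_of_nonneg_right h1 (Real.exp_pos _).le
    _ = Real.exp (19 / 2) := by rw [← Real.exp_add]; norm_num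

lemma num2 : Real.exp 6 ≤ (999 / 2 : ℝ) := by
  have e : (6:ℝ) = ((6:ℕ):ℝ) * 1 := by norm_num
  rw [e, Real.exp_nat_mul]
  have h2 : Real.exp 1 ≤ (2.72:ℝ) := by linarith [Real.exp_one_lt_d9]
  calc Real.exp 1 ^ 6 ≤ (2.72:ℝ) ^ 6 := pow_le_pow_left₀ (Real.exp_pos _).le h2 _
    _ ≤ 999 / 2 := by norm_num

/-- choice of the exponent `a` -/
lemma exists_a (m X : ℝ) (hm : 0 < m) :
    ∃ a n : ℕ, 0 < a ∧ 0 < n ∧ X ≤ n ∧ 10 * (n:ℝ) ≤ a * m ∧ a * m < 10 * (n + 1) ∧
      60 ≤ a * m := by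
  obtain ⟨a, ha⟩ := exists_nat_ge (max (10 * (X + 2) / m) (60 / m + 1))
  have h1 : 10 * (X + 2) / m ≤ a := (le_max_left _ _).trans ha
  have h2 : 60 / m + 1 ≤ a := (le_max_right _ _).trans ha
  rw [div_le_iff₀ hm] at h1
  have h3 : 60 ≤ a * m := by
    have : 60 / m ≤ a := by linarith
    rwa [div_le_iff₀ hm] at this
  have ha0 : 0 < a := by
    rcases Nat.eq_zero_or_pos a with h | h
    · subst h; norm_num at h3
    · exact h
  have h0 : 0 ≤ a * m / 10 := by positivity
  refine ⟨a, ⌊a * m / 10⌋₊, ha0, ?_, ?_, ?_, ?_, h3⟩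
  · rw [Nat.floor_pos]; linarith
  · have := Nat.lt_floor_add_one (a * m / 10)
    linarith
  · have := Nat.floor_le h0
    linarith
  · have := Nat.lt_floor_add_one (a * m / 10)
    linarith

lemma final_ineq (m a n A : ℝ) (hm : 0 < m) (ha : 0 < a) (h : a * m < 10 * (n + 1))
    (h60 : 60 ≤ a * m) (hA : a * A ≤ m * a - 6 * n) : A ≤ m / 2 := by
  have h1 : a * A ≤ a * (m / 2) := by nlinarith
  exact le_of_mul_le_mul_left h1 ha

end DYAux

open DYAux

theorem decay_step (F : ℂ → ℂ) (hF : Differentiable ℂ F) (W : Set ℂ) (hW : IsOpen W) (p : ℂ)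
    (R m : ℝ) (hR : 0 < R) (hm : 0 < m) (hfr : ∀ w ∈ frontier W, ‖w - p‖ < R → ‖F w‖ ≤ 2)
    (hb : ∀ w ∈ W, ‖w - p‖ ≤ R → ‖F w‖ ≤ 2 * Real.exp m)
    (hreach : ∀ ρ : ℝ, 0 ≤ ρ → ρ ≤ R / 1000 → ∃ ζ : ℂ, ‖ζ - p‖ = ρ ∧ ‖F ζ‖ ≤ 1) :
    ∀ w ∈ W, ‖w - p‖ ≤ R / 1000 → ‖F w‖ ≤ 2 * Real.exp (m / 2) := by
  intro w hwW hwR
  rcases le_or_gt ‖F w‖ 2 with hle | hgt
  · have : (1:ℝ) ≤ Real.exp (m / 2) := Real.one_le_exp (by positivity)
    linarith
  have hFc : Continuous F := hF.continuous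
  set U : Set ℂ := (W ∩ {z | 2 < ‖F z‖}) ∩ Metric.ball p R with hU
  have hUo : IsOpen U :=
    (hW.inter (isOpen_lt continuous_const hFc.norm)).inter Metric.isOpen_ball
  have hwU : w ∈ U := ⟨⟨hwW, hgt⟩, by rw [Metric.mem_ball, dist_eq_norm]; linarith⟩
  have hUb : Bornology.IsBounded U := Metric.isBounded_ball.subset Set.inter_subset_right
  -- closure facts
  have hcl1 : ∀ z ∈ closure U, 2 ≤ ‖F z‖ := by
    intro z hz
    have : closure U ⊆ {z | 2 ≤ ‖F z‖} :=
      closure_minimal (fun u hu => le_of_lt (show (2:ℝ) < ‖F u‖ from hu.1.2))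
        (isClosed_le continuous_const hFc.norm)
    exact this hz
  have hcl2 : ∀ z ∈ closure U, ‖z - p‖ ≤ R := by
    intro z hz
    have : closure U ⊆ {z | ‖z - p‖ ≤ R} :=
      closure_minimal (fun u hu => by
        have := hu.2
        rw [Metric.mem_ball, dist_eq_norm] at this
        exact this.le) (isClosed_le (by fun_prop) continuous_const)
    exact this hz
  have hcl3 : ∀ z ∈ closure U, ‖F z‖ ≤ 2 * Real.exp m := by
    intro z hz
    have : closure U ⊆ {z | ‖F z‖ ≤ 2 * Real.exp m} :=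
      closure_minimal (fun u hu => hb u hu.1.1 (by
        have := hu.2
        rw [Metric.mem_ball, dist_eq_norm] at this
        exact this.le)) (isClosed_le hFc.norm continuous_const)
    exact this hz
  have hfr2 : ∀ z ∈ frontier U, ‖z - p‖ = R ∨ ‖F z‖ = 2 := by
    intro z hz
    have hzc : z ∈ closure U := hz.1
    have hzU : z ∉ U := by
      have := hz.2
      rwa [hUo.interior_eq] at this
    rcases eq_or_lt_of_le (hcl2 z hzc) with h | h
    · exact Or.inl h
    right
    refine le_antisymm ?_ (hcl1 z hzc)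
    by_cases hzW : z ∈ W
    · by_contra hcon
      push Not at hcon
      exact hzU ⟨⟨hzW, hcon⟩, by rw [Metric.mem_ball, dist_eq_norm]; exact h⟩
    · apply hfr z _ h
      rw [hW.frontier_eq]
      exact ⟨closure_mono (fun u hu => hu.1.1) hzc, hzW⟩
  -- uniform continuity
  obtain ⟨τ, hτ, hτF⟩ : ∃ τ : ℝ, 0 < τ ∧ ∀ x ∈ Metric.closedBall p (2 * R),
      ∀ y ∈ Metric.closedBall p (2 * R), ‖x - y‖ < τ → ‖F x - F y‖ < 1 := by
    have huc := (isCompact_closedBall p (2 * R)).uniformContinuousOn_of_continuous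
      hFc.continuousOn
    rw [Metric.uniformContinuousOn_iff] at huc
    obtain ⟨τ, hτ, h⟩ := huc 1 one_pos
    refine ⟨τ, hτ, fun x hx y hy hxy => ?_⟩
    have := h x hx y hy (by rw [dist_eq_norm]; exact hxy)
    rwa [dist_eq_norm] at this
  -- parameters
  obtain ⟨a, n, ha, hn, hX, h10, h11, h60⟩ := exists_a m (2 * (R / (4000 * τ))) hm
  have hnR : (0:ℝ) < n := by exact_mod_cast hn
  have haR : (0:ℝ) < a := by exact_mod_cast ha
  set σ : ℝ := R / (1000 * n) with hσ
  have hσ0 : 0 < σ := by positivity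
  have hσn : σ * n = R / 1000 := by rw [hσ]; field_simp
  have hex : ∀ j : ℕ, ∃ ζ : ℂ, j < n → (‖ζ - p‖ = (j + 1) * σ ∧ ‖F ζ‖ ≤ 1) := by
    intro j
    by_cases hj : j < n
    · obtain ⟨ζ, h1, h2⟩ := hreach ((j + 1) * σ) (by positivity) (by
        rw [← hσn, mul_comm σ]
        apply mul_le_mul_of_nonneg_right _ hσ0.le
        exact_mod_cast hj)
      exact ⟨ζ, fun _ => ⟨h1, h2⟩⟩
    · exact ⟨0, fun h => absurd h hj⟩
  choose ζ hζ using hex
  have hζR : ∀ j < n, ‖ζ j - p‖ ≤ R / 1000 := by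
    intro j hj
    rw [(hζ j hj).1, ← hσn, mul_comm σ]
    apply mul_le_mul_of_nonneg_right _ hσ0.le
    exact_mod_cast hj
  have hsep : ∀ z ∈ closure U, ∀ j < n, τ ≤ ‖z - ζ j‖ := by
    intro z hz j hj
    by_contra hcon
    push Not at hcon
    have h1 := hτF z (by
      rw [Metric.mem_closedBall, dist_eq_norm]; linarith [hcl2 z hz]) (ζ j) (by
      rw [Metric.mem_closedBall, dist_eq_norm]; linarith [hζR j hj]) hcon
    have h2 := hcl1 z hz
    have h3 := (hζ j hj).2
    have h4 : ‖F z‖ ≤ ‖F z - F (ζ j)‖ + ‖F (ζ j)‖ := by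
      have := norm_add_le (F z - F (ζ j)) (F (ζ j))
      simpa using this
    linarith
  -- the auxiliary function
  set h : ℂ → ℂ := fun z => (F z / 2) ^ a / ∏ j ∈ range n, (z - ζ j) with hh
  have hne : ∀ z ∈ closure U, ∏ j ∈ range n, (z - ζ j) ≠ 0 := by
    intro z hz
    rw [prod_ne_zero_iff]
    intro j hj h0
    have := hsep z hz j (mem_range.mp hj)
    rw [h0, norm_zero] at this
    linarith
  have hdiff : DiffContOnCl ℂ h U := by
    refine DifferentiableOn.diffContOnCl fun z hz => ?_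
    refine DifferentiableAt.differentiableWithinAt ?_
    refine DifferentiableAt.div ?_ ?_ (hne z hz)
    · exact ((hF z).div_const 2).pow a
    · have : Differentiable ℂ (fun z : ℂ => ∏ j ∈ range n, (z - ζ j)) := by fun_prop
      exact this z
  set C : ℝ := Real.exp (m * a) / (999 / 1000 * R) ^ n with hC
  have hR' : (0:ℝ) < (999 / 1000 * R) ^ n := by positivity
  have hfrb : ∀ z ∈ frontier U, ‖h z‖ ≤ C := by
    intro z hz
    have hzc : z ∈ closure U := hz.1
    rw [hh]
    simp only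
    rw [norm_div, norm_pow, norm_div, norm_prod, Complex.norm_ofNat]
    have hP0 : 0 < ∏ j ∈ range n, ‖z - ζ j‖ :=
      prod_pos fun j hj => hτ.trans_le (hsep z hzc j (mem_range.mp hj))
    rcases hfr2 z hz with h1 | h1
    · -- outer part
      have h2 : (‖F z‖ / 2) ^ a ≤ Real.exp (m * a) := by
        rw [mul_comm m, Real.exp_nat_mul]
        apply pow_le_pow_left₀ (by positivity)
        linarith [hcl3 z hzc]
      have h3 : (999 / 1000 * R) ^ n ≤ ∏ j ∈ range n, ‖z - ζ j‖ := by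
        calc (999 / 1000 * R) ^ n = ∏ _j ∈ range n, (999 / 1000 * R) := by
              rw [prod_const, card_range]
          _ ≤ _ := by
              refine prod_le_prod (fun j _ => by positivity) fun j hj => ?_
              have h4 := hζR j (mem_range.mp hj)
              have h5 : ‖z - p‖ ≤ ‖z - ζ j‖ + ‖ζ j - p‖ := by
                have := norm_add_le (z - ζ j) (ζ j - p)
                simpa using this
              rw [h1] at h5
              linarith
      exact div_le_div₀ (Real.exp_pos _).le h2 hR' h3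
    · -- the part where the modulus is 2
      rw [h1, div_self (by norm_num : (2:ℝ) ≠ 0), one_pow]
      have h2 := prod_lower n hn ‖z - p‖ σ τ hσ0 hτ (fun j => ‖z - ζ j‖)
        (fun j hj => by
          rw [← (hζ j hj).1]
          have := abs_norm_sub_norm_le (z - p) (ζ j - p)
          simpa using this) (fun j hj => hsep z hzc j hj)
      rw [hσn] at h2
      have h3 : (999 / 1000 * R) ^ n ≤ Real.exp (m * a) * (τ * (R / 1000 / 4) ^ (n - 1) *
          Real.exp (-n)) := by
        have e0 : (R:ℝ) ^ n = R * R ^ (n - 1) := by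
          rw [← pow_succ', Nat.sub_add_cancel hn]
        have e1 : (R / 1000 / 4) ^ (n - 1) = R ^ (n - 1) / 4000 ^ (n - 1) := by
          rw [← div_pow]; congr 1; ring
        have e2 : (4000:ℝ) ^ n = 4000 * 4000 ^ (n - 1) := by
          rw [← pow_succ', Nat.sub_add_cancel hn]
        have h4 : (999 / 1000 * R) ^ n ≤ R * R ^ (n - 1) := by
          rw [← e0]
          exact pow_le_pow_left₀ (by positivity) (by linarith) _
        refine h4.trans ?_
        rw [e1]
        have h5 : R / (4000 * τ) * (4000 * Real.exp 1) ^ n ≤ Real.exp (m * a) := by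
          have h6 : R / (4000 * τ) ≤ Real.exp ((n:ℝ) * (1 / 2)) := by
            have := Real.add_one_le_exp ((n:ℝ) * (1 / 2))
            linarith
          have h7 : (4000 * Real.exp 1) ^ n ≤ Real.exp ((n:ℝ) * (19 / 2)) := by
            rw [Real.exp_nat_mul]
            exact pow_le_pow_left₀ (by positivity) num1 _
          calc R / (4000 * τ) * (4000 * Real.exp 1) ^ n
              ≤ Real.exp ((n:ℝ) * (1 / 2)) * Real.exp ((n:ℝ) * (19 / 2)) :=
                mul_le_mul h6 h7 (by positivity) (Real.exp_pos _).le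
            _ = Real.exp (10 * n) := by rw [← Real.exp_add]; congr 1; ring
            _ ≤ Real.exp (m * a) := Real.exp_le_exp.mpr (by linarith)
        have h8 : R * R ^ (n - 1) = (R / (4000 * τ) * (4000 * Real.exp 1) ^ n) *
            (τ * (R ^ (n - 1) / 4000 ^ (n - 1)) * Real.exp (-n)) := by
          have e3 : (4000 * Real.exp 1) ^ n = 4000 * 4000 ^ (n - 1) * Real.exp n := by
            rw [mul_pow, e2]
            congr 1
            rw [← Real.exp_nat_mul, mul_one]
          rw [e3]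
          have e4 : Real.exp (-(n:ℝ)) = (Real.exp n)⁻¹ := Real.exp_neg _
          rw [e4]
          have e5 : Real.exp (n:ℝ) ≠ 0 := (Real.exp_pos _).ne'
          field_simp
        rw [h8]
        exact mul_le_mul_of_nonneg_right h5 (by positivity)
      rw [hC, div_le_div_iff₀ hP0 hR', one_mul]
      exact h3.trans (mul_le_mul_of_nonneg_left h2 (Real.exp_pos _).le)
  have hmax := Complex.norm_le_of_forall_mem_frontier_norm_le hUb hdiff hfrb
    (subset_closure hwU)
  -- conclusion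
  rw [hh] at hmax
  simp only at hmax
  rw [norm_div, norm_pow, norm_div, norm_prod, Complex.norm_ofNat] at hmax
  have hP0 : 0 < ∏ j ∈ range n, ‖w - ζ j‖ :=
    prod_pos fun j hj => hτ.trans_le (hsep w (subset_closure hwU) j (mem_range.mp hj))
  rw [div_le_iff₀ hP0] at hmax
  have hPup : ∏ j ∈ range n, ‖w - ζ j‖ ≤ (2 * (R / 1000)) ^ n := by
    calc ∏ j ∈ range n, ‖w - ζ j‖ ≤ ∏ _j ∈ range n, (2 * (R / 1000)) := by
          refine prod_le_prod (fun j _ => norm_nonneg _) fun j hj => ?_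
          have h4 := hζR j (mem_range.mp hj)
          have h5 : ‖w - ζ j‖ ≤ ‖w - p‖ + ‖ζ j - p‖ := by
            have := norm_sub_le (w - p) (ζ j - p)
            simpa using this
          linarith
      _ = _ := by rw [prod_const, card_range]
  have hfin : (‖F w‖ / 2) ^ a ≤ Real.exp (m * a - 6 * n) := by
    refine hmax.trans ?_
    calc C * ∏ j ∈ range n, ‖w - ζ j‖ ≤ C * (2 * (R / 1000)) ^ n :=
          mul_le_mul_of_nonneg_left hPup (by positivity)
      _ = Real.exp (m * a) * (2 / 999) ^ n := by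
          rw [hC, div_mul_eq_mul_div, mul_div_assoc, ← div_pow]
          congr 2
          field_simp
      _ ≤ Real.exp (m * a) * Real.exp (-6) ^ n := by
          apply mul_le_mul_of_nonneg_left _ (Real.exp_pos _).le
          apply pow_le_pow_left₀ (by norm_num)
          rw [Real.exp_neg]
          have h1 : (2 / 999 : ℝ) = (999 / 2)⁻¹ := by norm_num
          rw [h1]
          exact inv_anti₀ (Real.exp_pos _) num2
      _ = Real.exp (m * a - 6 * n) := by
          rw [← Real.exp_nat_mul, ← Real.exp_add]; congr 1; ring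
  have hFw0 : 0 < ‖F w‖ / 2 := by linarith
  have hlog : a * Real.log (‖F w‖ / 2) ≤ m * a - 6 * n := by
    have h1 := Real.log_le_log (pow_pos hFw0 a) hfin
    rw [Real.log_pow, Real.log_exp] at h1
    exact h1
  have hA := final_ineq m a n _ hm haR h11 h60 hlog
  have h2 := Real.exp_le_exp.mpr hA
  rw [Real.exp_log hFw0] at h2
  linarith

theorem decay_iter (F : ℂ → ℂ) (hF : Differentiable ℂ F) (W : Set ℂ) (hW : IsOpen W) (p : ℂ)
    (R m : ℝ) (hR : 0 < R) (hm : 0 < m) (hfr : ∀ w ∈ frontier W, ‖w - p‖ < R → ‖F w‖ ≤ 2)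
    (hb : ∀ w ∈ W, ‖w - p‖ ≤ R → ‖F w‖ ≤ 2 * Real.exp m) (hreach : Reach F p) (k : ℕ) :
    ∀ w ∈ W, ‖w - p‖ ≤ R / 1000 ^ k → ‖F w‖ ≤ 2 * Real.exp (m / 2 ^ k) := by
  induction k with
  | zero => simpa using hb
  | succ k ih =>
    intro w hw hwR
    have hk : R / 1000 ^ k ≤ R := div_le_self hR.le (one_le_pow₀ (by norm_num))
    have h := decay_step F hF W hW p (R / 1000 ^ k) (m / 2 ^ k) (by positivity) (by positivity)
      (fun u hu hu2 => hfr u hu (lt_of_lt_of_le hu2 hk)) ih
      (fun ρ h0 _ => hreach ρ h0) w hw (by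
        rw [div_div, ← pow_succ]; exact hwR)
    rw [div_div, ← pow_succ] at h
    exact h

end Pool.Agent.GapReg
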