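import Pool.Agent.GapReg.Defs

set_option autoImplicit false

namespace Pool.Agent.GapReg

open Finset Filter Topology
open Pool.Agent.MP_e061a3_an

namespace GCAux

theorem sqrt_step {y : ℝ} (hy : 0 ≤ y) : 1 / √(y + 1 / 2) ≤ 2 * (√(y + 1) - √y) := by
  set a := √(y + 1) with ha
  set b := √y with hb
  set c := √(y + 1 / 2) with hc
  have ha2 : a ^ 2 = y + 1 := Real.sq_sqrt (by linarith)
  have hb2 : b ^ 2 = y := Real.sq_sqrt hy
  have hc2 : c ^ 2 = y + 1 / 2 := Real.sq_sqrt (by linarith)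
  have ha0 : 0 ≤ a := Real.sqrt_nonneg _
  have hb0 : 0 ≤ b := Real.sqrt_nonneg _
  have hc0 : 0 < c := Real.sqrt_pos.2 (by linarith)
  have h1 : a + b ≤ 2 * c := by
    refine le_of_sq_le_sq ?_ (by linarith)
    nlinarith [sq_nonneg (a - b)]
  have h2 : 0 ≤ a - b := by
    have : b ≤ a := Real.sqrt_le_sqrt (by linarith)
    linarith
  rw [div_le_iff₀ hc0]
  nlinarith [mul_le_mul_of_nonneg_right h1 h2]

theorem sqrt_add {a b : ℝ} (ha : 0 ≤ a) (hb : 0 ≤ b) : √(a + b) ≤ √a + √b := by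
  rw [Real.sqrt_le_iff]
  have h1 := Real.sqrt_nonneg a
  have h2 := Real.sqrt_nonneg b
  have h3 := Real.sq_sqrt ha
  have h4 := Real.sq_sqrt hb
  exact ⟨by linarith, by nlinarith [mul_nonneg h1 h2]⟩

/-- an increasing function on the integers with large increments near `0` -/
noncomputable def phi (u : ℝ) : ℝ := √u - √(-u)

theorem phi_step (u : ℤ) : 1 / √|(u : ℝ) + 1 / 2| ≤ 2 * (phi ((u : ℝ) + 1) - phi u) := by
  unfold phi
  rcases le_or_gt 0 u with h | h
  · have hu : (0 : ℝ) ≤ u := by exact_mod_cast h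
    rw [abs_of_nonneg (by linarith), Real.sqrt_eq_zero_of_nonpos (show -((u : ℝ) + 1) ≤ 0 by linarith),
      Real.sqrt_eq_zero_of_nonpos (show -(u : ℝ) ≤ 0 by linarith), sub_zero, sub_zero]
    exact sqrt_step hu
  · have hu : (u : ℝ) + 1 ≤ 0 := by
      have : u + 1 ≤ 0 := h
      exact_mod_cast this
    rw [abs_of_nonpos (by linarith), Real.sqrt_eq_zero_of_nonpos hu,
      Real.sqrt_eq_zero_of_nonpos (show (u : ℝ) ≤ 0 by linarith)]
    have h1 := sqrt_step (y := -((u : ℝ) + 1)) (by linarith)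
    have e1 : -((u : ℝ) + 1) + 1 / 2 = -((u : ℝ) + 1 / 2) := by ring
    have e2 : -((u : ℝ) + 1) + 1 = -(u : ℝ) := by ring
    rw [e1, e2] at h1
    linarith

theorem phi_diff (u x : ℝ) (hx : 0 ≤ x) : phi (u + x) - phi u ≤ 2 * √x := by
  unfold phi
  have hx0 : 0 ≤ √x := Real.sqrt_nonneg _
  rcases le_or_gt 0 u with h | h
  · have h1 : √(u + x) ≤ √u + √x := sqrt_add h hx
    have h2 : √(-u) = 0 := Real.sqrt_eq_zero_of_nonpos (by linarith)
    have h3 : 0 ≤ √(-(u + x)) := Real.sqrt_nonneg _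
    linarith
  · rcases le_or_gt 0 (u + x) with h' | h'
    · have h1 : √(u + x) ≤ √x := Real.sqrt_le_sqrt (by linarith)
      have h2 : √(-u) ≤ √x := Real.sqrt_le_sqrt (by linarith)
      have h3 : 0 ≤ √(-(u + x)) := Real.sqrt_nonneg _
      have h4 : 0 ≤ √u := Real.sqrt_nonneg _
      linarith
    · have h1 : √(-(u + x) + x) ≤ √(-(u + x)) + √x :=
        sqrt_add (by linarith) hx
      have e1 : -(u + x) + x = -u := by ring
      rw [e1] at h1
      have h2 : √(u + x) = 0 := Real.sqrt_eq_zero_of_nonpos (by linarith)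
      have h3 : 0 ≤ √u := Real.sqrt_nonneg _
      linarith

theorem log_le {y : ℝ} (hy : 0 < y) : Real.log y ≤ 3 / 4 * √y := by
  set s := √y with hs
  have hs0 : 0 < s := Real.sqrt_pos.2 hy
  have h1 : Real.log y = 2 * Real.log s := by
    rw [hs, Real.log_sqrt hy.le]; ring
  have h2 : Real.log (s / Real.exp 1) ≤ s / Real.exp 1 - 1 :=
    Real.log_le_sub_one_of_pos (div_pos hs0 (Real.exp_pos 1))
  rw [Real.log_div hs0.ne' (Real.exp_pos 1).ne', Real.log_exp] at h2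
  have h3 : s / Real.exp 1 ≤ 3 / 8 * s := by
    rw [div_le_iff₀ (Real.exp_pos 1)]
    nlinarith [Real.exp_one_gt_d9]
  linarith

/-- the average of the logarithms -/
theorem sum_log (x m : ℕ) (hx : 1 ≤ x) :
    ∑ i ∈ range x, Real.log (4 * x / |(m : ℝ) - ((x + i : ℕ) + 1 / 2)|) ≤ 6 * x := by
  have hx1 : (1 : ℝ) ≤ x := by exact_mod_cast hx
  have hterm : ∀ i ∈ range x, Real.log (4 * x / |(m : ℝ) - ((x + i : ℕ) + 1 / 2)|) ≤
      3 / 2 * √x * (2 * (phi ((x : ℝ) - m + ((i + 1 : ℕ) : ℝ)) - phi ((x : ℝ) - m + (i : ℕ)))) := by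
    intro i _
    have habs : |(m : ℝ) - ((x + i : ℕ) + 1 / 2)| = |(((x : ℤ) - m + i : ℤ) : ℝ) + 1 / 2| := by
      rw [← abs_neg]; congr 1; push_cast; ring
    have hpos : 0 < |(m : ℝ) - ((x + i : ℕ) + 1 / 2)| := by
      rw [habs, abs_pos]
      intro h0
      have h1 : (2 * ((x : ℤ) - m + i) + 1 : ℤ) = 0 := by
        have : ((2 * ((x : ℤ) - m + i) + 1 : ℤ) : ℝ) = 0 := by push_cast at h0 ⊢; linarith
        exact_mod_cast this
      omega
    have h1 := log_le (y := 4 * x / |(m : ℝ) - ((x + i : ℕ) + 1 / 2)|) (by positivity)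
    have h2 : √(4 * x / |(m : ℝ) - ((x + i : ℕ) + 1 / 2)|) =
        2 * √x * (1 / √|(m : ℝ) - ((x + i : ℕ) + 1 / 2)|) := by
      rw [Real.sqrt_div (by positivity), Real.sqrt_mul (by norm_num),
        show (4 : ℝ) = 2 ^ 2 by norm_num, Real.sqrt_sq (by norm_num)]
      ring
    have h3 := phi_step ((x : ℤ) - m + i)
    rw [← habs] at h3
    have e1 : ((((x : ℤ) - m + i : ℤ) : ℝ) + 1) = (x : ℝ) - m + ((i + 1 : ℕ) : ℝ) := by
      push_cast; ring
    have e2 : (((x : ℤ) - m + i : ℤ) : ℝ) = (x : ℝ) - m + (i : ℕ) := by push_cast; ring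
    rw [e1, e2] at h3
    refine h1.trans ?_
    rw [h2]
    have h4 : 0 ≤ √(x : ℝ) := Real.sqrt_nonneg _
    nlinarith [mul_le_mul_of_nonneg_left h3 h4]
  refine (Finset.sum_le_sum hterm).trans ?_
  rw [← Finset.mul_sum, ← Finset.mul_sum,
    Finset.sum_range_sub (fun i : ℕ => phi ((x : ℝ) - m + (i : ℕ)))]
  have h5 := phi_diff ((x : ℝ) - m) x (by positivity)
  have h6 : 0 ≤ √(x : ℝ) := Real.sqrt_nonneg _
  have h7 : √(x : ℝ) * √(x : ℝ) = x := Real.mul_self_sqrt (by positivity)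
  simp only [Nat.cast_zero, add_zero]
  nlinarith [mul_le_mul_of_nonneg_left h5 h6]

/-- the sum of the inverse squares of the elements of `T` in `(y, 2 ^ N y]` -/
theorem tail_sq (A : Set ℕ) (δ ℓ : ℝ) (hδ : 0 < δ) (hℓ : 1 ≤ ℓ) (hD : Dens A δ ℓ) (N : ℕ) :
    ∀ y : ℝ, ℓ ≤ y → ∀ T : Finset ℕ, (∀ m ∈ T, m ∈ A) → (∀ m ∈ T, y < m) →
      (∀ m ∈ T, (m : ℝ) ≤ 2 ^ N * y) → ∑ m ∈ T, 1 / (m : ℝ) ^ 2 ≤ 8 * δ / y := by
  induction N with
  | zero =>
    intro y hy T _ h2 h3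
    have hT : T = ∅ := by
      refine Finset.eq_empty_of_forall_notMem fun m hm => ?_
      have h4 := h2 m hm
      have h5 := h3 m hm
      rw [pow_zero, one_mul] at h5
      exact absurd h4 (not_lt.2 h5)
    rw [hT, Finset.sum_empty]
    have : 0 < y := by linarith
    positivity
  | succ N ih =>
    intro y hy T h1 h2 h3
    have hy0 : 0 < y := by linarith
    rw [← Finset.sum_filter_add_sum_filter_not T (fun m : ℕ => (m : ℝ) ≤ 2 * y)]
    have hA : ∑ m ∈ T.filter (fun m : ℕ => (m : ℝ) ≤ 2 * y), 1 / (m : ℝ) ^ 2 ≤ 4 * δ / y := by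
      have h4 : ∑ m ∈ T.filter (fun m : ℕ => (m : ℝ) ≤ 2 * y), 1 / (m : ℝ) ^ 2 ≤
          ∑ _m ∈ T.filter (fun m : ℕ => (m : ℝ) ≤ 2 * y), 1 / y ^ 2 := by
        refine Finset.sum_le_sum fun m hm => ?_
        have h5 := h2 m (Finset.mem_of_mem_filter m hm)
        exact one_div_le_one_div_of_le (by positivity) (by gcongr)
      refine h4.trans ?_
      rw [Finset.sum_const, nsmul_eq_mul]
      have h6 := hD.2 (T.filter (fun m : ℕ => (m : ℝ) ≤ 2 * y))
        (fun m hm => h1 m (Finset.mem_of_mem_filter m hm)) (2 * y) (by positivity)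
        (fun m hm => (Finset.mem_filter.1 hm).2)
      have h7 : √(ℓ * (2 * y)) ≤ 2 * y := by
        rw [Real.sqrt_le_left (by positivity)]
        nlinarith
      have h8 : ((T.filter (fun m : ℕ => (m : ℝ) ≤ 2 * y)).card : ℝ) ≤ 4 * δ * y := by
        refine h6.trans ?_
        nlinarith
      calc ((T.filter (fun m : ℕ => (m : ℝ) ≤ 2 * y)).card : ℝ) * (1 / y ^ 2)
          ≤ 4 * δ * y * (1 / y ^ 2) := by gcongr
        _ = 4 * δ / y := by field_simp
    have hB : ∑ m ∈ T.filter (fun m : ℕ => ¬ (m : ℝ) ≤ 2 * y), 1 / (m : ℝ) ^ 2 ≤ 8 * δ / (2 * y) := by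
      refine ih (2 * y) (by linarith) _ (fun m hm => h1 m (Finset.mem_of_mem_filter m hm))
        (fun m hm => not_le.1 (Finset.mem_filter.1 hm).2) (fun m hm => ?_)
      have h5 := h3 m (Finset.mem_of_mem_filter m hm)
      rw [pow_succ, mul_assoc] at h5
      exact h5
    have hC : 4 * δ / y + 8 * δ / (2 * y) = 8 * δ / y := by field_simp; ring
    linarith

end GCAux

open GCAux in
theorem good_cut (A : Set ℕ) (δ ℓ : ℝ) (hδ : 0 < δ) (hℓ : 1 ≤ ℓ) (hD : Dens A δ ℓ) (x : ℕ)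
    (hx : ℓ ≤ x) :
    ∃ k : ℕ, x ≤ k ∧ k < 2 * x ∧ ∀ S : Finset ℕ, (∀ m ∈ S, m ∈ A) →
      Real.exp (-(60 * δ * x)) ≤ ∏ m ∈ S, |1 - (((k : ℝ) + 1 / 2) / m) ^ 2| := by
  classical
  have hx1 : (1 : ℝ) ≤ x := hℓ.trans hx
  have hx1' : 1 ≤ x := by exact_mod_cast hx1
  let B : Finset ℕ := (range (4 * x + 1)).filter (fun m => m ∈ A)
  have hBA : ∀ m ∈ B, m ∈ A := fun m hm => (Finset.mem_filter.1 hm).2
  have hBx : ∀ m ∈ B, (m : ℝ) ≤ 4 * x := fun m hm => by
    have : m ≤ 4 * x := Nat.lt_succ_iff.1 (Finset.mem_range.1 (Finset.mem_filter.1 hm).1)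
    exact_mod_cast this
  have hBcard : (B.card : ℝ) ≤ 6 * δ * x := by
    refine (hD.2 B hBA (4 * x) (by positivity) hBx).trans ?_
    have h7 : √(ℓ * (4 * x)) ≤ 2 * x := by
      rw [Real.sqrt_le_left (by positivity)]
      nlinarith
    nlinarith
  -- averaging
  obtain ⟨i, hi, hi2⟩ : ∃ i ∈ range x,
      ∑ m ∈ B, Real.log (4 * x / |(m : ℝ) - ((x + i : ℕ) + 1 / 2)|) ≤ 36 * δ * x := by
    refine Finset.exists_le_of_sum_le (Finset.nonempty_range_iff.2 (by omega)) ?_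
    rw [Finset.sum_comm, Finset.sum_const, Finset.card_range, nsmul_eq_mul]
    refine (Finset.sum_le_sum fun m _ => sum_log x m hx1').trans ?_
    rw [Finset.sum_const, nsmul_eq_mul]
    nlinarith
  have hix : i < x := Finset.mem_range.1 hi
  refine ⟨x + i, by omega, by omega, fun S hS => ?_⟩
  set P : ℝ := ((x + i : ℕ) : ℝ) + 1 / 2 with hP
  have hP0 : 0 < P := by positivity
  have hP2 : P ≤ 2 * x := by
    have : ((x + i : ℕ) : ℝ) + 1 ≤ 2 * x := by
      have : x + i + 1 ≤ 2 * x := by omega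
      exact_mod_cast this
    rw [hP]; linarith
  have hne : ∀ m : ℕ, 0 < |(m : ℝ) - P| := by
    intro m
    rw [abs_pos]
    intro h0
    have h1 : (2 * (m : ℤ) - 2 * (x + i : ℕ) - 1 : ℤ) = 0 := by
      have : ((2 * (m : ℤ) - 2 * (x + i : ℕ) - 1 : ℤ) : ℝ) = 0 := by
        push_cast; rw [hP] at h0; push_cast at h0; linarith
      exact_mod_cast this
    omega
  rw [← Finset.prod_filter_mul_prod_filter_not S (fun m : ℕ => m ≤ 4 * x)]
  have hpart1 : Real.exp (-(36 * δ * x)) ≤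
      ∏ m ∈ S.filter (fun m : ℕ => m ≤ 4 * x), |1 - (P / m) ^ 2| := by
    have hfac : ∀ m ∈ S.filter (fun m : ℕ => m ≤ 4 * x),
        Real.exp (-Real.log (4 * x / |(m : ℝ) - P|)) ≤ |1 - (P / m) ^ 2| := by
      intro m hm
      obtain ⟨hm1, hm2⟩ := Finset.mem_filter.1 hm
      have hm0 : (0 : ℝ) < m := by exact_mod_cast hD.1 m (hS m hm1)
      have hm4 : (m : ℝ) ≤ 4 * x := by exact_mod_cast hm2
      rw [← Real.log_inv, Real.exp_log (by have := hne m; positivity), inv_div]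
      have e1 : 1 - (P / m) ^ 2 = ((m : ℝ) - P) * (m + P) / m ^ 2 := by field_simp; ring
      rw [e1, abs_div, abs_mul, abs_of_pos (show 0 < (m : ℝ) + P by positivity),
        abs_of_pos (show (0 : ℝ) < m ^ 2 by positivity), div_le_div_iff₀ (by positivity) (by positivity)]
      have h2 := hne m
      have h3 : (m : ℝ) ^ 2 ≤ (m + P) * (4 * x) := by nlinarith
      nlinarith [mul_le_mul_of_nonneg_left h3 h2.le]
    refine le_trans ?_ (Finset.prod_le_prod (fun m _ => (Real.exp_pos _).le) hfac)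
    rw [← Real.exp_sum, Real.exp_le_exp, Finset.sum_neg_distrib, neg_le_neg_iff]
    refine le_trans ?_ hi2
    refine Finset.sum_le_sum_of_subset_of_nonneg ?_ ?_
    · intro m hm
      obtain ⟨hm1, hm2⟩ := Finset.mem_filter.1 hm
      exact Finset.mem_filter.2 ⟨Finset.mem_range.2 (by omega), hS m hm1⟩
    · intro m hm _
      refine Real.log_nonneg ?_
      rw [one_le_div (hne m)]
      have := hBx m hm
      rw [abs_le]
      constructor
      · have : (0 : ℝ) ≤ m := by positivity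
        linarith
      · linarith
  have hpart2 : Real.exp (-(24 * δ * x)) ≤
      ∏ m ∈ S.filter (fun m : ℕ => ¬ m ≤ 4 * x), |1 - (P / m) ^ 2| := by
    set T := S.filter (fun m : ℕ => ¬ m ≤ 4 * x) with hT
    have hTm : ∀ m ∈ T, (4 * x : ℝ) < m := fun m hm => by
      have : 4 * x < m := not_le.1 (Finset.mem_filter.1 hm).2
      exact_mod_cast this
    have hfac : ∀ m ∈ T, Real.exp (-(4 / 3 * (P ^ 2 * (1 / (m : ℝ) ^ 2)))) ≤ |1 - (P / m) ^ 2| := by
      intro m hm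
      have h1 := hTm m hm
      have hm0 : (0 : ℝ) < m := by linarith
      have e1 : P ^ 2 * (1 / (m : ℝ) ^ 2) = (P / m) ^ 2 := by rw [div_pow]; ring
      rw [e1]
      set t := (P / (m : ℝ)) ^ 2 with ht
      have ht0 : 0 ≤ t := sq_nonneg _
      have ht1 : t ≤ 1 / 4 := by
        have h2 : P / m ≤ 1 / 2 := by
          rw [div_le_iff₀ hm0]; linarith
        have h3 : 0 ≤ P / m := by positivity
        rw [ht]; nlinarith
      refine le_trans ?_ (le_abs_self _)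
      rw [Real.exp_neg, inv_le_comm₀ (Real.exp_pos _) (by linarith)]
      have h4 : (1 - t)⁻¹ ≤ 4 / 3 * t + 1 := by
        rw [inv_le_iff_one_le_mul₀ (by linarith)]
        nlinarith
      exact h4.trans (Real.add_one_le_exp _)
    refine le_trans ?_ (Finset.prod_le_prod (fun m _ => (Real.exp_pos _).le) hfac)
    rw [← Real.exp_sum, Real.exp_le_exp, Finset.sum_neg_distrib, neg_le_neg_iff, ← Finset.mul_sum,
      ← Finset.mul_sum]
    obtain ⟨N, hN⟩ : ∃ N : ℕ, ∀ m ∈ T, (m : ℝ) ≤ 2 ^ N * (4 * x) := by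
      refine ⟨T.sup id, fun m hm => ?_⟩
      have h1 : m ≤ T.sup id := Finset.le_sup (f := id) hm
      have h2 : (m : ℝ) ≤ 2 ^ (T.sup id) := by
        have : m < 2 ^ (T.sup id) := lt_of_le_of_lt h1 Nat.lt_two_pow_self
        exact_mod_cast this.le
      nlinarith [pow_pos (show (0 : ℝ) < 2 by norm_num) (T.sup id)]
    have hsum := tail_sq A δ ℓ hδ hℓ hD N (4 * x) (by linarith) T
      (fun m hm => hS m (Finset.mem_of_mem_filter m hm)) hTm hN
    have h9 : P ^ 2 ≤ 4 * (x : ℝ) ^ 2 := by nlinarith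
    calc 4 / 3 * (P ^ 2 * ∑ m ∈ T, 1 / (m : ℝ) ^ 2)
        ≤ 4 / 3 * (4 * (x : ℝ) ^ 2 * (8 * δ / (4 * x))) := by
          gcongr
      _ ≤ 24 * δ * x := by
          have : 4 / 3 * (4 * (x : ℝ) ^ 2 * (8 * δ / (4 * x))) = 32 / 3 * (δ * x) := by
            field_simp; ring
          rw [this]
          nlinarith [mul_pos hδ (show (0 : ℝ) < x by linarith)]
  calc Real.exp (-(60 * δ * x)) = Real.exp (-(36 * δ * x)) * Real.exp (-(24 * δ * x)) := by
        rw [← Real.exp_add]; congr 1; ring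
    _ ≤ _ := mul_le_mul hpart1 hpart2 (Real.exp_pos _).le
        (Finset.prod_nonneg fun m _ => abs_nonneg _)

end Pool.Agent.GapReg
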