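import Pool.Agent.GapReg.FsBasic
import Pool.Agent.GapReg.GoodCut
import Pool.Agent.GapReg.BlockBound

set_option autoImplicit false

namespace Pool.Agent.GapReg

open Finset Filter Topology
open Pool.Agent.MP_e061a3_an

namespace DCAux

theorem expSum_block (c : ℕ → ℂ) (T : Finset ℕ) (a b : ℝ) (hab : a ≤ b) (u : ℂ) :
    expSum c (T.filter (fun m : ℕ => (m : ℝ) < b)) u - expSum c (T.filter (fun m : ℕ => (m : ℝ) < a)) u
      = expSum c (T.filter (fun m : ℕ => a ≤ (m : ℝ) ∧ (m : ℝ) < b)) u := by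
  unfold expSum
  rw [sub_eq_iff_eq_add', ← Finset.sum_union]
  · congr 1
    ext m
    simp only [Finset.mem_union, Finset.mem_filter]
    constructor
    · rintro ⟨h1, h2⟩
      rcases lt_or_ge (m : ℝ) a with h | h
      · exact Or.inl ⟨h1, h⟩
      · exact Or.inr ⟨h1, h, h2⟩
    · rintro (⟨h1, h2⟩ | ⟨h1, _, h3⟩)
      · exact ⟨h1, h2.trans_le hab⟩
      · exact ⟨h1, h3⟩
  · rw [Finset.disjoint_left]
    intro m h1 h2
    exact absurd (Finset.mem_filter.1 h1).2 (not_lt.2 (Finset.mem_filter.1 h2).2.1)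

theorem exp_neg_ten : Real.exp (-10) ≤ 1 / 1000 := by
  have h1 : (2 : ℝ) ≤ Real.exp 1 := by
    have := Real.add_one_le_exp (1 : ℝ)
    linarith
  have h2 : (1000 : ℝ) ≤ Real.exp 10 := by
    have h3 : Real.exp 10 = Real.exp 1 ^ 10 := by
      rw [← Real.exp_nat_mul]; norm_num
    rw [h3]
    calc (1000 : ℝ) ≤ 2 ^ 10 := by norm_num
      _ ≤ Real.exp 1 ^ 10 := pow_le_pow_left₀ (by norm_num) h1 10
  rw [Real.exp_neg, inv_le_comm₀ (Real.exp_pos _) (by norm_num)]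
  simpa using h2

theorem sum_half (I : ℕ) : ∑ i ∈ range I, (1 / 2 : ℝ) ^ (i + 2) ≤ 1 / 2 := by
  have h : ∑ i ∈ range I, (1 / 2 : ℝ) ^ (i + 2) = 1 / 2 - (1 / 2) ^ (I + 1) := by
    induction I with
    | zero => norm_num
    | succ I ih => rw [Finset.sum_range_succ, ih]; ring
  rw [h]
  have : (0 : ℝ) < (1 / 2) ^ (I + 1) := by positivity
  linarith

end DCAux

open DCAux in
theorem decouple (c : ℕ → ℂ) (hc : Ent c) (δ ℓ ρ : ℝ) (hδ : 0 < δ) (hℓ : 1 ≤ ℓ)
    (hD : Dens {m | c m ≠ 0} δ ℓ) (hρ : 2000 * δ ≤ ρ) (hs : 2 ≤ ℓ * ρ) (w₀ : ℂ)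
    (hF : ∀ u : ℂ, ‖u - w₀‖ ≤ ρ → ‖Fs c u‖ ≤ Real.exp (ℓ * ρ)) :
    ∃ S : Finset ℕ, (∀ m ∈ S, c m ≠ 0 ∧ (m : ℝ) ≤ 4 * ℓ) ∧
      (∀ m : ℕ, c m ≠ 0 → (m : ℝ) < ℓ → m ∈ S) ∧ (S.card : ℝ) ≤ 8 * δ * ℓ ∧
      (∀ u : ℂ, ‖u - w₀‖ ≤ ρ / 2 → ‖expSum c S u‖ ≤ Real.exp (2 * (ℓ * ρ))) ∧
      ∀ w : ℂ, Horn w₀ ρ w → ‖Fs c w - expSum c S w‖ ≤ 1 := by
  have hρ0 : 0 < ρ := by linarith
  have hℓ0 : 0 < ℓ := by linarith
  set L : ℕ := ⌈ℓ⌉₊ with hL
  have hL1 : ℓ ≤ L := Nat.le_ceil ℓ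
  have hL2 : (L : ℝ) < ℓ + 1 := Nat.ceil_lt_add_one hℓ0.le
  have hLpos : (1 : ℝ) ≤ L := hℓ.trans hL1
  have hx : ∀ i : ℕ, ℓ * 4 ^ i ≤ ((4 ^ i * L : ℕ) : ℝ) := by
    intro i
    push_cast
    nlinarith [pow_pos (show (0 : ℝ) < 4 by norm_num) i]
  have hx' : ∀ i : ℕ, ℓ ≤ ((4 ^ i * L : ℕ) : ℝ) := by
    intro i
    refine le_trans ?_ (hx i)
    have : (1 : ℝ) ≤ 4 ^ i := one_le_pow₀ (by norm_num)
    nlinarith
  choose k hk1 hk2 hk3 using fun i : ℕ =>
    good_cut {m | c m ≠ 0} δ ℓ hδ hℓ hD (4 ^ i * L) (hx' i)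
  let P : ℕ → ℝ := fun i => (k i : ℝ) + 1 / 2
  have hPdef : ∀ i, P i = (k i : ℝ) + 1 / 2 := fun _ => rfl
  have hk1' : ∀ i, ((4 ^ i * L : ℕ) : ℝ) ≤ k i := fun i => by exact_mod_cast hk1 i
  have hk2' : ∀ i, (k i : ℝ) + 1 ≤ 2 * ((4 ^ i * L : ℕ) : ℝ) := fun i => by exact_mod_cast hk2 i
  have hPx : ∀ i, ℓ * 4 ^ i ≤ P i := fun i => by
    have h1 := hx i
    have h2 := hk1' i
    rw [hPdef]; linarith
  have hPℓ : ∀ i, ℓ ≤ P i := fun i => by
    have h1 := hx' i
    have h2 := hk1' i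
    rw [hPdef]; linarith
  have hxs : ∀ i, ((4 ^ (i + 1) * L : ℕ) : ℝ) = 4 * ((4 ^ i * L : ℕ) : ℝ) := fun i => by
    push_cast; ring
  have hPlt : ∀ i, P i ≤ P (i + 1) := fun i => by
    have h1 := hk2' i
    have h2 := hk1' (i + 1)
    rw [hxs] at h2
    have h3 := hx' i
    rw [hPdef, hPdef]; linarith
  have hP8 : ∀ i, P (i + 1) ≤ 8 * P i := fun i => by
    have h1 := hk2' (i + 1)
    have h2 := hk1' i
    rw [hxs] at h1
    rw [hPdef, hPdef]; linarith
  have hP0 : P 0 ≤ 4 * ℓ := by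
    have h1 := hk2' 0
    rw [pow_zero, one_mul] at h1
    rw [hPdef]; linarith
  -- the truncation
  obtain ⟨N₀, hN₀⟩ := unif_trunc c hc (w₀.re + ρ) (1 / 2) (by norm_num)
  set N : ℕ := max N₀ (k 0 + 1) with hN
  set T := suppN c N with hT
  have hTA : ∀ m ∈ T, m ∈ {m | c m ≠ 0} := fun m hm => ((mem_suppN c N m).1 hm).2
  set M : ℝ := Real.exp (ℓ * ρ) + 1 / 2 with hM
  have hM0 : 0 ≤ M := by have := Real.exp_pos (ℓ * ρ); linarith
  have hball : ∀ u : ℂ, ‖u - w₀‖ ≤ ρ → ‖expSum c T u‖ ≤ M := by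
    intro u hu
    have h1 : u.re ≤ w₀.re + ρ := by
      have h2 := (Complex.re_le_norm (u - w₀)).trans hu
      rw [Complex.sub_re] at h2
      linarith
    have h2 := hN₀ N (le_max_left _ _) u h1
    have h3 : ‖expSum c T u‖ ≤ ‖Fs c u‖ + ‖Fs c u - expSum c T u‖ := by
      have h4 : expSum c T u = Fs c u - (Fs c u - expSum c T u) := by ring
      calc ‖expSum c T u‖ = ‖Fs c u - (Fs c u - expSum c T u)‖ := by rw [← h4]
        _ ≤ _ := norm_sub_le _ _
    have h5 := hF u hu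
    linarith
  have hcut : ∀ i, ∀ u : ℂ, ‖u - w₀‖ ≤ ρ / 2 →
      ‖expSum c (T.filter (fun m : ℕ => (m : ℝ) < P i)) u‖ ≤ 3 * Real.exp (100 * δ * P i) * M :=
    fun i => cut_good {m | c m ≠ 0} δ ℓ ρ hδ hℓ hD hρ c T hTA w₀ M hball (4 ^ i * L) (k i) (hx' i)
      (hk1 i) (hk3 i)
  set S := suppN c (k 0 + 1) with hS
  have hST : S = T.filter (fun m : ℕ => (m : ℝ) < P 0) := by
    ext m
    rw [Finset.mem_filter, hS, hT, mem_suppN, mem_suppN]
    constructor
    · rintro ⟨h1, h2⟩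
      refine ⟨⟨h1.trans_le (le_max_right _ _), h2⟩, ?_⟩
      have : (m : ℝ) ≤ k 0 := by exact_mod_cast Nat.lt_succ_iff.1 h1
      rw [hPdef]; linarith
    · rintro ⟨⟨_, h2⟩, h3⟩
      refine ⟨?_, h2⟩
      rw [hPdef] at h3
      by_contra h4
      have h5 : ((k 0 + 1 : ℕ) : ℝ) ≤ m := by exact_mod_cast not_lt.1 h4
      push_cast at h5
      linarith
  have hexp7 : (7 : ℝ) ≤ Real.exp (ℓ * ρ) := by
    have h1 := Real.exp_one_gt_d9
    have h2 : Real.exp 2 = Real.exp 1 ^ 2 := by rw [← Real.exp_nat_mul]; norm_num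
    have h3 : Real.exp 2 ≤ Real.exp (ℓ * ρ) := Real.exp_le_exp.2 hs
    nlinarith
  have hMle : M ≤ 8 / 7 * Real.exp (ℓ * ρ) := by rw [hM]; linarith
  refine ⟨S, ?_, ?_, ?_, ?_, ?_⟩
  · intro m hm
    rw [hST, Finset.mem_filter] at hm
    exact ⟨hTA m hm.1, (hm.2.le).trans hP0⟩
  · intro m h1 h2
    rw [hS, mem_suppN]
    refine ⟨?_, h1⟩
    have h3 := hk1' 0
    rw [pow_zero, one_mul] at h3
    have : (m : ℝ) < (k 0 + 1 : ℕ) := by push_cast; linarith
    exact_mod_cast this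
  · have h1 := hD.2 S (fun m hm => by
      rw [hST, Finset.mem_filter] at hm; exact hTA m hm.1) (4 * ℓ) (by positivity) (fun m hm => by
      rw [hST, Finset.mem_filter] at hm; exact (hm.2.le).trans hP0)
    have h2 : √(ℓ * (4 * ℓ)) = 2 * ℓ := by
      rw [show ℓ * (4 * ℓ) = (2 * ℓ) ^ 2 by ring, Real.sqrt_sq (by positivity)]
    rw [h2] at h1
    nlinarith [mul_pos hδ hℓ0]
  · intro u hu
    have h1 := hcut 0 u hu
    rw [← hST] at h1
    refine h1.trans ?_
    have h2 : 100 * δ * P 0 ≤ 1 / 5 * (ℓ * ρ) := by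
      have : 100 * δ * P 0 ≤ 100 * δ * (4 * ℓ) := by gcongr
      nlinarith
    have h3 : Real.exp (100 * δ * P 0) ≤ Real.exp (1 / 5 * (ℓ * ρ)) := Real.exp_le_exp.2 h2
    have h4 : (4 : ℝ) ≤ Real.exp (4 / 5 * (ℓ * ρ)) := by
      have h5 : Real.exp (8 / 5) ≤ Real.exp (4 / 5 * (ℓ * ρ)) := Real.exp_le_exp.2 (by linarith)
      have h6 : (4 : ℝ) ≤ Real.exp (8 / 5) := by
        have h7 : Real.exp (8 / 5) = Real.exp (4 / 5) ^ 2 := by rw [← Real.exp_nat_mul]; norm_num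
        have h8 : 1 + 4 / 5 + (4 / 5 : ℝ) ^ 2 / 2 ≤ Real.exp (4 / 5) :=
          Real.quadratic_le_exp_of_nonneg (by norm_num)
        rw [h7]; nlinarith
      exact h6.trans h5
    calc 3 * Real.exp (100 * δ * P 0) * M
        ≤ 3 * Real.exp (1 / 5 * (ℓ * ρ)) * (8 / 7 * Real.exp (ℓ * ρ)) := by gcongr
      _ ≤ Real.exp (4 / 5 * (ℓ * ρ)) * Real.exp (1 / 5 * (ℓ * ρ)) * Real.exp (ℓ * ρ) := by
          have h9 : 0 < Real.exp (1 / 5 * (ℓ * ρ)) * Real.exp (ℓ * ρ) := by positivity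
          nlinarith
      _ = Real.exp (2 * (ℓ * ρ)) := by
          rw [← Real.exp_add, ← Real.exp_add]; congr 1; ring
  · intro w hw
    set D := w₀.re - w.re with hDdef
    have hD24 : 24 * ρ ≤ D := by
      have h1 : 8 * ρ * (1 + Real.log (1 + ‖w - w₀‖ / ρ)) ≤ D := hw
      have h2 : 0 ≤ Real.log (1 + ‖w - w₀‖ / ρ) := Real.log_nonneg (by
        have : 0 ≤ ‖w - w₀‖ / ρ := by positivity
        linarith)
      have h3 : 8 * ρ ≤ D := by nlinarith
      have h4 : D ≤ ‖w - w₀‖ := by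
        have := Complex.abs_re_le_norm (w - w₀)
        rw [Complex.sub_re, abs_sub_comm] at this
        exact (le_abs_self _).trans this
      have h5 : 8 ≤ ‖w - w₀‖ / ρ := by
        rw [le_div_iff₀ hρ0]; linarith
      have h6 : 2 ≤ Real.log (1 + ‖w - w₀‖ / ρ) := by
        rw [Real.le_log_iff_exp_le (by linarith)]
        have h7 : Real.exp 2 = Real.exp 1 ^ 2 := by rw [← Real.exp_nat_mul]; norm_num
        have h8 := Real.exp_one_lt_d9
        have h9 := Real.exp_pos 1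
        nlinarith
      nlinarith
    have hwre : w.re ≤ w₀.re + ρ := by
      have : 0 < ρ := hρ0
      linarith
    have h1 := hN₀ N (le_max_left _ _) w hwre
    have hblock : ∀ i, ‖expSum c (T.filter (fun m : ℕ => P i ≤ (m : ℝ) ∧ (m : ℝ) < P (i + 1))) w‖ ≤
        (1 / 2) ^ (i + 2) := by
      intro i
      have h2 := block_left {m | c m ≠ 0} δ ℓ ρ hδ hℓ hD hρ c
        (T.filter (fun m : ℕ => P i ≤ (m : ℝ) ∧ (m : ℝ) < P (i + 1)))
        (fun m hm => hTA m (Finset.mem_of_mem_filter m hm)) (P i) (P (i + 1)) (hPℓ i) (hP8 i)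
        (fun m hm => ⟨(Finset.mem_filter.1 hm).2.1, (Finset.mem_filter.1 hm).2.2.le⟩) w₀ M hM0
        (by
          intro u hu
          rw [← expSum_block c T _ _ (hPlt i) u]
          have h3 := hcut i u hu
          have h4 := hcut (i + 1) u hu
          have h5 : Real.exp (100 * δ * P i) ≤ Real.exp (100 * δ * P (i + 1)) :=
            Real.exp_le_exp.2 (by have := hPlt i; gcongr)
          refine (norm_sub_le _ _).trans ?_
          nlinarith [mul_le_mul_of_nonneg_right h5 hM0])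
        w hw
      refine h2.trans ?_
      have h6 : ℓ * ρ + 5 * (4 ^ i * (ℓ * ρ)) ≤ P i * D / 4 := by
        have h7 : ℓ * 4 ^ i * (24 * ρ) ≤ P i * D :=
          mul_le_mul (hPx i) hD24 (by positivity) (by linarith [hPℓ i])
        have h8 : (1 : ℝ) ≤ 4 ^ i := one_le_pow₀ (by norm_num)
        have h9 : 0 < ℓ * ρ := by positivity
        nlinarith
      have h10 : (i : ℝ) + 1 ≤ 4 ^ i := by
        have : i + 1 ≤ 4 ^ i := by
          have h11 : i < 2 ^ i := Nat.lt_two_pow_self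
          have h12 : 2 ^ i ≤ 4 ^ i := Nat.pow_le_pow_left (by norm_num) i
          omega
        exact_mod_cast this
      have h13 : ℓ * ρ + 10 * ((i : ℝ) + 1) ≤ P i * D / 4 := by
        refine le_trans ?_ h6
        have h14 : ((i : ℝ) + 1) * 2 ≤ 4 ^ i * (ℓ * ρ) :=
          mul_le_mul h10 hs (by norm_num) (by positivity)
        linarith
      have h15 : Real.exp (-(P i * (w₀.re - w.re) / 4)) ≤
          Real.exp (-(ℓ * ρ)) * (1 / 1000) ^ (i + 1) := by
        calc Real.exp (-(P i * (w₀.re - w.re) / 4))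
            ≤ Real.exp (-(ℓ * ρ) + ((i + 1 : ℕ) : ℝ) * (-10)) := by
              rw [Real.exp_le_exp]; push_cast; linarith
          _ = Real.exp (-(ℓ * ρ)) * Real.exp (-10) ^ (i + 1) := by
              rw [Real.exp_add, Real.exp_nat_mul]
          _ ≤ _ := by
              gcongr
              exact exp_neg_ten
      calc 6 * Real.exp (-(P i * (w₀.re - w.re) / 4)) * M
          ≤ 6 * (Real.exp (-(ℓ * ρ)) * (1 / 1000) ^ (i + 1)) * (8 / 7 * Real.exp (ℓ * ρ)) := by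
            gcongr
        _ = 48 / 7 * (1 / 1000) ^ (i + 1) := by
            have : Real.exp (-(ℓ * ρ)) * Real.exp (ℓ * ρ) = 1 := by
              rw [← Real.exp_add]; simp
            linear_combination 48 / 7 * (1 / 1000 : ℝ) ^ (i + 1) * this
        _ ≤ (1 / 2) ^ (i + 2) := by
            have h16 : (1 / 1000 : ℝ) ^ (i + 1) ≤ (1 / 100 * (1 / 2)) ^ (i + 1) :=
              pow_le_pow_left₀ (by norm_num) (by norm_num) _
            rw [mul_pow] at h16
            have h17 : (1 / 100 : ℝ) ^ (i + 1) ≤ 1 / 100 := by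
              calc (1 / 100 : ℝ) ^ (i + 1) ≤ (1 / 100 : ℝ) ^ 1 :=
                    pow_le_pow_of_le_one (by norm_num) (by norm_num) (by omega)
                _ = 1 / 100 := by norm_num
            have h18 : (0 : ℝ) < (1 / 2) ^ (i + 1) := by positivity
            have h19 : (1 / 2 : ℝ) ^ (i + 2) = (1 / 2) ^ (i + 1) * (1 / 2) := by ring
            rw [h19]
            nlinarith
    -- telescoping
    have htel : expSum c T w - expSum c S w = ∑ i ∈ range N,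
        expSum c (T.filter (fun m : ℕ => P i ≤ (m : ℝ) ∧ (m : ℝ) < P (i + 1))) w := by
      have h2 : T = T.filter (fun m : ℕ => (m : ℝ) < P N) := by
        rw [Finset.filter_eq_self.2]
        intro m hm
        have h3 : m < N := ((mem_suppN c N m).1 hm).1
        have h4 : (m : ℝ) < N := by exact_mod_cast h3
        have h5 : (N : ℝ) < 4 ^ N := by
          have h11 : N < 2 ^ N := Nat.lt_two_pow_self
          have h12 : 2 ^ N ≤ 4 ^ N := Nat.pow_le_pow_left (by norm_num) N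
          exact_mod_cast h11.trans_le h12
        have h6 := hPx N
        nlinarith
      calc expSum c T w - expSum c S w
          = expSum c (T.filter (fun m : ℕ => (m : ℝ) < P N)) w -
            expSum c (T.filter (fun m : ℕ => (m : ℝ) < P 0)) w := by rw [← h2, hST]
        _ = ∑ i ∈ range N, (expSum c (T.filter (fun m : ℕ => (m : ℝ) < P (i + 1))) w -
            expSum c (T.filter (fun m : ℕ => (m : ℝ) < P i)) w) :=
            (Finset.sum_range_sub
              (fun i => expSum c (T.filter (fun m : ℕ => (m : ℝ) < P i)) w) N).symm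
        _ = _ := Finset.sum_congr rfl fun i _ => expSum_block c T _ _ (hPlt i) w
    have h2 : ‖expSum c T w - expSum c S w‖ ≤ 1 / 2 := by
      rw [htel]
      exact (norm_sum_le _ _).trans ((Finset.sum_le_sum fun i _ => hblock i).trans (sum_half N))
    have h3 : Fs c w - expSum c S w = (Fs c w - expSum c T w) + (expSum c T w - expSum c S w) := by
      ring
    rw [h3]
    refine (norm_add_le _ _).trans ?_
    linarith

end Pool.Agent.GapReg
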