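import Pool.Agent.MP_e061a3_an.Main

set_option autoImplicit false

/-!
# Gap series with regular Fejer gaps: definitions
-/

namespace Pool.Agent.GapReg

open Finset Filter Topology
open Pool.Agent.MP_e061a3_an

/-- The entire function `w ↦ ∑ c_m e^{m w}`. -/
noncomputable def Fs (c : ℕ → ℂ) (w : ℂ) : ℂ := ∑' m : ℕ, c m * Complex.exp w ^ m

/-- The power series with coefficients `c` converges everywhere. -/
def Ent (c : ℕ → ℂ) : Prop := ∀ z : ℂ, Summable (fun m : ℕ => c m * z ^ m)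

/-- Indices below `N` with nonzero coefficient. -/
noncomputable def suppN (c : ℕ → ℂ) (N : ℕ) : Finset ℕ := by
  classical
  exact (range N).filter (fun m => c m ≠ 0)

/-- Density condition with constant `δ` at frequency level `ℓ`: every finite subset of `A` bounded
by `x` has at most `δ (x + √(ℓ x))` elements. -/
def Dens (A : Set ℕ) (δ ℓ : ℝ) : Prop :=
  (∀ m ∈ A, 0 < m) ∧ ∀ T : Finset ℕ, (∀ m ∈ T, m ∈ A) → ∀ x : ℝ, 0 ≤ x →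
    (∀ m ∈ T, (m : ℝ) ≤ x) → (T.card : ℝ) ≤ δ * (x + √(ℓ * x))

/-- `|F| ≤ e^s` on the left cone with apex `p` and radius `ρ`. -/
def Low (F : ℂ → ℂ) (p : ℂ) (ρ s : ℝ) : Prop :=
  ∀ w : ℂ, ‖w - p‖ ≤ ρ → w.re + |w.im - p.im| ≤ p.re → ‖F w‖ ≤ Real.exp s

/-- The horn to the left of the ball `B(w₀, ρ)`. -/
def Horn (w₀ : ℂ) (ρ : ℝ) (w : ℂ) : Prop :=
  8 * ρ * (1 + Real.log (1 + ‖w - w₀‖ / ρ)) ≤ w₀.re - w.re

/-- There are points with `|F| ≤ 1` at every distance from `p`. -/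
def Reach (F : ℂ → ℂ) (p : ℂ) : Prop := ∀ ρ : ℝ, 0 ≤ ρ → ∃ ζ : ℂ, ‖ζ - p‖ = ρ ∧ ‖F ζ‖ ≤ 1

/-- Union of the sides of the polygonal line `v 0, …, v n`. -/
def Poly (v : ℕ → ℂ) (n : ℕ) : Set ℂ := {z | ∃ k < n, z ∈ segment ℝ (v k) (v (k + 1))}

/-- `2 π i` times the winding number of the closed polygon `v 0, …, v n = v 0`. -/
noncomputable def wind (v : ℕ → ℂ) (n : ℕ) (w : ℂ) : ℂ :=
  ∑ k ∈ range n, Complex.log ((v (k + 1) - w) / (v k - w))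

/-- Points off the polygon with nonzero winding number. -/
def Encl (v : ℕ → ℂ) (n : ℕ) : Set ℂ := {w | w ∉ Poly v n ∧ wind v n w ≠ 0}

/-- The data of one step: two consecutive levels and a piece of the curve. -/
structure StepData (c : ℕ → ℂ) (δ δ' ℓ ℓ' r r' : ℝ) (Γ : ℝ → ℂ) (t₀ t₁ : ℝ) : Prop where
  ent : Ent c
  δ_pos : 0 < δ
  δ_le : δ ≤ δ'
  δ'_le : δ' ≤ 2 * δ
  one_le : 1 ≤ ℓ'
  level : ℓ = 4 * ℓ'
  r_eq : r = 100000 * δ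
  r'_eq : r' = 100000 * δ'
  big : 200 ≤ ℓ' * r'
  dens : Dens {m | c m ≠ 0} δ ℓ
  dens' : Dens {m | c m ≠ 0} δ' ℓ'
  time : t₀ ≤ t₁
  cont : ContinuousOn Γ (Set.Icc t₀ t₁)
  one : ∀ t ∈ Set.Icc t₀ t₁, ‖Fs c (Γ t)‖ ≤ 1
  reach : ∀ t ∈ Set.Icc t₀ t₁, Reach (Fs c) (Γ t)
  notlow : ∀ t ∈ Set.Icc t₀ t₁, ¬ Low (Fs c) (Γ t) (64 * r') (ℓ' * r' / 2)
  low₀ : Low (Fs c) (Γ t₀) (64 * r') (ℓ' * r')
  low₁ : Low (Fs c) (Γ t₁) (64 * r) (ℓ * r)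

end Pool.Agent.GapReg
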