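import Pool.Agent.GapReg.Defs

set_option autoImplicit false

namespace Pool.Agent.GapReg

open Finset Filter Topology
open Pool.Agent.MP_e061a3_an

namespace DEAux

variable {p : ℕ → ℕ} {L : ℕ → ℝ}

/-- The basic counting estimate. -/
lemma card_mul_le (hp : StrictMono p) (hpL : ∀ n : ℕ, ((n : ℝ) + 1) * L n ≤ p n)
    (T : Finset ℕ) (hT : ∀ m ∈ T, m ∈ Set.range p) (x : ℝ) (hx : ∀ m ∈ T, (m : ℝ) ≤ x)
    (N : ℕ) (hN : T.card = N + 1) : ((N : ℝ) + 1) * L N ≤ x := by
  classical
  set T' : Finset ℕ := T.preimage p hp.injective.injOn with hT'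
  have hsub : T ⊆ T'.image p := by
    intro m hm
    obtain ⟨n, rfl⟩ := hT m hm
    exact Finset.mem_image.2 ⟨n, by simpa [hT'] using hm, rfl⟩
  have hcard : N + 1 ≤ T'.card := by
    rw [← hN]
    exact (Finset.card_le_card hsub).trans Finset.card_image_le
  obtain ⟨n, hn, hNn⟩ : ∃ n ∈ T', N ≤ n := by
    by_contra hcon
    push Not at hcon
    have h1 : T' ⊆ Finset.range N := fun n hn => Finset.mem_range.2 (hcon n hn)
    have h2 := Finset.card_le_card h1
    rw [Finset.card_range] at h2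
    omega
  have hpn : p n ∈ T := by simpa [hT'] using hn
  calc ((N : ℝ) + 1) * L N ≤ p N := hpL N
    _ ≤ p n := by exact_mod_cast hp.monotone hNn
    _ ≤ x := hx _ hpn

/-- The level constants. -/
noncomputable def eps (L : ℕ → ℝ) (j : ℕ) : ℝ := 1 / L (2 ^ j - 1) + (1 / 2) ^ j

lemma eps_pos (hL0 : ∀ n, 0 < L n) (j : ℕ) : 0 < eps L j := by
  unfold eps
  have := hL0 (2 ^ j - 1)
  positivity

lemma eps_anti (hL : Monotone L) (hL0 : ∀ n, 0 < L n) (j : ℕ) : eps L (j + 1) ≤ eps L j := by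
  unfold eps
  have h1 : L (2 ^ j - 1) ≤ L (2 ^ (j + 1) - 1) := by
    apply hL
    have : 2 ^ j ≤ 2 ^ (j + 1) := Nat.pow_le_pow_right (by norm_num) (by omega)
    omega
  have h2 : 1 / L (2 ^ (j + 1) - 1) ≤ 1 / L (2 ^ j - 1) :=
    one_div_le_one_div_of_le (hL0 _) h1
  have h3 : ((1 : ℝ) / 2) ^ (j + 1) ≤ (1 / 2) ^ j :=
    pow_le_pow_of_le_one (by norm_num) (by norm_num) (by omega)
  linarith

lemma summable_eps (hL : Monotone L) (hL0 : ∀ n, 0 < L n)
    (hsum : Summable (fun n : ℕ => 1 / (((n : ℝ) + 1) * L n))) : Summable (eps L) := by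
  set f : ℕ → ℝ := fun n => 1 / ((n : ℝ) * L (n - 1)) with hf
  have hf0 : ∀ n, 0 ≤ f n := fun n => by
    have := (hL0 (n - 1)).le
    simp only [hf]; positivity
  have hfs : Summable f := by
    rw [← summable_nat_add_iff 1]
    refine hsum.congr fun n => ?_
    simp only [hf, Nat.add_sub_cancel]
    push_cast
    rfl
  have hmono : ∀ ⦃m n : ℕ⦄, 0 < m → m ≤ n → f n ≤ f m := by
    intro m n hm hmn
    simp only [hf]
    have hm' : (0 : ℝ) < m := by exact_mod_cast hm
    apply one_div_le_one_div_of_le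
    · have := hL0 (m - 1)
      positivity
    · apply mul_le_mul
      · exact_mod_cast hmn
      · exact hL (by omega)
      · exact (hL0 _).le
      · positivity
  have h1 := (summable_condensed_iff_of_nonneg hf0 hmono).2 hfs
  have h2 : Summable fun j : ℕ => 1 / L (2 ^ j - 1) := by
    refine h1.congr fun j => ?_
    simp only [hf]
    push_cast
    have := (hL0 (2 ^ j - 1)).ne'
    field_simp
  exact h2.add (summable_geometric_of_lt_one (by norm_num) (by norm_num))

/-- The counting bound at large `x`. -/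
lemma card_le_eps (hp : StrictMono p) (hL : Monotone L) (hL0 : ∀ n, 0 < L n)
    (hpL : ∀ n : ℕ, ((n : ℝ) + 1) * L n ≤ p n)
    (T : Finset ℕ) (hT : ∀ m ∈ T, m ∈ Set.range p) (x : ℝ) (hx : ∀ m ∈ T, (m : ℝ) ≤ x)
    (j : ℕ) (hj : (4 : ℝ) ^ j ≤ x) : (T.card : ℝ) ≤ eps L j * x := by
  have hx0 : 0 < x := lt_of_lt_of_le (by positivity) hj
  have hL1 := hL0 (2 ^ j - 1)
  have e1 : eps L j * x = x / L (2 ^ j - 1) + (1 / 2) ^ j * x := by
    unfold eps; ring
  have hA : 0 ≤ x / L (2 ^ j - 1) := by positivity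
  have hB : 0 ≤ (1 / 2 : ℝ) ^ j * x := by positivity
  rw [e1]
  by_cases hbig : 2 ^ j ≤ T.card
  · obtain ⟨N, hN⟩ : ∃ N, T.card = N + 1 := by
      have : 0 < T.card := lt_of_lt_of_le (by positivity) hbig
      exact ⟨T.card - 1, by omega⟩
    have h1 := card_mul_le hp hpL T hT x hx N hN
    have h2 : L (2 ^ j - 1) ≤ L N := hL (by omega)
    have h3 : ((T.card : ℕ) : ℝ) ≤ x / L (2 ^ j - 1) := by
      rw [le_div_iff₀ hL1, hN]
      push_cast
      have : (0 : ℝ) ≤ (N : ℝ) + 1 := by positivity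
      nlinarith
    linarith
  · push Not at hbig
    have h1 : (T.card : ℝ) ≤ 2 ^ j := by exact_mod_cast hbig.le
    have h2 : (2 : ℝ) ^ j ≤ (1 / 2) ^ j * x := by
      calc (2 : ℝ) ^ j = (1 / 2) ^ j * 4 ^ j := by
            rw [← mul_pow]; norm_num
        _ ≤ _ := by gcongr
    linarith

/-- The density constants. -/
noncomputable def del (L : ℕ → ℝ) : ℕ → ℝ
  | 0 => 2 * eps L 0
  | j + 1 => eps L (j + 1) + del L j / 2

lemma two_eps_le (hL : Monotone L) (hL0 : ∀ n, 0 < L n) (j : ℕ) : 2 * eps L j ≤ del L j := by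
  induction j with
  | zero => simp [del]
  | succ j ih =>
    have := eps_anti hL hL0 j
    rw [del]
    linarith

lemma del_anti (hL : Monotone L) (hL0 : ∀ n, 0 < L n) (j : ℕ) : del L (j + 1) ≤ del L j := by
  have h1 := eps_anti hL hL0 j
  have h2 := two_eps_le hL hL0 j
  rw [del]
  linarith

lemma del_le_two (hL0 : ∀ n, 0 < L n) (j : ℕ) : del L j ≤ 2 * del L (j + 1) := by
  have h1 := eps_pos hL0 (j + 1)
  rw [del]
  linarith

lemma del_pos (hL : Monotone L) (hL0 : ∀ n, 0 < L n) (j : ℕ) : 0 < del L j := by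
  have h1 := eps_pos hL0 j
  have h2 := two_eps_le hL hL0 j
  linarith

lemma summable_del (hL : Monotone L) (hL0 : ∀ n, 0 < L n)
    (hsum : Summable (fun n : ℕ => 1 / (((n : ℝ) + 1) * L n))) : Summable (del L) := by
  have he := summable_eps hL hL0 hsum
  have he0 : ∀ j, 0 ≤ eps L j := fun j => (eps_pos hL0 j).le
  have key : ∀ n, ∑ j ∈ range n, del L j ≤ 2 * (2 * eps L 0 + ∑' j, eps L j) := by
    intro n
    have h0 : ∀ n, ∑ j ∈ range (n + 1), del L j ≤
        2 * eps L 0 + ∑ j ∈ range n, eps L (j + 1) + (∑ j ∈ range n, del L j) / 2 := by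
      intro n
      rw [Finset.sum_range_succ']
      have : ∑ k ∈ range n, del L (k + 1) =
          ∑ k ∈ range n, eps L (k + 1) + (∑ k ∈ range n, del L k) / 2 := by
        rw [Finset.sum_div, ← Finset.sum_add_distrib]
        exact Finset.sum_congr rfl fun k _ => by rw [del]
      rw [this, show del L 0 = 2 * eps L 0 from rfl]
      linarith
    have h1 : ∑ j ∈ range n, eps L (j + 1) ≤ ∑' j, eps L j := by
      have h2 : ∑ j ∈ range (n + 1), eps L j ≤ ∑' j, eps L j :=
        he.sum_le_tsum _ (fun j _ => he0 j)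
      rw [Finset.sum_range_succ'] at h2
      have := he0 0
      linarith
    have h3 := h0 n
    have h4 : ∑ j ∈ range n, del L j ≤ ∑ j ∈ range (n + 1), del L j := by
      rw [Finset.sum_range_succ]
      have := (del_pos hL hL0 n).le
      linarith
    linarith
  exact summable_of_sum_range_le (fun j => (del_pos hL hL0 j).le) key

lemma del_le_pow (hL0 : ∀ n, 0 < L n) (i k : ℕ) : del L i ≤ 2 ^ k * del L (i + k) := by
  induction k with
  | zero => simp
  | succ k ih =>
    have h1 := del_le_two hL0 (i + k)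
    have h2 : (0 : ℝ) ≤ 2 ^ k := by positivity
    calc del L i ≤ 2 ^ k * del L (i + k) := ih
      _ ≤ 2 ^ k * (2 * del L (i + k + 1)) := by gcongr
      _ = 2 ^ (k + 1) * del L (i + (k + 1)) := by rw [pow_succ, ← add_assoc]; ring

end DEAux

open DEAux in
theorem exists_density (p : ℕ → ℕ) (hp : StrictMono p) (hpos : ∀ n, 0 < p n) (L : ℕ → ℝ)
    (hL : Monotone L) (hL0 : ∀ n, 0 < L n)
    (hsum : Summable (fun n : ℕ => 1 / (((n : ℝ) + 1) * L n)))
    (hpL : ∀ n : ℕ, ((n : ℝ) + 1) * L n ≤ p n) :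
    ∃ δ : ℕ → ℝ, (∀ j, 0 < δ j) ∧ (∀ j, δ (j + 1) ≤ δ j) ∧ (∀ j, δ j ≤ 2 * δ (j + 1)) ∧
      Summable δ ∧ ∀ j : ℕ, Dens (Set.range p) (δ j) (4 ^ j) := by
  refine ⟨del L, del_pos hL hL0, del_anti hL hL0, del_le_two hL0, summable_del hL hL0 hsum,
    fun j => ⟨?_, ?_⟩⟩
  · rintro m ⟨n, rfl⟩
    exact hpos n
  · intro T hT x hx0 hx
    have hδ := del_pos hL hL0 j
    have hs0 : 0 ≤ √((4 : ℝ) ^ j * x) := Real.sqrt_nonneg _
    rcases lt_or_ge x 1 with hx1 | hx1
    · -- the set is empty
      have hemp : T = ∅ := by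
        rw [Finset.eq_empty_iff_forall_notMem]
        intro m hm
        obtain ⟨n, rfl⟩ := hT m hm
        have h1 : (1 : ℝ) ≤ (p n : ℝ) := by exact_mod_cast hpos n
        have h2 := hx _ hm
        linarith
      rw [hemp, Finset.card_empty]
      push_cast
      positivity
    rcases le_or_gt ((4 : ℝ) ^ j) x with hxj | hxj
    · have h1 := card_le_eps hp hL hL0 hpL T hT x hx j hxj
      have h2 := two_eps_le hL hL0 j
      have h3 := eps_pos hL0 j
      have h4 : eps L j * x ≤ del L j * x := by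
        apply mul_le_mul_of_nonneg_right _ hx0
        linarith
      nlinarith
    · -- the dyadic level of `x`
      have hex : ∃ i : ℕ, x < (4 : ℝ) ^ i := ⟨j, hxj⟩
      classical
      set i := Nat.find hex with hi
      have hi1 : x < (4 : ℝ) ^ i := Nat.find_spec hex
      have hij : i ≤ j := Nat.find_min' hex hxj
      obtain ⟨l, hl⟩ : ∃ l, i = l + 1 := by
        refine ⟨i - 1, ?_⟩
        have : i ≠ 0 := by
          intro h0
          rw [h0] at hi1
          simp at hi1
          linarith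
        omega
      have hl1 : (4 : ℝ) ^ l ≤ x := by
        have := Nat.find_min hex (m := l) (by omega)
        exact not_lt.1 this
      have h1 := card_le_eps hp hL hL0 hpL T hT ((4 : ℝ) ^ i) (fun m hm => (hx m hm).trans hi1.le)
        i le_rfl
      have h2 := two_eps_le hL hL0 i
      obtain ⟨k, hk⟩ : ∃ k, j = i + k := ⟨j - i, by omega⟩
      have h3 := del_le_pow hL0 i k
      rw [← hk] at h3
      have h4 : √((4 : ℝ) ^ j * x) ≥ 2 ^ (j + l) := by
        have : (2 : ℝ) ^ (j + l) = √((4 : ℝ) ^ j * 4 ^ l) := by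
          rw [← pow_add, show (4 : ℝ) = 2 ^ 2 by norm_num, ← pow_mul, mul_comm 2, pow_mul,
            Real.sqrt_sq (by positivity)]
        rw [this]
        apply Real.sqrt_le_sqrt
        gcongr
      have h5 : (T.card : ℝ) ≤ del L j * 2 ^ (j + l) := by
        calc (T.card : ℝ) ≤ eps L i * 4 ^ i := h1
          _ ≤ (2 ^ k * del L j / 2) * 4 ^ i := by
              apply mul_le_mul_of_nonneg_right _ (by positivity)
              linarith
          _ = del L j * 2 ^ (j + l) := by
              have e1 : (4 : ℝ) ^ i = 2 ^ i * 2 ^ i := by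
                rw [← mul_pow]; norm_num
              rw [e1, hk, hl]
              ring
      have h6 : 0 ≤ del L j * x := by positivity
      nlinarith

end Pool.Agent.GapReg
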