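import Pool.Agent.GapReg.Index

set_option autoImplicit false

/-!
# The region enclosed by the curve, two rays and a vertical side (module EN)
-/

namespace Pool.Agent.GapReg

open Finset Filter Topology
open Pool.Agent.MP_e061a3_an

namespace ENAux

/-- The polygon: far left point at the starting height, the curve points, far left point at the
final height, and back. -/
noncomputable def pv (G : ℝ → ℂ) (t₀ t₁ XL : ℝ) (N : ℕ) (k : ℕ) : ℂ :=
  if k = 0 then ⟨XL, (G t₀).im⟩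
  else if k ≤ N + 1 then G (t₀ + ((k - 1 : ℕ) : ℝ) * ((t₁ - t₀) / N))
  else if k = N + 2 then ⟨XL, (G t₁).im⟩
  else ⟨XL, (G t₀).im⟩

theorem seg_dist {a b z : ℂ} (hz : z ∈ segment ℝ a b) : ‖z - a‖ ≤ ‖b - a‖ := by
  obtain ⟨s, t, hs, ht, hst, rfl⟩ := hz
  have e : (s • a + t • b : ℂ) - a = (t : ℂ) * (b - a) := by
    simp only [Complex.real_smul]
    have : (s : ℂ) + t = 1 := by exact_mod_cast hst
    linear_combination a * this
  rw [e, norm_mul, Complex.norm_real, Real.norm_of_nonneg ht]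
  have : t ≤ 1 := by linarith
  have h0 := norm_nonneg (b - a)
  nlinarith

theorem seg_horiz {x₀ x₁ y : ℝ} {z : ℂ} (h : x₀ ≤ x₁)
    (hz : z ∈ segment ℝ (⟨x₀, y⟩ : ℂ) ⟨x₁, y⟩) : ∃ x : ℝ, x₀ ≤ x ∧ x ≤ x₁ ∧ z = ⟨x, y⟩ := by
  obtain ⟨s, t, hs, ht, hst, rfl⟩ := hz
  refine ⟨s * x₀ + t * x₁, ?_, ?_, ?_⟩
  · have : s = 1 - t := by linarith
    subst this; nlinarith
  · have : s = 1 - t := by linarith
    subst this; nlinarith
  · apply Complex.ext
    · simp
    · simp only [Complex.add_im, Complex.real_smul, Complex.mul_im, Complex.ofReal_re,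
        Complex.ofReal_im]
      have : s = 1 - t := by linarith
      subst this; ring

theorem seg_vert {x y₀ y₁ : ℝ} {z : ℂ} (h : y₀ ≤ y₁)
    (hz : z ∈ segment ℝ (⟨x, y₀⟩ : ℂ) ⟨x, y₁⟩) : ∃ y : ℝ, y₀ ≤ y ∧ y ≤ y₁ ∧ z = ⟨x, y⟩ := by
  obtain ⟨s, t, hs, ht, hst, rfl⟩ := hz
  refine ⟨s * y₀ + t * y₁, ?_, ?_, ?_⟩
  · have : s = 1 - t := by linarith
    subst this; nlinarith
  · have : s = 1 - t := by linarith
    subst this; nlinarith
  · apply Complex.ext
    · simp only [Complex.add_re, Complex.real_smul, Complex.mul_re, Complex.ofReal_re,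
        Complex.ofReal_im]
      have : s = 1 - t := by linarith
      subst this; ring
    · simp

theorem enclosure_up (F : ℂ → ℂ) (hF : Differentiable ℂ F) (G : ℝ → ℂ) (t₀ t₁ : ℝ) (ht : t₀ ≤ t₁)
    (hG : ContinuousOn G (Set.Icc t₀ t₁)) (hone : ∀ t ∈ Set.Icc t₀ t₁, ‖F (G t)‖ ≤ 1)
    (XL B : ℝ) (hB : 2 ≤ B) (him : (G t₀).im < (G t₁).im) (hXL0 : XL < (G t₀).re)
    (hXL1 : XL < (G t₁).re)
    (hray0 : ∀ x : ℝ, XL ≤ x → x ≤ (G t₀).re → ‖F ⟨x, (G t₀).im⟩‖ ≤ B)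
    (hray1 : ∀ x : ℝ, XL ≤ x → x ≤ (G t₁).re → ‖F ⟨x, (G t₁).im⟩‖ ≤ B)
    (hvert : ∀ y : ℝ, (G t₀).im ≤ y → y ≤ (G t₁).im → ‖F ⟨XL, y⟩‖ ≤ B) (τ : ℝ) (hτ : 0 < τ) :
    ∃ W : Set ℂ, IsOpen W ∧ (∀ w ∈ W, ‖F w‖ ≤ B) ∧
      (∀ w ∈ frontier W, ‖F w‖ ≤ 2 ∨ w.im = (G t₀).im ∨ w.im = (G t₁).im ∨ w.re = XL) ∧
      ∀ w : ℂ, XL < w.re → (G t₀).im < w.im → w.im < (G t₁).im →
        (∀ t ∈ Set.Icc t₀ t₁, |(G t).im - w.im| ≤ τ → w.re + τ < (G t).re) → w ∈ W := by
  -- uniform continuity of F near the curve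
  have hK : IsCompact (G '' Set.Icc t₀ t₁) := isCompact_Icc.image_of_continuousOn hG
  obtain ⟨ε, hε, hFε⟩ : ∃ ε > 0, ∀ x ∈ G '' Set.Icc t₀ t₁, ∀ y, dist x y < ε →
      dist (F x) (F y) < 1 := by
    have h1 := hK.uniformContinuousAt_of_continuousAt F
      (fun a _ => hF.continuous.continuousAt) (Metric.dist_mem_uniformity one_pos)
    obtain ⟨ε, hε, h2⟩ := Metric.mem_uniformity_dist.mp h1
    exact ⟨ε, hε, fun x hx y hxy => h2 hxy hx⟩
  -- uniform continuity of the curve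
  have hu := isCompact_Icc.uniformContinuousOn_of_continuous hG
  rw [Metric.uniformContinuousOn_iff] at hu
  obtain ⟨η, hη, hGη⟩ := hu (min ε τ) (lt_min hε hτ)
  -- number of steps
  obtain ⟨N, hN⟩ := exists_nat_gt ((t₁ - t₀) / η)
  have hNpos : (0 : ℝ) < N := lt_of_le_of_lt (div_nonneg (by linarith) hη.le) hN
  have hN1 : 0 < N := by exact_mod_cast hNpos
  set h := (t₁ - t₀) / N with hh
  have hh0 : 0 ≤ h := div_nonneg (by linarith) hNpos.le
  have hhη : h < η := by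
    rw [hh, div_lt_iff₀ hNpos]
    rw [div_lt_iff₀ hη] at hN
    linarith
  have hNh : (N : ℝ) * h = t₁ - t₀ := by rw [hh]; field_simp
  have hmem : ∀ k : ℕ, k ≤ N → t₀ + (k : ℝ) * h ∈ Set.Icc t₀ t₁ := by
    intro k hk
    have hk' : (k : ℝ) ≤ N := by exact_mod_cast hk
    constructor
    · have := mul_nonneg (Nat.cast_nonneg (α := ℝ) k) hh0; linarith
    · have := mul_le_mul_of_nonneg_right hk' hh0; linarith
  set v := pv G t₀ t₁ XL N with hv
  have v0 : v 0 = ⟨XL, (G t₀).im⟩ := by simp [hv, pv]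
  have vk : ∀ k : ℕ, k ≤ N → v (k + 1) = G (t₀ + (k : ℝ) * h) := by
    intro k hk
    simp only [hv, pv]
    rw [if_neg (by omega), if_pos (by omega)]
    simp [hh]
  have v1 : v 1 = G t₀ := by
    have := vk 0 (by omega); simpa using this
  have vN1 : v (N + 1) = G t₁ := by
    rw [vk N le_rfl, hNh]; congr 1; ring
  have vN2 : v (N + 2) = ⟨XL, (G t₁).im⟩ := by
    simp only [hv, pv]
    rw [if_neg (by omega), if_neg (by omega)]
    simp
  have vN3 : v (N + 3) = ⟨XL, (G t₀).im⟩ := by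
    simp only [hv, pv]
    rw [if_neg (by omega), if_neg (by omega), if_neg (by omega)]
  have hclosed : v (N + 3) = v 0 := by rw [vN3, v0]
  -- the sides near the curve
  have hside : ∀ k : ℕ, k < N → ∀ z ∈ segment ℝ (v (k + 1)) (v (k + 2)),
      ‖z - G (t₀ + (k : ℝ) * h)‖ < min ε τ := by
    intro k hk z hz
    have h1 := seg_dist hz
    have h2 : v (k + 2) = G (t₀ + ((k + 1 : ℕ) : ℝ) * h) := vk (k + 1) (by omega)
    rw [vk k hk.le, h2] at h1
    refine lt_of_le_of_lt h1 ?_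
    rw [← dist_eq_norm]
    apply hGη _ (hmem (k + 1) (by omega)) _ (hmem k hk.le)
    rw [Real.dist_eq]
    push_cast
    have : t₀ + ((k : ℝ) + 1) * h - (t₀ + (k : ℝ) * h) = h := by ring
    rw [this, abs_of_nonneg hh0]
    exact hhη
  -- classification of the points of the polygon
  have hclass : ∀ z ∈ Poly v (N + 3),
      (∃ k < N, z ∈ segment ℝ (v (k + 1)) (v (k + 2))) ∨
      (∃ x : ℝ, XL ≤ x ∧ x ≤ (G t₀).re ∧ z = ⟨x, (G t₀).im⟩) ∨
      (∃ x : ℝ, XL ≤ x ∧ x ≤ (G t₁).re ∧ z = ⟨x, (G t₁).im⟩) ∨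
      (∃ y : ℝ, (G t₀).im ≤ y ∧ y ≤ (G t₁).im ∧ z = ⟨XL, y⟩) := by
    rintro z ⟨k, hk, hz⟩
    rcases Nat.eq_zero_or_pos k with rfl | hk0
    · right; left
      rw [zero_add, v0, v1] at hz
      exact seg_horiz hXL0.le (x₁ := (G t₀).re) (by simpa using hz)
    · rcases lt_or_ge k (N + 1) with hk1 | hk1
      · left
        refine ⟨k - 1, by omega, ?_⟩
        have e1 : k - 1 + 1 = k := by omega
        have e2 : k - 1 + 2 = k + 1 := by omega
        rw [e1, e2]; exact hz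
      · rcases Nat.eq_or_lt_of_le hk1 with rfl | hk2
        · right; right; left
          rw [vN1, vN2, segment_symm] at hz
          exact seg_horiz hXL1.le (x₁ := (G t₁).re) (by simpa using hz)
        · have hk3 : k = N + 2 := by omega
          subst hk3
          right; right; right
          rw [vN2, vN3, segment_symm] at hz
          exact seg_vert him.le hz
  have hnear : ∀ k < N, ∀ z ∈ segment ℝ (v (k + 1)) (v (k + 2)), ‖F z‖ ≤ 2 := by
    intro k hk z hz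
    have h1 := hside k hk z hz
    have h2 := hmem k hk.le
    have h3 : dist (F (G (t₀ + (k : ℝ) * h))) (F z) < 1 := by
      apply hFε _ ⟨_, h2, rfl⟩
      rw [dist_comm, dist_eq_norm]
      exact lt_of_lt_of_le h1 (min_le_left _ _)
    have h4 := hone _ h2
    have h5 : ‖F z‖ ≤ ‖F (G (t₀ + (k : ℝ) * h))‖ + ‖F (G (t₀ + (k : ℝ) * h)) - F z‖ := by
      have := norm_sub_norm_le (F z) (F (G (t₀ + (k : ℝ) * h)))
      rw [norm_sub_rev] at this; linarith
    rw [dist_eq_norm] at h3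
    linarith
  have hfront := frontier_Encl_subset v (N + 3) hclosed
  refine ⟨Encl v (N + 3), isOpen_Encl _ _ hclosed, ?_, ?_, ?_⟩
  · intro w hw
    apply Complex.norm_le_of_forall_mem_frontier_norm_le (isBounded_Encl v (N + 3) hclosed)
      (hF.diffContOnCl) _ (subset_closure hw)
    intro z hz
    rcases hclass z (hfront hz) with ⟨k, hk, hz'⟩ | ⟨x, h1, h2, rfl⟩ | ⟨x, h1, h2, rfl⟩ |
      ⟨y, h1, h2, rfl⟩
    · exact (hnear k hk z hz').trans hB
    · exact hray0 x h1 h2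
    · exact hray1 x h1 h2
    · exact hvert y h1 h2
  · intro z hz
    rcases hclass z (hfront hz) with ⟨k, hk, hz'⟩ | ⟨x, h1, h2, rfl⟩ | ⟨x, h1, h2, rfl⟩ |
      ⟨y, h1, h2, rfl⟩
    · left; exact hnear k hk z hz'
    · right; left; rfl
    · right; right; left; rfl
    · right; right; right; rfl
  · intro w hw1 hw2 hw3 hw4
    apply mem_Encl_of_left v (N + 3) hclosed w (N + 2) (by omega)
    · intro k hk hkk z hz hzw
      rcases Nat.eq_zero_or_pos k with rfl | hk0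
      · exfalso
        rw [zero_add, v0, v1] at hz
        obtain ⟨x, _, _, rfl⟩ := seg_horiz hXL0.le (x₁ := (G t₀).re) (by simpa using hz)
        simp only at hzw; linarith
      · rcases lt_or_ge k (N + 1) with hk1 | hk1
        · have e1 : k - 1 + 1 = k := by omega
          have e2 : k - 1 + 2 = k + 1 := by omega
          have hz' : z ∈ segment ℝ (v (k - 1 + 1)) (v (k - 1 + 2)) := by
            rw [e1, e2]; exact hz
          have h1 := hside (k - 1) (by omega) z hz'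
          have h2 := hmem (k - 1) (by omega)
          set g := G (t₀ + ((k - 1 : ℕ) : ℝ) * h) with hg
          have h3 : ‖z - g‖ < τ := lt_of_lt_of_le h1 (min_le_right _ _)
          have h4 : |g.im - w.im| ≤ τ := by
            rw [← hzw, abs_sub_comm]
            have := Complex.abs_im_le_norm (z - g)
            rw [Complex.sub_im] at this
            linarith
          have h5 := hw4 _ h2 h4
          have h6 := Complex.abs_re_le_norm (z - g)
          rw [Complex.sub_re] at h6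
          have h7 := abs_le.mp (h6.trans h3.le)
          rw [← hg] at h5
          linarith [h7.1]
        · have hk2 : k = N + 1 := by omega
          subst hk2
          exfalso
          rw [vN1, vN2, segment_symm] at hz
          obtain ⟨x, _, _, rfl⟩ := seg_horiz hXL1.le (x₁ := (G t₁).re) (by simpa using hz)
          simp only at hzw; linarith
    · rw [vN2, vN3]
    · rw [vN2]; exact hw1
    · rw [vN2]; exact hw3
    · rw [vN3]; exact hw2

end ENAux

open ENAux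

theorem enclosure (F : ℂ → ℂ) (hF : Differentiable ℂ F) (Γ : ℝ → ℂ) (t₀ t₁ : ℝ) (ht : t₀ ≤ t₁)
    (hΓ : ContinuousOn Γ (Set.Icc t₀ t₁)) (hone : ∀ t ∈ Set.Icc t₀ t₁, ‖F (Γ t)‖ ≤ 1)
    (XL B : ℝ) (hB : 2 ≤ B) (him : (Γ t₀).im ≠ (Γ t₁).im) (hXL0 : XL < (Γ t₀).re)
    (hXL1 : XL < (Γ t₁).re)
    (hray0 : ∀ x : ℝ, XL ≤ x → x ≤ (Γ t₀).re → ‖F ⟨x, (Γ t₀).im⟩‖ ≤ B)
    (hray1 : ∀ x : ℝ, XL ≤ x → x ≤ (Γ t₁).re → ‖F ⟨x, (Γ t₁).im⟩‖ ≤ B)
    (hvert : ∀ y : ℝ, min (Γ t₀).im (Γ t₁).im ≤ y → y ≤ max (Γ t₀).im (Γ t₁).im →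
      ‖F ⟨XL, y⟩‖ ≤ B) (τ : ℝ) (hτ : 0 < τ) :
    ∃ W : Set ℂ, IsOpen W ∧ (∀ w ∈ W, ‖F w‖ ≤ B) ∧
      (∀ w ∈ frontier W, ‖F w‖ ≤ 2 ∨ w.im = (Γ t₀).im ∨ w.im = (Γ t₁).im ∨ w.re = XL) ∧
      ∀ w : ℂ, XL < w.re → min (Γ t₀).im (Γ t₁).im < w.im → w.im < max (Γ t₀).im (Γ t₁).im →
        (∀ t ∈ Set.Icc t₀ t₁, |(Γ t).im - w.im| ≤ τ → w.re + τ < (Γ t).re) → w ∈ W := by
  rcases lt_or_gt_of_ne him with hlt | hgt
  · rw [min_eq_left hlt.le, max_eq_right hlt.le] at *
    exact enclosure_up F hF Γ t₀ t₁ ht hΓ hone XL B hB hlt hXL0 hXL1 hray0 hray1 hvert τ hτ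
  · rw [min_eq_right hgt.le, max_eq_left hgt.le] at *
    set G : ℝ → ℂ := fun t => Γ (t₀ + t₁ - t) with hGdef
    have hG0 : G t₀ = Γ t₁ := by simp [hGdef]
    have hG1 : G t₁ = Γ t₀ := by simp [hGdef]
    have hmap : ∀ t ∈ Set.Icc t₀ t₁, t₀ + t₁ - t ∈ Set.Icc t₀ t₁ := by
      intro t ht'
      constructor <;> linarith [ht'.1, ht'.2]
    have hGc : ContinuousOn G (Set.Icc t₀ t₁) :=
      hΓ.comp (by fun_prop) hmap
    obtain ⟨W, h1, h2, h3, h4⟩ := enclosure_up F hF G t₀ t₁ ht hGc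
      (fun t ht' => hone _ (hmap t ht')) XL B hB (by rw [hG0, hG1]; exact hgt)
      (by rw [hG0]; exact hXL1) (by rw [hG1]; exact hXL0)
      (by rw [hG0]; exact hray1) (by rw [hG1]; exact hray0)
      (by rw [hG0, hG1]; exact hvert) τ hτ
    refine ⟨W, h1, h2, ?_, ?_⟩
    · intro w hw
      rw [hG0, hG1] at h3
      rcases h3 w hw with h | h | h | h
      · left; exact h
      · right; right; left; exact h
      · right; left; exact h
      · right; right; right; exact h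
    · intro w hw1 hw2 hw3 hw4
      rw [hG0, hG1] at h4
      apply h4 w hw1 hw2 hw3
      intro t ht' hd
      exact hw4 _ (hmap t ht') hd

end Pool.Agent.GapReg
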