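import Pool.Agent.GapReg.Defs

set_option autoImplicit false

namespace Pool.Agent.GapReg

open Finset Filter Topology
open Pool.Agent.MP_e061a3_an

theorem mem_suppN (c : ℕ → ℂ) (N m : ℕ) : m ∈ suppN c N ↔ m < N ∧ c m ≠ 0 := by
  unfold suppN
  rw [mem_filter, mem_range]

/-- Bound of one term on a half plane. -/
private lemma fs_term_le (c : ℕ → ℂ) (x : ℝ) (m : ℕ) (w : ℂ) (hw : w.re ≤ x) :
    ‖c m * Complex.exp w ^ m‖ ≤ ‖c m‖ * Real.exp ((m : ℝ) * x) := by
  rw [norm_mul, ← Complex.exp_nat_mul, Complex.norm_exp]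
  apply mul_le_mul_of_nonneg_left _ (norm_nonneg _)
  apply Real.exp_le_exp.mpr
  have : ((m : ℂ) * w).re = (m : ℝ) * w.re := by simp
  rw [this]
  exact mul_le_mul_of_nonneg_left hw (Nat.cast_nonneg _)

theorem differentiable_Fs (c : ℕ → ℂ) (hc : Ent c) : Differentiable ℂ (Fs c) := by
  intro w
  have hopen : IsOpen {z : ℂ | z.re < w.re + 1} :=
    isOpen_lt Complex.continuous_re continuous_const
  have h : DifferentiableOn ℂ (Fs c) {z : ℂ | z.re < w.re + 1} := by
    refine Complex.differentiableOn_tsum_of_summable_norm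
      (u := fun m : ℕ => ‖c m‖ * Real.exp ((m : ℝ) * (w.re + 1)))
      (F := fun (m : ℕ) (z : ℂ) => c m * Complex.exp z ^ m)
      (summable_majorant c hc (w.re + 1)) ?_ hopen ?_
    · intro m
      fun_prop
    · intro m z hz
      exact fs_term_le c _ m z (le_of_lt hz)
  exact (h w (by simp)).differentiableAt (hopen.mem_nhds (by simp))

theorem unif_trunc (c : ℕ → ℂ) (hc : Ent c) (x ε : ℝ) (hε : 0 < ε) :
    ∃ N₀ : ℕ, ∀ N : ℕ, N₀ ≤ N → ∀ w : ℂ, w.re ≤ x → ‖Fs c w - expSum c (suppN c N) w‖ ≤ ε := by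
  have h := tendsto_sum_nat_add (fun m : ℕ => ‖c m‖ * Real.exp ((m : ℝ) * x))
  obtain ⟨N₀, hN₀⟩ := eventually_atTop.mp (h.eventually (gt_mem_nhds hε))
  refine ⟨N₀, ?_⟩
  intro N hN w hw
  have hsum := hc (Complex.exp w)
  have hrange : expSum c (suppN c N) w = ∑ m ∈ range N, c m * (Complex.exp w) ^ m := by
    unfold expSum suppN
    rw [sum_filter_of_ne (p := fun p => c p ≠ 0)]
    · apply sum_congr rfl
      intro m _
      rw [← Complex.exp_nat_mul]
    · intro m _ hne h0
      rw [h0, zero_mul] at hne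
      exact hne rfl
  unfold Fs
  rw [hrange, ← hsum.sum_add_tsum_nat_add N, add_sub_cancel_left]
  have hmaj := (summable_nat_add_iff N).mpr (summable_majorant c hc x)
  refine (tsum_of_norm_bounded hmaj.hasSum ?_).trans (hN₀ N hN).le
  intro m
  exact fs_term_le c x (m + N) w hw

end Pool.Agent.GapReg
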