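import Pool.Agent.GapReg.Defs

set_option autoImplicit false

namespace Pool.Agent.GapReg

open Finset Filter Topology
open Pool.Agent.MP_e061a3_an

namespace LTAux

/-- The cone at the origin. -/
def cone (ρ : ℝ) : Set ℂ := {u | ‖u‖ ≤ ρ ∧ u.re + |u.im| ≤ 0}

lemma isCompact_cone (ρ : ℝ) : IsCompact (cone ρ) := by
  have h1 : IsClosed (cone ρ) := by
    apply IsClosed.inter
    · exact isClosed_le continuous_norm continuous_const
    · exact isClosed_le (Complex.continuous_re.add (Complex.continuous_im.abs)) continuous_const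
  have h2 : cone ρ ⊆ Metric.closedBall 0 ρ := by
    intro u hu
    simpa using hu.1
  exact (isCompact_closedBall (0 : ℂ) ρ).of_isClosed_subset h1 h2

lemma low_iff (F : ℂ → ℂ) (p : ℂ) (ρ s : ℝ) :
    Low F p ρ s ↔ ∀ u ∈ cone ρ, ‖F (p + u)‖ ≤ Real.exp s := by
  constructor
  · intro h u hu
    apply h
    · simpa using hu.1
    · simp only [Complex.add_re, Complex.add_im, add_sub_cancel_left]
      have := hu.2
      linarith
  · intro h w hw1 hw2
    have := h (w - p) ⟨hw1, by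
      simp only [Complex.sub_re, Complex.sub_im]
      linarith⟩
    simpa using this

lemma low_mono {F : ℂ → ℂ} {p : ℂ} {ρ s s' : ℝ} (hs : s ≤ s') (h : Low F p ρ s) :
    Low F p ρ s' := fun w h1 h2 => (h w h1 h2).trans (Real.exp_le_exp.2 hs)

end LTAux

open LTAux in
theorem last_time (F : ℂ → ℂ) (hF : Continuous F) (Γ : ℝ → ℂ) (hΓ : ContinuousOn Γ (Set.Ici 0))
    (hinf : Tendsto (fun t => (Γ t).re) atTop atTop) (ρ s : ℝ) (hρ : 0 < ρ) (hs : 0 < s)
    (x₀ : ℝ) (hx : ∀ q : ℂ, x₀ ≤ q.re → ¬ Low F q ρ s) (hne : ∃ t : ℝ, 0 ≤ t ∧ Low F (Γ t) ρ s) :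
    ∃ t₁ : ℝ, 0 ≤ t₁ ∧ Low F (Γ t₁) ρ s ∧ (∀ t : ℝ, 0 ≤ t → Low F (Γ t) ρ s → t ≤ t₁) ∧
      ∀ t : ℝ, t₁ ≤ t → ¬ Low F (Γ t) ρ (s / 2) := by
  set G : ℝ → ℂ := fun t => Γ (max t 0) with hG
  have hGc : Continuous G :=
    hΓ.comp_continuous (continuous_id.max continuous_const)
      (fun t => Set.mem_Ici.2 (le_max_right _ _))
  have hGe : ∀ t : ℝ, 0 ≤ t → G t = Γ t := fun t ht => by simp [hG, max_eq_left ht]
  set S : Set ℝ := {t | 0 ≤ t ∧ Low F (G t) ρ s} with hS
  have hScl : IsClosed S := by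
    have : S = Set.Ici 0 ∩ ⋂ u ∈ cone ρ, {t : ℝ | ‖F (G t + u)‖ ≤ Real.exp s} := by
      ext t
      simp only [hS, Set.mem_setOf_eq, Set.mem_inter_iff, Set.mem_Ici, Set.mem_iInter, low_iff]
    rw [this]
    refine isClosed_Ici.inter (isClosed_biInter fun u _ => ?_)
    exact isClosed_le (hF.comp (hGc.add continuous_const)).norm continuous_const
  have hSb : BddAbove S := by
    obtain ⟨T, hT⟩ := (hinf.eventually (eventually_ge_atTop x₀)).exists_forall_of_atTop
    refine ⟨T, fun t ht => ?_⟩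
    by_contra hlt
    push Not at hlt
    have h1 := hT t hlt.le
    have h2 := ht.2
    rw [hGe t ht.1] at h2
    exact hx _ h1 h2
  have hSne : S.Nonempty := by
    obtain ⟨t, ht, hlow⟩ := hne
    exact ⟨t, ht, by rw [hGe t ht]; exact hlow⟩
  have hmem : sSup S ∈ S := hScl.csSup_mem hSne hSb
  have hmax : ∀ t : ℝ, 0 ≤ t → Low F (Γ t) ρ s → t ≤ sSup S := by
    intro t ht hlow
    exact le_csSup hSb ⟨ht, by rw [hGe t ht]; exact hlow⟩
  refine ⟨sSup S, hmem.1, ?_, hmax, ?_⟩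
  · have := hmem.2
    rwa [hGe _ hmem.1] at this
  · intro t ht hlow
    have ht0 : 0 ≤ t := hmem.1.trans ht
    have hlow' : Low F (Γ t) ρ s := low_mono (by linarith) hlow
    have hteq : t = sSup S := le_antisymm (hmax t ht0 hlow') ht
    have hlow2 : Low F (G t) ρ (s / 2) := by rw [hGe t ht0]; exact hlow
    rw [low_iff] at hlow2
    have hev : ∀ᶠ x in 𝓝 t, ∀ u ∈ cone ρ, ‖F (G x + u)‖ < Real.exp s := by
      apply (isCompact_cone ρ).eventually_forall_of_forall_eventually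
      intro u hu
      have hc : Continuous fun z : ℝ × ℂ => ‖F (G z.1 + z.2)‖ :=
        (hF.comp ((hGc.comp continuous_fst).add continuous_snd)).norm
      have hlt : ‖F (G (t, u).1 + (t, u).2)‖ < Real.exp s :=
        (hlow2 u hu).trans_lt (Real.exp_lt_exp.2 (by linarith))
      exact hc.continuousAt.eventually_lt continuousAt_const hlt
    have hev2 : ∀ᶠ x in 𝓝[>] t, ∀ u ∈ cone ρ, ‖F (G x + u)‖ < Real.exp s :=
      hev.filter_mono nhdsWithin_le_nhds
    obtain ⟨x, hx1, hx2⟩ := (hev2.and self_mem_nhdsWithin).exists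
    have hx2' : t < x := hx2
    have hx0 : 0 ≤ x := ht0.trans hx2'.le
    have : x ≤ sSup S := by
      apply le_csSup hSb
      refine ⟨hx0, ?_⟩
      rw [low_iff]
      exact fun u hu => (hx1 u hu).le
    linarith

end Pool.Agent.GapReg
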