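import Pool.Agent.GapReg.Defs

set_option autoImplicit false

namespace Pool.Agent.GapReg

open Finset Filter Topology
open Pool.Agent.MP_e061a3_an

theorem exists_lift (γ : ℝ → ℂ) (hγ : ContinuousOn γ (Set.Ici 0)) (h0 : ∀ t : ℝ, 0 ≤ t → γ t ≠ 0) :
    ∃ Γ : ℝ → ℂ, ContinuousOn Γ (Set.Ici 0) ∧ ∀ t : ℝ, 0 ≤ t → Complex.exp (Γ t) = γ t := by
  have hsc : IsSimplyConnected (Set.univ : Set ℝ) := by
    haveI : ContractibleSpace (Set.univ : Set ℝ) :=
      (convex_univ (𝕜 := ℝ) (E := ℝ)).contractibleSpace Set.univ_nonempty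
    exact inferInstanceAs (SimplyConnectedSpace (Set.univ : Set ℝ))
  have hg : Continuous (fun t : ℝ => γ (max t 0)) := by
    refine continuousOn_univ.mp ?_
    refine hγ.comp (by fun_prop) ?_
    intro t _
    exact le_max_right t 0
  obtain ⟨f, hf, hfe⟩ := Complex.exists_continuousOn_eqOn_exp_comp hsc isOpen_univ
    (g := fun t : ℝ => γ (max t 0)) hg.continuousOn (by
      rintro ⟨t, _, ht⟩
      exact h0 (max t 0) (le_max_right t 0) ht)
  refine ⟨f, hf.mono (Set.subset_univ _), ?_⟩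
  intro t ht
  have := hfe (Set.mem_univ t)
  simp only [Function.comp_apply, max_eq_left ht] at this
  exact this

end Pool.Agent.GapReg
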