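import Pool.Agent.GapReg.Decouple

set_option autoImplicit false

namespace Pool.Agent.GapReg

open Finset Filter Topology
open Pool.Agent.MP_e061a3_an

private lemma lb_ball_cone (q u : ℂ) (r : ℝ) (hu : ‖u - (q - 2 * r)‖ ≤ r) :
    ‖u - q‖ ≤ 3 * r ∧ u.re + |u.im - q.im| ≤ q.re := by
  have hr : 0 ≤ r := (norm_nonneg _).trans hu
  set d : ℂ := u - (q - 2 * r) with hd
  have hu' : u = q - 2 * r + d := by rw [hd]; ring
  constructor
  · have : u - q = d - 2 * r := by rw [hu']; ring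
    rw [this]
    calc ‖d - 2 * (r : ℂ)‖ ≤ ‖d‖ + ‖2 * (r : ℂ)‖ := norm_sub_le _ _
      _ ≤ r + 2 * r := by
        have : ‖2 * (r : ℂ)‖ = 2 * r := by
          rw [norm_mul, Complex.norm_real, Real.norm_of_nonneg hr]; norm_num
        rw [this]; linarith
      _ = 3 * r := by ring
  · have h1 := Complex.abs_re_le_norm d
    have h2 := Complex.abs_im_le_norm d
    have e1 : u.re = q.re - 2 * r + d.re := by rw [hu']; simp
    have e2 : u.im - q.im = d.im := by rw [hu']; simp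
    rw [e1, e2]
    have h3 := le_abs_self d.re
    linarith

theorem low_bounded (c : ℕ → ℂ) (hc : Ent c) (δ ℓ r : ℝ) (hδ : 0 < δ) (hℓ : 1 ≤ ℓ)
    (hD : Dens {m | c m ≠ 0} δ ℓ) (hr : r = 100000 * δ) (hs : 200 ≤ ℓ * r) (m₀ : ℕ)
    (hm₀ : c m₀ ≠ 0) (hm : (m₀ : ℝ) < ℓ) :
    ∃ x₀ : ℝ, ∀ q : ℂ, x₀ ≤ q.re → ¬ Low (Fs c) q (64 * r) (ℓ * r) := by
  have hr0 : 0 < r := by rw [hr]; positivity
  set ρ : ℝ := min (r / 2) 1 with hρ
  have hρ0 : 0 < ρ := by rw [hρ]; positivity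
  have hρ1 : ρ ≤ 1 := min_le_right _ _
  have hρr : ρ ≤ r / 2 := min_le_left _ _
  set N : ℕ := ⌈8 * δ * ℓ⌉₊ with hN
  set C : ℝ := (40 / ρ) ^ N * Real.exp (2 * (ℓ * r)) with hC
  have h40 : 1 ≤ 40 / ρ := by rw [le_div_iff₀ hρ0]; linarith
  have hC0 : 0 < C := by positivity
  have hcm : 0 < ‖c m₀‖ := norm_pos_iff.mpr hm₀
  refine ⟨2 * r + 1 + |Real.log (C / ‖c m₀‖)|, ?_⟩
  intro q hq hlow
  set w₀ : ℂ := q - 2 * r with hw₀
  have hw₀re : w₀.re = q.re - 2 * r := by rw [hw₀]; simp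
  have hF : ∀ u : ℂ, ‖u - w₀‖ ≤ r → ‖Fs c u‖ ≤ Real.exp (ℓ * r) := by
    intro u hu
    obtain ⟨h1, h2⟩ := lb_ball_cone q u r hu
    exact hlow u (by linarith) h2
  obtain ⟨S, _, hSm, hScard, hSb, _⟩ := decouple c hc δ ℓ r hδ hℓ hD (by rw [hr]; linarith)
    (by linarith) w₀ hF
  have hmS : m₀ ∈ S := hSm m₀ hm₀ hm
  have hcardN : S.card ≤ N := by
    have : (S.card : ℝ) ≤ (N : ℝ) := hScard.trans (Nat.le_ceil _)
    exact_mod_cast this
  have hvert : ∀ w : ℂ, w.re = w₀.re → ‖expSum c S w‖ ≤ C := by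
    intro w hw
    refine (expSum_vertical c S w₀ ρ hρ0 hρ1 (Real.exp (2 * (ℓ * r))) (Real.exp_pos _).le
      (fun u hu => hSb u (hu.trans hρr)) w hw).trans ?_
    exact mul_le_mul_of_nonneg_right (pow_le_pow_right₀ h40 hcardN) (Real.exp_pos _).le
  have hco := expSum_coeff c S w₀.re C hvert m₀ hmS
  have hexp : Real.exp (m₀ * w₀.re) ≤ C / ‖c m₀‖ := by
    rw [le_div_iff₀ hcm]; linarith
  have hlog : (m₀ : ℝ) * w₀.re ≤ Real.log (C / ‖c m₀‖) := by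
    rw [Real.le_log_iff_exp_le (by positivity)]
    exact hexp
  have hm1 : (1:ℝ) ≤ m₀ := by
    have := hD.1 m₀ hm₀
    exact_mod_cast this
  have hx : 1 + |Real.log (C / ‖c m₀‖)| ≤ w₀.re := by rw [hw₀re]; linarith
  have h1 := le_abs_self (Real.log (C / ‖c m₀‖))
  have h2 := abs_nonneg (Real.log (C / ‖c m₀‖))
  have h3 : w₀.re ≤ (m₀ : ℝ) * w₀.re := by
    have : 0 ≤ w₀.re := by linarith
    nlinarith
  linarith

end Pool.Agent.GapReg
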