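import Pool.Agent.GapReg.StepD
import Pool.Agent.GapReg.Lift
import Pool.Agent.GapReg.Density
import Pool.Agent.GapReg.LowBounded
import Pool.Agent.GapReg.LastTime
import Pool.Agent.GapReg.FsBasic

set_option autoImplicit false

/-!
# Gap series with regular Fejer gaps are unbounded on every curve going to infinity
-/

namespace Pool.Agent.GapReg

open Finset Filter Topology
open Pool.Agent.MP_e061a3_an

namespace FIAux

lemma reach_curve (F : ℂ → ℂ) (Γ : ℝ → ℂ) (hΓ : ContinuousOn Γ (Set.Ici 0))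
    (hinf : Tendsto (fun t => (Γ t).re) atTop atTop)
    (hone : ∀ t : ℝ, 0 ≤ t → ‖F (Γ t)‖ ≤ 1) (t : ℝ) (ht : 0 ≤ t) : Reach F (Γ t) := by
  intro ρ hρ
  obtain ⟨T, hT⟩ := (tendsto_atTop.mp hinf ((Γ t).re + ρ)).exists_forall_of_atTop
  set T' := max T t with hT'
  have h1 := hT T' (le_max_left _ _)
  have hcont : ContinuousOn (fun s => ‖Γ s - Γ t‖) (Set.Icc t T') := by
    have : ContinuousOn Γ (Set.Icc t T') := hΓ.mono (fun s hs => ht.trans hs.1)
    exact (this.sub continuousOn_const).norm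
  have hivt := intermediate_value_Icc (le_max_right T t) hcont
  have h2 : ρ ≤ ‖Γ T' - Γ t‖ := by
    have h3 : (Γ T' - Γ t).re ≤ ‖Γ T' - Γ t‖ := (le_abs_self _).trans (Complex.abs_re_le_norm _)
    rw [Complex.sub_re] at h3
    linarith
  obtain ⟨s, hs, hs2⟩ := hivt ⟨by simpa using hρ, h2⟩
  exact ⟨Γ s, hs2, hone s (ht.trans hs.1)⟩

end FIAux

open FIAux

theorem unbounded_core (c : ℕ → ℂ) (hc : Ent c) (hne : ∃ m, c m ≠ 0) (δ : ℕ → ℝ)
    (hδ0 : ∀ j, 0 < δ j) (hδ1 : ∀ j, δ (j + 1) ≤ δ j) (hδ2 : ∀ j, δ j ≤ 2 * δ (j + 1))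
    (hsum : Summable δ) (hD : ∀ j : ℕ, Dens {m | c m ≠ 0} (δ j) (4 ^ j)) (Γ : ℝ → ℂ)
    (hΓ : ContinuousOn Γ (Set.Ici 0)) (hinf : Tendsto (fun t => (Γ t).re) atTop atTop)
    (hone : ∀ t : ℝ, 0 ≤ t → ‖Fs c (Γ t)‖ ≤ 1) : False := by
  obtain ⟨m₀, hm₀⟩ := hne
  have hFd : Differentiable ℂ (Fs c) := differentiable_Fs c hc
  have hFc : Continuous (Fs c) := hFd.continuous
  set r : ℕ → ℝ := fun j => 100000 * δ j with hr
  set s : ℕ → ℝ := fun j => (4:ℝ) ^ j * r j with hs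
  have hr0 : ∀ j, 0 < r j := fun j => by have := hδ0 j; simp only [hr]; positivity
  have hr1 : ∀ j, r (j + 1) ≤ r j := fun j => by have := hδ1 j; simp only [hr]; linarith
  have hranti : Antitone r := antitone_nat_of_succ_le hr1
  have hs2 : ∀ j, 2 * s j ≤ s (j + 1) := by
    intro j
    have h1 := hδ2 j
    have h2 : r j ≤ 2 * r (j + 1) := by simp only [hr]; linarith
    simp only [hs]
    have h3 : (0:ℝ) < 4 ^ j := by positivity
    rw [pow_succ]
    nlinarith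
  have hs0 : ∀ j, 0 < s j := fun j => by have := hr0 j; simp only [hs]; positivity
  have hsle : ∀ j, s j ≤ s (j + 1) := fun j => by have := hs2 j; have := hs0 j; linarith
  have hsg : ∀ j, 2 ^ j * s 0 ≤ s j := by
    intro j
    induction j with
    | zero => simp
    | succ j ih =>
      have := hs2 j
      rw [pow_succ]
      linarith
  have hstend : Tendsto s atTop atTop := by
    apply tendsto_atTop_mono hsg
    exact (tendsto_pow_atTop_atTop_of_one_lt (by norm_num : (1:ℝ) < 2)).atTop_mul_const (hs0 0)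
  -- low at a fixed time for large levels
  have hlowev : ∀ t : ℝ, ∀ᶠ j in atTop, Low (Fs c) (Γ t) (64 * r j) (s j) := by
    intro t
    obtain ⟨B, hB⟩ := (isCompact_closedBall (Γ t) (64 * r 0)).exists_bound_of_continuousOn
      hFc.continuousOn
    filter_upwards [hstend.eventually_ge_atTop B] with j hj
    intro w hw _
    have h1 : ‖Fs c w‖ ≤ B := by
      apply hB
      rw [Metric.mem_closedBall, dist_eq_norm]
      have := hranti (Nat.zero_le j)
      linarith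
    have h2 := Real.add_one_le_exp (s j)
    linarith
  have h4tend : Tendsto (fun j : ℕ => (4:ℝ) ^ j) atTop atTop :=
    tendsto_pow_atTop_atTop_of_one_lt (by norm_num)
  obtain ⟨j₁, hj₁⟩ := ((hstend.eventually_ge_atTop 200).and
    ((h4tend.eventually_gt_atTop (m₀:ℝ)).and (hlowev 0))).exists_forall_of_atTop
  -- last times
  have hlast : ∀ i : ℕ, ∃ t₁ : ℝ, 0 ≤ t₁ ∧ Low (Fs c) (Γ t₁) (64 * r (j₁ + i)) (s (j₁ + i)) ∧
      (∀ t : ℝ, 0 ≤ t → Low (Fs c) (Γ t) (64 * r (j₁ + i)) (s (j₁ + i)) → t ≤ t₁) ∧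
      ∀ t : ℝ, t₁ ≤ t → ¬ Low (Fs c) (Γ t) (64 * r (j₁ + i)) (s (j₁ + i) / 2) := by
    intro i
    obtain ⟨h1, h2, h3⟩ := hj₁ (j₁ + i) (Nat.le_add_right _ _)
    obtain ⟨x₀, hx₀⟩ := low_bounded c hc (δ (j₁ + i)) (4 ^ (j₁ + i)) (r (j₁ + i)) (hδ0 _)
      (one_le_pow₀ (by norm_num)) (hD _) rfl h1 m₀ hm₀ h2
    exact last_time (Fs c) hFc Γ hΓ hinf (64 * r (j₁ + i)) (s (j₁ + i))
      (by have := hr0 (j₁ + i); positivity) (hs0 _) x₀ hx₀ ⟨0, le_refl _, h3⟩
  choose T hT0 hTlow hTmax hTnot using hlast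
  have hTmono : ∀ i, T i ≤ T (i + 1) := by
    intro i
    apply hTmax (i + 1) (T i) (hT0 i)
    intro w hw hwc
    refine (hTlow i w ?_ hwc).trans ?_
    · have := hr1 (j₁ + i)
      have e : j₁ + (i + 1) = j₁ + i + 1 := rfl
      rw [e] at hw
      linarith
    · exact Real.exp_le_exp.mpr (hsle (j₁ + i))
  have hstep : ∀ i, ‖Γ (T (i + 1)) - Γ (T i)‖ ≤ 10 ^ 19 * r (j₁ + i) := by
    intro i
    have hsd : StepData c (δ (j₁ + i + 1)) (δ (j₁ + i)) (4 ^ (j₁ + i + 1)) (4 ^ (j₁ + i))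
        (r (j₁ + i + 1)) (r (j₁ + i)) Γ (T i) (T (i + 1)) :=
      { ent := hc
        δ_pos := hδ0 _
        δ_le := hδ1 _
        δ'_le := hδ2 _
        one_le := one_le_pow₀ (by norm_num)
        level := by rw [pow_succ]; ring
        r_eq := rfl
        r'_eq := rfl
        big := (hj₁ (j₁ + i) (Nat.le_add_right _ _)).1
        dens := hD _
        dens' := hD _
        time := hTmono i
        cont := hΓ.mono (fun t ht => (hT0 i).trans ht.1)
        one := fun t ht => hone t ((hT0 i).trans ht.1)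
        reach := fun t ht => reach_curve (Fs c) Γ hΓ hinf hone t ((hT0 i).trans ht.1)
        notlow := fun t ht => hTnot i t ht.1
        low₀ := hTlow i
        low₁ := hTlow (i + 1) }
    exact hsd.dist_le
  -- bounded displacement
  have hbd : ∀ i, ‖Γ (T i) - Γ (T 0)‖ ≤ 10 ^ 19 * (100000 * ∑' j, δ j) := by
    intro i
    have h1 : ‖Γ (T i) - Γ (T 0)‖ ≤ ∑ k ∈ range i, 10 ^ 19 * r (j₁ + k) := by
      induction i with
      | zero => simp
      | succ i ih =>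
        rw [sum_range_succ]
        have e : Γ (T (i + 1)) - Γ (T 0) = (Γ (T i) - Γ (T 0)) + (Γ (T (i + 1)) - Γ (T i)) := by
          ring
        rw [e]
        exact (norm_add_le _ _).trans (add_le_add ih (hstep i))
    refine h1.trans ?_
    rw [← mul_sum]
    apply mul_le_mul_of_nonneg_left _ (by positivity)
    simp only [hr]
    rw [← mul_sum]
    apply mul_le_mul_of_nonneg_left _ (by positivity)
    have h2 : ∑ k ∈ range i, δ (j₁ + k) ≤ ∑ k ∈ range (j₁ + i), δ k := by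
      rw [sum_range_add]
      have : 0 ≤ ∑ k ∈ range j₁, δ k := sum_nonneg (fun k _ => (hδ0 k).le)
      linarith
    exact h2.trans (hsum.sum_le_tsum _ (fun k _ => (hδ0 k).le))
  set C : ℝ := 10 ^ 19 * (100000 * ∑' j, δ j) with hC
  obtain ⟨t', ht'⟩ := (tendsto_atTop.mp hinf ((Γ (T 0)).re + C + 1)).exists_forall_of_atTop
  obtain ⟨J, hJ⟩ := (hlowev (max t' 0)).exists_forall_of_atTop
  have h1 : max t' 0 ≤ T J := hTmax J (max t' 0) (le_max_right _ _) (hJ (j₁ + J) (by omega))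
  have h2 := ht' (T J) ((le_max_left _ _).trans h1)
  have h3 := hbd J
  have h4 : (Γ (T J) - Γ (T 0)).re ≤ ‖Γ (T J) - Γ (T 0)‖ :=
    (le_abs_self _).trans (Complex.abs_re_le_norm _)
  rw [Complex.sub_re] at h4
  linarith

theorem unbounded_regular (p : ℕ → ℕ) (hp : StrictMono p) (hpos : ∀ n, 0 < p n) (L : ℕ → ℝ)
    (hL : Monotone L) (hL0 : ∀ n, 0 < L n)
    (hsum : Summable (fun n : ℕ => 1 / (((n : ℝ) + 1) * L n)))
    (hpL : ∀ n : ℕ, ((n : ℝ) + 1) * L n ≤ p n) (a : ℕ → ℂ)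
    (hs : ∀ z : ℂ, Summable (fun n => a n * z ^ (p n))) (hne : ∃ n, a n ≠ 0)
    (γ : ℝ → ℂ) (hγ : ContinuousOn γ (Set.Ici 0))
    (hinf : Tendsto (fun t => ‖γ t‖) atTop atTop) :
    ¬ ∃ M : ℝ, ∀ t : ℝ, 0 ≤ t → ‖∑' n, a n * (γ t) ^ (p n)‖ ≤ M := by
  rintro ⟨M, hM⟩
  obtain ⟨δ, hδ0, hδ1, hδ2, hδs, hδD⟩ := exists_density p hp hpos L hL hL0 hsum hpL
  obtain ⟨n₀, hn₀⟩ := hne
  set Q : ℝ := |M| + 1 with hQ
  have hQ0 : 0 < Q := by positivity
  have hQC : (Q:ℂ) ≠ 0 := by exact_mod_cast hQ0.ne'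
  set c : ℕ → ℂ := fun m => (Q:ℂ)⁻¹ * coef p a m with hcdef
  have hc : Ent c := by
    intro z
    have h1 := (summable_coef p hp a hs z).mul_left ((Q:ℂ)⁻¹)
    refine h1.congr ?_
    intro m
    simp only [hcdef]
    ring
  have hFs : ∀ w, Fs c w = (Q:ℂ)⁻¹ * ∑' n, a n * (Complex.exp w) ^ (p n) := by
    intro w
    rw [← tsum_coef p hp, ← tsum_mul_left]
    unfold Fs
    apply tsum_congr
    intro m
    simp only [hcdef]
    ring
  have hcne : c (p n₀) ≠ 0 := by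
    simp only [hcdef]
    rw [coef_apply p hp]
    exact mul_ne_zero (inv_ne_zero hQC) hn₀
  have hsub : ∀ m : ℕ, c m ≠ 0 → m ∈ Set.range p := by
    intro m hm
    simp only [hcdef] at hm
    have h1 : coef p a m ≠ 0 := right_ne_zero_of_mul hm
    obtain ⟨n, hn⟩ := coef_ne_zero p a m h1
    exact ⟨n, hn⟩
  have hD : ∀ j : ℕ, Dens {m | c m ≠ 0} (δ j) (4 ^ j) := by
    intro j
    refine ⟨fun m hm => (hδD j).1 m (hsub m hm), fun T hT x hx hTx => ?_⟩
    exact (hδD j).2 T (fun m hm => hsub m (hT m hm)) x hx hTx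
  -- shift of the time
  obtain ⟨T, hT⟩ := (tendsto_atTop.mp hinf 1).exists_forall_of_atTop
  set T' := max T 0 with hT'
  have hT'0 : 0 ≤ T' := le_max_right _ _
  have hγ1 : ∀ t : ℝ, 0 ≤ t → 1 ≤ ‖γ (T' + t)‖ := by
    intro t ht
    apply hT
    have := le_max_left T 0
    linarith
  obtain ⟨Γ, hΓc, hΓe⟩ := exists_lift (fun t => γ (T' + t)) (by
    apply hγ.comp (by fun_prop)
    intro t ht
    exact add_nonneg hT'0 ht) (by
    intro t ht h0
    have := hγ1 t ht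
    rw [h0, norm_zero] at this
    linarith)
  have hΓre : ∀ t : ℝ, 0 ≤ t → (Γ t).re = Real.log ‖γ (T' + t)‖ := by
    intro t ht
    rw [← hΓe t ht, Complex.norm_exp, Real.log_exp]
  have hΓinf : Tendsto (fun t => (Γ t).re) atTop atTop := by
    have h1 : Tendsto (fun t : ℝ => Real.log ‖γ (T' + t)‖) atTop atTop := by
      apply Real.tendsto_log_atTop.comp
      exact hinf.comp (tendsto_atTop_add_const_left _ _ tendsto_id)
    refine h1.congr' ?_
    filter_upwards [eventually_ge_atTop 0] with t ht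
    exact (hΓre t ht).symm
  apply unbounded_core c hc ⟨p n₀, hcne⟩ δ hδ0 hδ1 hδ2 hδs hD Γ hΓc hΓinf
  intro t ht
  rw [hFs, hΓe t ht, norm_mul, norm_inv, Complex.norm_real, Real.norm_eq_abs, abs_of_pos hQ0]
  have h1 := hM (T' + t) (add_nonneg hT'0 ht)
  have h2 := le_abs_self M
  calc Q⁻¹ * ‖∑' n, a n * (γ (T' + t)) ^ (p n)‖ ≤ Q⁻¹ * Q := by
        apply mul_le_mul_of_nonneg_left _ (by positivity)
        linarith
    _ = 1 := inv_mul_cancel₀ hQ0.ne'

end Pool.Agent.GapReg
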