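import Pool.Agent.GapReg.Defs

set_option autoImplicit false

namespace Pool.Agent.GapReg

open Finset Filter Topology
open Pool.Agent.MP_e061a3_an

private lemma lr_exp_const : 2 * Real.exp 1 * ((1638400 : ℕ) : ℝ) ≤ Real.exp (161 / 10) := by
  have h1 := Real.exp_one_gt_d9
  have h2 := Real.exp_one_lt_d9
  have e1 : Real.exp (161 / 10) = Real.exp 1 ^ 16 * Real.exp (1 / 10) := by
    rw [← Real.exp_nat_mul, ← Real.exp_add]
    congr 1
    norm_num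
  have e2 : (1:ℝ) + 1 / 10 ≤ Real.exp (1 / 10) := by
    have := Real.add_one_le_exp (1 / 10 : ℝ)
    linarith
  have e3 : (2.718 : ℝ) ^ 16 ≤ Real.exp 1 ^ 16 := by
    apply pow_le_pow_left₀ (by norm_num)
    linarith
  have e4 : (8800000 : ℝ) ≤ (2.718 : ℝ) ^ 16 := by norm_num
  rw [e1]
  have e5 : (8800000 : ℝ) * (1 + 1 / 10) ≤ Real.exp 1 ^ 16 * Real.exp (1 / 10) :=
    mul_le_mul (e4.trans e3) e2 (by norm_num) (by positivity)
  push_cast
  nlinarith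

theorem low_of_reach (F : ℂ → ℂ) (c : ℕ → ℂ) (S : Finset ℕ) (δ ℓ r : ℝ) (hδ : 0 < δ)
    (hr : r = 100000 * δ) (hs : 200 ≤ ℓ * r) (hcard : (S.card : ℝ) ≤ 8 * δ * ℓ)
    (hS : ∀ m ∈ S, (m : ℝ) ≤ 4 * ℓ) (p : ℂ) (hp : Reach F p)
    (hFS : ∀ w : ℂ, ‖w - p‖ ≤ 128 * r → ‖F w - expSum c S w‖ ≤ 1) :
    ∀ w : ℂ, ‖w - p‖ ≤ 128 * r → w.re ≤ p.re → ‖F w‖ ≤ Real.exp (ℓ * r / 8) := by
  intro w hw hre
  have hr0 : 0 < r := by rw [hr]; positivity
  have hℓ : 0 < ℓ := by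
    by_contra h
    have : ℓ * r ≤ 0 := mul_nonpos_of_nonpos_of_nonneg (not_lt.mp h) hr0.le
    linarith
  set κ : ℝ := r / 12800 with hκ
  have hκ0 : 0 < κ := by positivity
  -- small circles
  have hE : ∀ ρ, 0 ≤ ρ → ρ ≤ κ → ∃ u, ‖u - p‖ = ρ ∧ ‖expSum c S u‖ ≤ 2 := by
    intro ρ h0 h1
    obtain ⟨ζ, hζ, hFζ⟩ := hp ρ h0
    refine ⟨ζ, hζ, ?_⟩
    have hle : ‖ζ - p‖ ≤ 128 * r := by rw [hζ]; rw [hκ] at h1; linarith
    have h2 := hFS ζ hle
    calc ‖expSum c S ζ‖ = ‖F ζ - (F ζ - expSum c S ζ)‖ := by congr 1; ring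
      _ ≤ ‖F ζ‖ + ‖F ζ - expSum c S ζ‖ := norm_sub_le _ _
      _ ≤ 2 := by linarith
  have hrem : ∀ u : ℂ, ‖u - p‖ ≤ κ →
      ‖expSum c S u‖ ≤ Real.exp (100 * (S.card + 4 * ℓ * κ) + 13) * 2 := fun u hu =>
    expSum_remez c S (4 * ℓ) hS (by positivity) p κ hκ0 2 (by norm_num) hE u hu
  have hdisc := expSum_from_disc c S (4 * ℓ) hS (by positivity) p w (128 * r) κ 1638400
    (by norm_num) hw (by rw [hκ]; push_cast; linarith)
    (Real.exp (100 * (S.card + 4 * ℓ * κ) + 13) * 2) (by positivity) hrem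
  have hmax : max 0 (w.re - p.re) = 0 := max_eq_left (by linarith)
  rw [hmax, mul_zero, Real.exp_zero, mul_one] at hdisc
  have hpow : (2 * Real.exp 1 * ((1638400 : ℕ) : ℝ)) ^ S.card
      ≤ Real.exp (161 / 10 * (S.card : ℝ)) := by
    rw [mul_comm (161 / 10 : ℝ), Real.exp_nat_mul]
    exact pow_le_pow_left₀ (by positivity) lr_exp_const _
  have h2e : (2:ℝ) ≤ Real.exp 1 := by linarith [Real.exp_one_gt_d9]
  have hN : (S.card : ℝ) ≤ 8 / 100000 * (ℓ * r) := by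
    rw [hr]; linarith
  have hL : ‖expSum c S w‖ ≤ Real.exp (41 / 1000 * (ℓ * r) + 14) := by
    calc ‖expSum c S w‖ ≤ (2 * Real.exp 1 * ((1638400 : ℕ) : ℝ)) ^ S.card
          * (Real.exp (100 * (S.card + 4 * ℓ * κ) + 13) * 2) := hdisc
      _ ≤ Real.exp (161 / 10 * (S.card : ℝ))
          * (Real.exp (100 * (S.card + 4 * ℓ * κ) + 13) * Real.exp 1) := by
          apply mul_le_mul hpow _ (by positivity) (Real.exp_pos _).le
          exact mul_le_mul_of_nonneg_left h2e (Real.exp_pos _).le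
      _ = Real.exp (161 / 10 * (S.card : ℝ) + (100 * (S.card + 4 * ℓ * κ) + 13 + 1)) := by
          rw [← Real.exp_add, ← Real.exp_add]
      _ ≤ Real.exp (41 / 1000 * (ℓ * r) + 14) := by
          apply Real.exp_le_exp.mpr
          have : 4 * ℓ * κ = (ℓ * r) / 3200 := by rw [hκ]; ring
          rw [this]
          linarith
  have hF1 : ‖F w‖ ≤ ‖expSum c S w‖ + 1 := by
    calc ‖F w‖ = ‖expSum c S w + (F w - expSum c S w)‖ := by congr 1; ring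
      _ ≤ ‖expSum c S w‖ + ‖F w - expSum c S w‖ := norm_add_le _ _
      _ ≤ ‖expSum c S w‖ + 1 := by linarith [hFS w hw]
  have h1e : (1:ℝ) ≤ Real.exp (41 / 1000 * (ℓ * r) + 14) := Real.one_le_exp (by linarith)
  calc ‖F w‖ ≤ Real.exp (41 / 1000 * (ℓ * r) + 14) * 2 := by linarith
    _ ≤ Real.exp (41 / 1000 * (ℓ * r) + 14) * Real.exp 1 :=
        mul_le_mul_of_nonneg_left h2e (Real.exp_pos _).le
    _ = Real.exp (41 / 1000 * (ℓ * r) + 14 + 1) := (Real.exp_add _ _).symm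
    _ ≤ Real.exp (ℓ * r / 8) := by
        apply Real.exp_le_exp.mpr
        linarith

end Pool.Agent.GapReg
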