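import Pool.Agent.GapReg.Decouple
import Pool.Agent.GapReg.LowReach

set_option autoImplicit false

namespace Pool.Agent.GapReg

open Finset Filter Topology
open Pool.Agent.MP_e061a3_an

theorem HBAux.ball_of_low (F : ℂ → ℂ) (q : ℂ) (r s : ℝ) (hr0 : 0 < r)
    (hq : Low F q (64 * r) s) (u : ℂ) (hu : ‖u - (q - 2 * r)‖ ≤ r) : ‖F u‖ ≤ Real.exp s := by
  have h2r : ‖(2 * r : ℂ)‖ = 2 * r := by
    rw [norm_mul, Complex.norm_real, Real.norm_of_nonneg hr0.le]
    simp
  apply hq u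
  · have : u - q = (u - (q - 2 * r)) - 2 * r := by ring
    rw [this]
    refine (norm_sub_le _ _).trans ?_
    rw [h2r]
    linarith
  · have h1 : (u - (q - 2 * r)).re ≤ r :=
      (le_abs_self _).trans ((Complex.abs_re_le_norm _).trans hu)
    have h2 : |(u - (q - 2 * r)).im| ≤ r := (Complex.abs_im_le_norm _).trans hu
    have e1 : (u - (q - 2 * r)).re = u.re - q.re + 2 * r := by
      simp
      ring
    have e2 : (u - (q - 2 * r)).im = u.im - q.im := by
      simp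
    rw [e1] at h1
    rw [e2] at h2
    linarith

theorem low_of_horn (c : ℕ → ℂ) (hc : Ent c) (δ ℓ r : ℝ) (hδ : 0 < δ) (hℓ : 1 ≤ ℓ)
    (hD : Dens {m | c m ≠ 0} δ ℓ) (hr : r = 100000 * δ) (hs : 200 ≤ ℓ * r) (w₀ : ℂ) (ρ : ℝ)
    (hρ : r ≤ ρ) (hF : ∀ u : ℂ, ‖u - w₀‖ ≤ ρ → ‖Fs c u‖ ≤ Real.exp (ℓ * ρ)) (p : ℂ)
    (hp : Reach (Fs c) p) (hin : ∀ w : ℂ, ‖w - p‖ ≤ 128 * r → Horn w₀ ρ w) :
    ∀ w : ℂ, ‖w - p‖ ≤ 128 * r → w.re ≤ p.re → ‖Fs c w‖ ≤ Real.exp (ℓ * r / 8) := by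
  have hℓr : ℓ * r ≤ ℓ * ρ := mul_le_mul_of_nonneg_left hρ (by linarith)
  obtain ⟨S, hS1, hS2, hcard, hball, hhorn⟩ := decouple c hc δ ℓ ρ hδ hℓ hD (by linarith)
    (by linarith) w₀ hF
  exact low_of_reach (Fs c) c S δ ℓ r hδ hr hs hcard (fun m hm => (hS1 m hm).2) p hp
    (fun w hw => hhorn w (hin w hw))

theorem horn_bound (c : ℕ → ℂ) (hc : Ent c) (δ ℓ r : ℝ) (hδ : 0 < δ) (hℓ : 1 ≤ ℓ)
    (hD : Dens {m | c m ≠ 0} δ ℓ) (hr : r = 100000 * δ) (hs : 200 ≤ ℓ * r) (q : ℂ)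
    (hq : Low (Fs c) q (64 * r) (ℓ * r)) (w : ℂ) (hw : Horn (q - 2 * r) r w) :
    ‖Fs c w‖ ≤ Real.exp (ℓ * r * (3 + Real.log (1 + ‖w - q‖ / r) / 10000)) := by
  have hr0 : 0 < r := by rw [hr]; positivity
  set z₀ : ℂ := q - 2 * r with hz₀
  have hF : ∀ u : ℂ, ‖u - z₀‖ ≤ r → ‖Fs c u‖ ≤ Real.exp (ℓ * r) := fun u hu =>
    HBAux.ball_of_low (Fs c) q r (ℓ * r) hr0 hq u hu
  obtain ⟨S, hS1, hS2, hcard, hball, hhorn⟩ := decouple c hc δ ℓ r hδ hℓ hD (by linarith)
    (by linarith) z₀ hF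
  have hdiff := hhorn w hw
  -- geometry
  set y : ℝ := ‖w - z₀‖ / r with hy
  have hy0 : 0 ≤ y := by positivity
  have hL0 : 0 ≤ Real.log (1 + y) := Real.log_nonneg (by linarith)
  have hw' : 8 * r * (1 + Real.log (1 + y)) ≤ z₀.re - w.re := hw
  have hDρ : 8 * r ≤ z₀.re - w.re := by nlinarith
  have hre : w.re ≤ z₀.re := by linarith
  have hDn : z₀.re - w.re ≤ ‖w - z₀‖ := by
    have key : ∀ a b : ℂ, a.re - b.re = -((b - a).re) := fun a b => by
      rw [Complex.sub_re]; ring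
    have h1 : z₀.re - w.re = -((w - z₀).re) := key z₀ w
    rw [h1]
    exact (neg_le_abs _).trans (Complex.abs_re_le_norm _)
  have hnorm : ‖w - z₀‖ = y * r := by
    rw [hy]
    field_simp
  have hy8 : 8 ≤ y := by
    rw [hy, le_div_iff₀ hr0]
    linarith
  set Y : ℝ := ‖w - q‖ / r with hY
  have hY0 : 0 ≤ Y := by positivity
  have hyY : y ≤ Y + 2 := by
    have h1 : ‖w - z₀‖ ≤ ‖w - q‖ + 2 * r := by
      have : w - z₀ = (w - q) + 2 * r := by rw [hz₀]; ring
      rw [this]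
      refine (norm_add_le _ _).trans ?_
      have h2r : ‖(2 * r : ℂ)‖ = 2 * r := by
        rw [norm_mul, Complex.norm_real, Real.norm_of_nonneg hr0.le]
        simp
      rw [h2r]
    rw [hy, hY, div_add' _ _ _ hr0.ne', div_le_div_iff_of_pos_right hr0]
    exact h1
  set K : ℕ := ⌈2 * y⌉₊ with hK
  have hK1 : 2 * y ≤ K := Nat.le_ceil _
  have hK2 : (K : ℝ) < 2 * y + 1 := Nat.ceil_lt_add_one (by positivity)
  have hK2' : 1 ≤ K := by
    have : (1 : ℝ) ≤ K := by linarith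
    exact_mod_cast this
  have hE := expSum_from_disc c S (4 * ℓ) (fun m hm => (hS1 m hm).2) (by linarith) z₀ w
    (‖w - z₀‖) (r / 2) K hK2' le_rfl (by rw [hnorm]; nlinarith) (Real.exp (2 * (ℓ * r)))
    (Real.exp_pos _).le hball
  rw [max_eq_left (by linarith : w.re - z₀.re ≤ 0), mul_zero, Real.exp_zero, mul_one] at hE
  set Λ : ℝ := Real.log (1 + Y) with hΛ
  have hΛ0 : 0 ≤ Λ := Real.log_nonneg (by linarith)
  have hℓr : 0 < ℓ * r := by linarith
  have hN : (S.card : ℝ) ≤ 8 / 100000 * (ℓ * r) := by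
    refine hcard.trans (le_of_eq ?_)
    rw [hr]
    ring
  have hpow : (2 * Real.exp 1 * K) ^ S.card ≤ Real.exp (8 / 100000 * (ℓ * r) * (4 + Λ)) := by
    have hb : 2 * Real.exp 1 * K ≤ Real.exp (4 + Λ) := by
      have h5 : (2.7:ℝ) ≤ Real.exp 1 := by
        have := Real.exp_one_gt_d9
        linarith
      have h4 : (10 : ℝ) ≤ Real.exp 3 := by
        have h6 : Real.exp 3 = Real.exp 1 ^ 3 := by
          rw [← Real.exp_nat_mul]
          norm_num
        rw [h6]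
        calc (10 : ℝ) ≤ 2.7 ^ 3 := by norm_num
          _ ≤ _ := pow_le_pow_left₀ (by norm_num) h5 3
      have e1 : Real.exp (4 + Λ) = Real.exp 1 * Real.exp 3 * (1 + Y) := by
        rw [hΛ, show (4 + Real.log (1 + Y) : ℝ) = 1 + 3 + Real.log (1 + Y) by ring,
          Real.exp_add, Real.exp_add, Real.exp_log (by linarith)]
      rw [e1]
      have h8 : (K : ℝ) ≤ 5 * (1 + Y) := by linarith
      calc 2 * Real.exp 1 * K ≤ 2 * Real.exp 1 * (5 * (1 + Y)) := by gcongr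
        _ = Real.exp 1 * 10 * (1 + Y) := by ring
        _ ≤ _ := by gcongr
    calc (2 * Real.exp 1 * K) ^ S.card ≤ Real.exp (4 + Λ) ^ S.card :=
          pow_le_pow_left₀ (by positivity) hb _
      _ = Real.exp (S.card * (4 + Λ)) := by rw [← Real.exp_nat_mul]
      _ ≤ _ := by
          apply Real.exp_le_exp.mpr
          apply mul_le_mul_of_nonneg_right hN
          linarith
  have hmain : ‖expSum c S w‖ ≤ Real.exp (8 / 100000 * (ℓ * r) * (4 + Λ) + 2 * (ℓ * r)) := by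
    refine hE.trans ?_
    rw [Real.exp_add]
    exact mul_le_mul_of_nonneg_right hpow (Real.exp_pos _).le
  have h1 : ‖Fs c w‖ ≤ Real.exp (8 / 100000 * (ℓ * r) * (4 + Λ) + 2 * (ℓ * r)) + 1 := by
    have : Fs c w = (Fs c w - expSum c S w) + expSum c S w := by ring
    rw [this]
    refine (norm_add_le _ _).trans ?_
    linarith
  refine h1.trans ?_
  set E : ℝ := 8 / 100000 * (ℓ * r) * (4 + Λ) + 2 * (ℓ * r) with hEdef
  have hE0 : 0 ≤ E := by positivity
  have h2 : Real.exp E + 1 ≤ Real.exp (E + 1) := by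
    have h3 : 1 ≤ Real.exp E := Real.one_le_exp hE0
    have h4 : (2:ℝ) ≤ Real.exp 1 := by
      have := Real.exp_one_gt_d9
      linarith
    rw [Real.exp_add E 1]
    nlinarith
  refine h2.trans (Real.exp_le_exp.mpr ?_)
  have h5 : 0 ≤ ℓ * r * Λ := by positivity
  rw [hEdef]
  nlinarith

theorem ray_bound (c : ℕ → ℂ) (hc : Ent c) (δ ℓ r : ℝ) (hδ : 0 < δ) (hℓ : 1 ≤ ℓ)
    (hD : Dens {m | c m ≠ 0} δ ℓ) (hr : r = 100000 * δ) (hs : 200 ≤ ℓ * r) (q : ℂ)
    (hq : Low (Fs c) q (64 * r) (ℓ * r)) (x : ℝ) (hx : 0 ≤ x) :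
    ‖Fs c (q - x)‖ ≤ Real.exp (ℓ * r * (3 + Real.log (1 + x / r) / 10000)) := by
  have hr0 : 0 < r := by rw [hr]; positivity
  have hnx : ‖(q - x : ℂ) - q‖ = x := by
    have : (q - x : ℂ) - q = -(x : ℂ) := by ring
    rw [this, norm_neg, Complex.norm_real, Real.norm_of_nonneg hx]
  have hxr : 0 ≤ x / r := by positivity
  rcases le_or_gt x (64 * r) with h | h
  · have h1 := hq (q - x) (by rw [hnx]; exact h) (by simp [hx])
    refine h1.trans (Real.exp_le_exp.mpr ?_)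
    have h2 : 0 ≤ Real.log (1 + x / r) := Real.log_nonneg (by linarith)
    have h3 : 0 ≤ ℓ * r * Real.log (1 + x / r) := by
      have : 0 < ℓ * r := by linarith
      positivity
    nlinarith
  · have hh : Horn (q - 2 * r) r (q - x) := by
      have e1 : ‖(q - x : ℂ) - (q - 2 * r)‖ = x - 2 * r := by
        have : (q - x : ℂ) - (q - 2 * r) = -(((x - 2 * r : ℝ)) : ℂ) := by push_cast; ring
        rw [this, norm_neg, Complex.norm_real, Real.norm_of_nonneg (by linarith)]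
      unfold Horn
      rw [e1]
      have e2 : (q - 2 * r : ℂ).re - (q - x : ℂ).re = x - 2 * r := by
        simp
      rw [e2]
      set y : ℝ := (x - 2 * r) / r with hy
      have hyr : x - 2 * r = y * r := by rw [hy]; field_simp
      have hy62 : 62 ≤ y := by
        rw [hy, le_div_iff₀ hr0]
        linarith
      have hlog : Real.log (1 + y) ≤ 416 / 100 + ((1 + y) / 63 - 1) := by
        have h1 : Real.log (1 + y) = Real.log 63 + Real.log ((1 + y) / 63) := by
          rw [← Real.log_mul (by norm_num) (by positivity)]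
          congr 1
          field_simp
        have h2 : Real.log ((1 + y) / 63) ≤ (1 + y) / 63 - 1 :=
          Real.log_le_sub_one_of_pos (by positivity)
        have h3 : Real.log 63 ≤ 416 / 100 := by
          have h4 : Real.log 63 ≤ Real.log (2 ^ 6) := Real.log_le_log (by norm_num) (by norm_num)
          rw [Real.log_pow] at h4
          have := Real.log_two_lt_d9
          push_cast at h4
          linarith
        rw [h1]
        linarith
      rw [hyr]
      nlinarith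
    have h1 := horn_bound c hc δ ℓ r hδ hℓ hD hr hs q hq (q - x) hh
    rw [hnx] at h1
    exact h1

end Pool.Agent.GapReg
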