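import Pool.Agent.GapReg.Defs

set_option autoImplicit false

/-!
# Winding number of closed polygons (module IX)
-/

namespace Pool.Agent.GapReg

open Finset Filter Topology
open Pool.Agent.MP_e061a3_an

namespace IXAux

theorem segment_compact (a b : ℂ) : IsCompact (segment ℝ a b) := by
  rw [segment_eq_image ℝ a b]
  exact isCompact_Icc.image (by fun_prop)

theorem poly_compact (v : ℕ → ℂ) (n : ℕ) : IsCompact (Poly v n) := by
  have h : Poly v n = ⋃ k ∈ range n, segment ℝ (v k) (v (k + 1)) := by
    ext z; simp [Poly]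
  rw [h]
  exact (range n).isCompact_biUnion (fun k _ => segment_compact _ _)

theorem left_not_mem {v : ℕ → ℂ} {n : ℕ} {w : ℂ} (hw : w ∉ Poly v n) {k : ℕ} (hk : k < n) :
    v k - w ≠ 0 := by
  intro h
  apply hw
  refine ⟨k, hk, ?_⟩
  have : w = v k := (sub_eq_zero.mp h).symm
  rw [this]; exact left_mem_segment ℝ _ _

theorem right_not_mem {v : ℕ → ℂ} {n : ℕ} {w : ℂ} (hw : w ∉ Poly v n) {k : ℕ} (hk : k < n) :
    v (k + 1) - w ≠ 0 := by
  intro h
  apply hw
  refine ⟨k, hk, ?_⟩
  have : w = v (k + 1) := (sub_eq_zero.mp h).symm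
  rw [this]; exact right_mem_segment ℝ _ _

theorem ratio_slit (a b w : ℂ) (ha : a - w ≠ 0) (h : w ∉ segment ℝ a b) :
    (b - w) / (a - w) ∈ Complex.slitPlane := by
  by_contra hn
  rw [Complex.mem_slitPlane_iff, not_or, not_lt, not_not] at hn
  obtain ⟨h1, h2⟩ := hn
  apply h
  set s : ℝ := -((b - w) / (a - w)).re with hs
  have hs0 : 0 ≤ s := by rw [hs]; linarith
  have hr : (b - w) / (a - w) = -(s : ℂ) := by
    apply Complex.ext
    · simp [hs]
    · simp [h2]
  have hb : b - w = -(s : ℂ) * (a - w) := by
    rw [← hr]; field_simp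
  have hs1 : (0 : ℝ) < 1 + s := by linarith
  refine ⟨s / (1 + s), 1 / (1 + s), by positivity, by positivity, by field_simp; ring, ?_⟩
  have hs1' : (1 + (s : ℂ)) ≠ 0 := by
    have : ((1 + s : ℝ) : ℂ) ≠ 0 := by exact_mod_cast hs1.ne'
    simpa using this
  rw [Complex.real_smul, Complex.real_smul]
  push_cast
  have e : w * (1 + s) = b + s * a := by linear_combination (-1 : ℂ) * hb
  field_simp
  linear_combination (-1 : ℂ) * e

theorem poly_slit {v : ℕ → ℂ} {n : ℕ} {w : ℂ} (hw : w ∉ Poly v n) {k : ℕ} (hk : k < n) :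
    (v (k + 1) - w) / (v k - w) ∈ Complex.slitPlane :=
  ratio_slit _ _ _ (left_not_mem hw hk) (fun h => hw ⟨k, hk, h⟩)

theorem wind_continuousAt (v : ℕ → ℂ) (n : ℕ) {w : ℂ} (hw : w ∉ Poly v n) :
    ContinuousAt (wind v n) w := by
  unfold wind
  apply tendsto_finsetSum
  intro k hk
  have hk' : k < n := Finset.mem_range.mp hk
  have h1 : ContinuousAt (fun w => (v (k + 1) - w) / (v k - w)) w :=
    ContinuousAt.div (by fun_prop) (by fun_prop) (left_not_mem hw hk')
  exact ContinuousAt.clog h1 (poly_slit hw hk')

theorem exp_wind (v : ℕ → ℂ) (n : ℕ) (hv : v n = v 0) {w : ℂ} (hw : w ∉ Poly v n) :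
    Complex.exp (wind v n w) = 1 := by
  unfold wind
  rw [Complex.exp_sum]
  have h1 : ∀ k ∈ range n, Complex.exp (Complex.log ((v (k + 1) - w) / (v k - w))) =
      (v (k + 1) - w) / (v k - w) := by
    intro k hk
    have hk' : k < n := Finset.mem_range.mp hk
    exact Complex.exp_log (Complex.slitPlane_ne_zero (poly_slit hw hk'))
  rw [Finset.prod_congr rfl h1]
  rcases Nat.eq_zero_or_pos n with rfl | hn
  · simp
  · have h2 : ∀ m ≤ n, ∏ k ∈ range m, (v (k + 1) - w) / (v k - w) = (v m - w) / (v 0 - w) := by
      intro m hm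
      induction m with
      | zero =>
        have : v 0 - w ≠ 0 := left_not_mem hw hn
        simp [this]
      | succ m ih =>
        have h3 : v m - w ≠ 0 := left_not_mem hw (by omega)
        have h4 : v 0 - w ≠ 0 := left_not_mem hw hn
        rw [Finset.prod_range_succ, ih (by omega)]
        field_simp
    rw [h2 n le_rfl, hv]
    exact div_self (left_not_mem hw hn)

theorem wind_eq_zero_of_small (v : ℕ → ℂ) (n : ℕ) (hv : v n = v 0) {w : ℂ} (hw : w ∉ Poly v n)
    (hs : ‖wind v n w‖ < 2 * Real.pi) : wind v n w = 0 := by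
  obtain ⟨m, hm⟩ := Complex.exp_eq_one_iff.mp (exp_wind v n hv hw)
  rw [hm] at hs ⊢
  have h1 : ‖(m : ℂ) * (2 * Real.pi * Complex.I)‖ = |(m : ℝ)| * (2 * Real.pi) := by
    rw [norm_mul, norm_mul, norm_mul]
    simp [abs_of_pos Real.pi_pos]
  rw [h1] at hs
  have h2 : |(m : ℝ)| < 1 := by
    have := Real.pi_pos
    by_contra hc
    push Not at hc
    nlinarith
  have h3 : m = 0 := by
    have : |m| < 1 := by exact_mod_cast h2
    exact Int.abs_lt_one_iff.mp this
  simp [h3]

/-- If the segment from `a` to `b` avoids the half line, the logarithms subtract. -/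
theorem log_div_of_segment (a b : ℂ) (h : ∀ z ∈ segment ℝ a b, z ∈ Complex.slitPlane) :
    Complex.log (b / a) = Complex.log b - Complex.log a := by
  have ha : a ∈ Complex.slitPlane := h a (left_mem_segment ℝ _ _)
  have hb : b ∈ Complex.slitPlane := h b (right_mem_segment ℝ _ _)
  have ha0 : a ≠ 0 := Complex.slitPlane_ne_zero ha
  have hb0 : b ≠ 0 := Complex.slitPlane_ne_zero hb
  have haπ : Complex.arg a ≠ Real.pi := (Complex.mem_slitPlane_iff_arg.mp ha).1
  have hbπ : Complex.arg b ≠ Real.pi := (Complex.mem_slitPlane_iff_arg.mp hb).1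
  have haπ' : Complex.arg a < Real.pi := lt_of_le_of_ne (Complex.arg_le_pi a) haπ
  have hbπ' : Complex.arg b < Real.pi := lt_of_le_of_ne (Complex.arg_le_pi b) hbπ
  have e : b / a = Complex.exp (Complex.log b - Complex.log a) := by
    rw [Complex.exp_sub, Complex.exp_log ha0, Complex.exp_log hb0]
  have him : (Complex.log b - Complex.log a).im = Complex.arg b - Complex.arg a := by
    rw [Complex.sub_im, Complex.log_im, Complex.log_im]
  -- the cross product
  have cross : ‖a‖ * ‖b‖ * Real.sin (Complex.arg b - Complex.arg a) = b.im * a.re - b.re * a.im := by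
    rw [Real.sin_sub]
    have h1 : ‖b‖ * Real.sin (Complex.arg b) = b.im := by
      rw [Complex.sin_arg]; field_simp [norm_ne_zero_iff.mpr hb0]
    have h2 : ‖a‖ * Real.cos (Complex.arg a) = a.re := by
      rw [Complex.cos_arg ha0]; field_simp [norm_ne_zero_iff.mpr ha0]
    have h3 : ‖a‖ * Real.sin (Complex.arg a) = a.im := by
      rw [Complex.sin_arg]; field_simp [norm_ne_zero_iff.mpr ha0]
    have h4 : ‖b‖ * Real.cos (Complex.arg b) = b.re := by
      rw [Complex.cos_arg hb0]; field_simp [norm_ne_zero_iff.mpr hb0]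
    rw [← h1, ← h2, ← h3, ← h4]; ring
  have hnorm : 0 < ‖a‖ * ‖b‖ := mul_pos (norm_pos_iff.mpr ha0) (norm_pos_iff.mpr hb0)
  have key : -Real.pi < Complex.arg b - Complex.arg a ∧ Complex.arg b - Complex.arg a ≤ Real.pi := by
    rcases le_or_gt 0 a.im with hai | hai
    · have h5 : 0 ≤ Complex.arg a := Complex.arg_nonneg_iff.mpr hai
      rcases le_or_gt 0 b.im with hbi | hbi
      · have h6 : 0 ≤ Complex.arg b := Complex.arg_nonneg_iff.mpr hbi
        constructor <;> linarith
      · have h6 : Complex.arg b < 0 := Complex.arg_neg_iff.mpr hbi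
        have h7 := Complex.neg_pi_lt_arg b
        refine ⟨?_, by linarith [Real.pi_pos]⟩
        by_contra hc
        push Not at hc
        -- crossing point
        have hd : 0 < a.im - b.im := by linarith
        have hz := h (((-b.im) / (a.im - b.im)) • a + (a.im / (a.im - b.im)) • b)
          ⟨(-b.im) / (a.im - b.im), a.im / (a.im - b.im), by apply div_nonneg <;> linarith,
            by positivity, by field_simp; ring, rfl⟩
        rw [Complex.mem_slitPlane_iff] at hz
        have hzim : ((((-b.im) / (a.im - b.im)) • a + (a.im / (a.im - b.im)) • b : ℂ)).im = 0 := by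
          simp only [Complex.add_im, Complex.real_smul, Complex.mul_im, Complex.ofReal_re,
            Complex.ofReal_im]
          field_simp
          ring
        have hzre : 0 < ((((-b.im) / (a.im - b.im)) • a + (a.im / (a.im - b.im)) • b : ℂ)).re := by
          rcases hz with hz | hz
          · exact hz
          · exact absurd hzim hz
        simp only [Complex.add_re, Complex.real_smul, Complex.mul_re, Complex.ofReal_re,
            Complex.ofReal_im] at hzre
        have hpos : 0 < (-b.im) * a.re + a.im * b.re := by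
          have : (-b.im / (a.im - b.im) * a.re - 0 * a.im + (a.im / (a.im - b.im) * b.re - 0 * b.im))
            = ((-b.im) * a.re + a.im * b.re) / (a.im - b.im) := by field_simp; ring
          rw [this] at hzre
          exact (div_pos_iff_of_pos_right hd).mp hzre
        have hsin : 0 ≤ Real.sin (Complex.arg b - Complex.arg a) := by
          have : Real.sin (Complex.arg b - Complex.arg a) =
              Real.sin (Complex.arg b - Complex.arg a + 2 * Real.pi) := by
            rw [Real.sin_add_two_pi]
          rw [this]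
          apply Real.sin_nonneg_of_nonneg_of_le_pi <;> linarith
        have := mul_nonneg hnorm.le hsin
        rw [cross] at this
        linarith
    · have h5 : Complex.arg a < 0 := Complex.arg_neg_iff.mpr hai
      have h5' := Complex.neg_pi_lt_arg a
      rcases le_or_gt 0 b.im with hbi | hbi
      · have h6 : 0 ≤ Complex.arg b := Complex.arg_nonneg_iff.mpr hbi
        refine ⟨by linarith [Real.pi_pos], ?_⟩
        by_contra hc
        push Not at hc
        have hd : 0 < b.im - a.im := by linarith
        have hz := h ((b.im / (b.im - a.im)) • a + ((-a.im) / (b.im - a.im)) • b)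
          ⟨b.im / (b.im - a.im), (-a.im) / (b.im - a.im), by positivity,
            by apply div_nonneg <;> linarith, by field_simp; ring, rfl⟩
        rw [Complex.mem_slitPlane_iff] at hz
        have hzim : (((b.im / (b.im - a.im)) • a + ((-a.im) / (b.im - a.im)) • b : ℂ)).im = 0 := by
          simp only [Complex.add_im, Complex.real_smul, Complex.mul_im, Complex.ofReal_re,
            Complex.ofReal_im]
          field_simp
          ring
        have hzre : 0 < (((b.im / (b.im - a.im)) • a + ((-a.im) / (b.im - a.im)) • b : ℂ)).re := by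
          rcases hz with hz | hz
          · exact hz
          · exact absurd hzim hz
        simp only [Complex.add_re, Complex.real_smul, Complex.mul_re, Complex.ofReal_re,
            Complex.ofReal_im] at hzre
        have hpos : 0 < b.im * a.re + (-a.im) * b.re := by
          have : (b.im / (b.im - a.im) * a.re - 0 * a.im + (-a.im / (b.im - a.im) * b.re - 0 * b.im))
            = (b.im * a.re + (-a.im) * b.re) / (b.im - a.im) := by field_simp; ring
          rw [this] at hzre
          exact (div_pos_iff_of_pos_right hd).mp hzre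
        have hsin : Real.sin (Complex.arg b - Complex.arg a) ≤ 0 := by
          have : Real.sin (Complex.arg b - Complex.arg a) =
              Real.sin (Complex.arg b - Complex.arg a - 2 * Real.pi) := by
            rw [Real.sin_sub_two_pi]
          rw [this]
          apply Real.sin_nonpos_of_nonpos_of_neg_pi_le <;> linarith
        have := mul_nonpos_of_nonneg_of_nonpos hnorm.le hsin
        rw [cross] at this
        linarith
      · have h6 : Complex.arg b < 0 := Complex.arg_neg_iff.mpr hbi
        have h7 := Complex.neg_pi_lt_arg b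
        constructor <;> linarith
  rw [e, Complex.log_exp (by rw [him]; exact key.1) (by rw [him]; exact key.2)]

end IXAux

open IXAux

theorem isOpen_Encl (v : ℕ → ℂ) (n : ℕ) (hv : v n = v 0) : IsOpen (Encl v n) := by
  have _ := hv
  rw [isOpen_iff_mem_nhds]
  rintro w ⟨h1, h2⟩
  have h3 : ∀ᶠ w' in 𝓝 w, w' ∉ Poly v n :=
    (poly_compact v n).isClosed.isOpen_compl.mem_nhds h1
  have h4 : ∀ᶠ w' in 𝓝 w, wind v n w' ≠ 0 := (wind_continuousAt v n h1).eventually_ne h2
  filter_upwards [h3, h4] with w' h5 h6
  exact ⟨h5, h6⟩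

theorem frontier_Encl_subset (v : ℕ → ℂ) (n : ℕ) (hv : v n = v 0) :
    frontier (Encl v n) ⊆ Poly v n := by
  intro w hw
  by_contra hn
  have hopen := isOpen_Encl v n hv
  rw [hopen.frontier_eq] at hw
  obtain ⟨hcl, hnot⟩ := hw
  have h0 : wind v n w = 0 := by
    by_contra h
    exact hnot ⟨hn, h⟩
  have h3 : ∀ᶠ w' in 𝓝 w, w' ∉ Poly v n :=
    (poly_compact v n).isClosed.isOpen_compl.mem_nhds hn
  have h4 : ∀ᶠ w' in 𝓝 w, ‖wind v n w'‖ < 2 * Real.pi := by
    have hc : ContinuousAt (fun w' => ‖wind v n w'‖) w := (wind_continuousAt v n hn).norm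
    apply hc.eventually_lt continuousAt_const
    rw [h0, norm_zero]; have := Real.pi_pos; positivity
  have h5 : ∀ᶠ w' in 𝓝 w, w' ∉ Encl v n := by
    filter_upwards [h3, h4] with w' h6 h7
    intro h8
    exact h8.2 (wind_eq_zero_of_small v n hv h6 h7)
  rw [mem_closure_iff_frequently] at hcl
  exact hcl h5

theorem isBounded_Encl (v : ℕ → ℂ) (n : ℕ) (hv : v n = v 0) :
    Bornology.IsBounded (Encl v n) := by
  have h1 : Tendsto (wind v n) (Bornology.cobounded ℂ) (𝓝 0) := by
    have h2 : (0 : ℂ) = ∑ k ∈ range n, (0 : ℂ) := by simp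
    rw [h2]
    unfold wind
    apply tendsto_finsetSum
    intro k _
    have h3 : Tendsto (fun w : ℂ => (v (k + 1) - w) / (v k - w)) (Bornology.cobounded ℂ) (𝓝 1) := by
      have h4 : Tendsto (fun w : ℂ => v k - w) (Bornology.cobounded ℂ) (Bornology.cobounded ℂ) := by
        rw [← tendsto_norm_atTop_iff_cobounded]
        have h5 : Tendsto (fun w : ℂ => ‖w‖ - ‖v k‖) (Bornology.cobounded ℂ) atTop :=
          tendsto_atTop_add_const_right _ _ tendsto_norm_cobounded_atTop
        refine tendsto_atTop_mono (fun w => ?_) h5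
        rw [norm_sub_rev]; exact norm_sub_norm_le _ _
      have h6 : Tendsto (fun w : ℂ => (v (k + 1) - v k) * (v k - w)⁻¹) (Bornology.cobounded ℂ)
          (𝓝 ((v (k + 1) - v k) * 0)) :=
        (tendsto_inv₀_cobounded.comp h4).const_mul _
      have h7 : Tendsto (fun w : ℂ => 1 + (v (k + 1) - v k) * (v k - w)⁻¹) (Bornology.cobounded ℂ)
          (𝓝 (1 + (v (k + 1) - v k) * 0)) := h6.const_add 1
      rw [mul_zero, add_zero] at h7
      refine h7.congr' ?_
      have h8 : ∀ᶠ w : ℂ in Bornology.cobounded ℂ, v k - w ≠ 0 := by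
        have h9 := tendsto_norm_atTop_iff_cobounded.mpr h4
        filter_upwards [h9.eventually_gt_atTop 0] with w hw
        exact norm_pos_iff.mp hw
      filter_upwards [h8] with w hw
      field_simp
      ring
    have h10 : Tendsto (fun w : ℂ => Complex.log ((v (k + 1) - w) / (v k - w)))
        (Bornology.cobounded ℂ) (𝓝 (Complex.log 1)) :=
      (continuousAt_clog (by simp [Complex.mem_slitPlane_iff])).tendsto.comp h3
    rwa [Complex.log_one] at h10
  have h2 : ∀ᶠ w in Bornology.cobounded ℂ, ‖wind v n w‖ < 2 * Real.pi := by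
    have h3 := h1.norm
    rw [norm_zero] at h3
    exact h3.eventually_lt_const (by have := Real.pi_pos; positivity)
  have h3 : ∀ᶠ w in Bornology.cobounded ℂ, w ∉ Encl v n := by
    filter_upwards [h2] with w hw
    intro h
    exact h.2 (wind_eq_zero_of_small v n hv h.1 hw)
  have h4 : (Encl v n)ᶜ ∈ Bornology.cobounded ℂ := h3
  rw [Bornology.isBounded_def]
  exact h4

theorem mem_Encl_of_left (v : ℕ → ℂ) (n : ℕ) (hv : v n = v 0) (w : ℂ) (k₀ : ℕ) (hk₀ : k₀ < n)
    (h : ∀ k < n, k ≠ k₀ → ∀ z ∈ segment ℝ (v k) (v (k + 1)), z.im = w.im → w.re < z.re)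
    (h0 : (v k₀).re = (v (k₀ + 1)).re) (h1 : (v k₀).re < w.re) (h2 : w.im < (v k₀).im)
    (h3 : (v (k₀ + 1)).im < w.im) : w ∈ Encl v n := by
  have hP : w ∉ Poly v n := by
    rintro ⟨k, hk, hz⟩
    by_cases hkk : k = k₀
    · subst hkk
      obtain ⟨s, t, hs, ht, hst, he⟩ := hz
      have : w.re = s * (v k).re + t * (v (k + 1)).re := by
        rw [← he]; simp
      rw [← h0, ← add_mul, hst, one_mul] at this
      linarith
    · exact lt_irrefl _ (h k hk hkk w hz rfl)
  refine ⟨hP, ?_⟩
  -- logarithms of the other sides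
  have hlog : ∀ k < n, k ≠ k₀ → Complex.log ((v (k + 1) - w) / (v k - w)) =
      Complex.log (v (k + 1) - w) - Complex.log (v k - w) := by
    intro k hk hkk
    apply log_div_of_segment
    rintro z ⟨s, t, hs, ht, hst, he⟩
    have hm : z + w ∈ segment ℝ (v k) (v (k + 1)) := by
      refine ⟨s, t, hs, ht, hst, ?_⟩
      rw [← he]
      simp only [Complex.real_smul]
      have : (s : ℂ) + t = 1 := by exact_mod_cast hst
      linear_combination w * this
    rw [Complex.mem_slitPlane_iff]
    by_cases hi : z.im = 0
    · left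
      have := h k hk hkk (z + w) hm (by simp [hi])
      simpa using this
    · right; exact hi
  have hsum : wind v n w = Complex.log ((v (k₀ + 1) - w) / (v k₀ - w)) -
      (Complex.log (v (k₀ + 1) - w) - Complex.log (v k₀ - w)) := by
    have h4 : ∑ k ∈ range n, (Complex.log (v (k + 1) - w) - Complex.log (v k - w)) = 0 := by
      rw [Finset.sum_range_sub (fun k => Complex.log (v k - w)), hv, sub_self]
    have h5 : wind v n w - ∑ k ∈ range n, (Complex.log (v (k + 1) - w) - Complex.log (v k - w)) =
        Complex.log ((v (k₀ + 1) - w) / (v k₀ - w)) -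
      (Complex.log (v (k₀ + 1) - w) - Complex.log (v k₀ - w)) := by
      unfold wind
      rw [← Finset.sum_sub_distrib]
      rw [Finset.sum_eq_single k₀]
      · intro k hk hkk
        rw [hlog k (Finset.mem_range.mp hk) hkk, sub_self]
      · intro hk; exact absurd (Finset.mem_range.mpr hk₀) hk
    rw [h4, sub_zero] at h5
    exact h5
  rw [hsum]
  intro hz
  have him := congrArg Complex.im hz
  simp only [Complex.sub_im, Complex.log_im, Complex.zero_im] at him
  set a := v k₀ - w with ha
  set b := v (k₀ + 1) - w with hb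
  have hare : a.re < 0 := by rw [ha, Complex.sub_re]; linarith
  have hbre : b.re < 0 := by rw [hb, Complex.sub_re]; linarith
  have haim : 0 < a.im := by rw [ha, Complex.sub_im]; linarith
  have hbim : b.im < 0 := by rw [hb, Complex.sub_im]; linarith
  have h5 : Real.pi / 2 < Complex.arg a := by
    have := (Complex.abs_arg_le_pi_div_two_iff (z := a)).not.mpr (by push Not; exact hare)
    push Not at this
    rwa [abs_of_nonneg (Complex.arg_nonneg_iff.mpr haim.le)] at this
  have h6 : Complex.arg b < -(Real.pi / 2) := by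
    have := (Complex.abs_arg_le_pi_div_two_iff (z := b)).not.mpr (by push Not; exact hbre)
    push Not at this
    rw [abs_of_neg (Complex.arg_neg_iff.mpr hbim)] at this
    linarith
  have h7 := Complex.neg_pi_lt_arg (b / a)
  linarith

end Pool.Agent.GapReg
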