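import Pool.Agent.GapReg.Defs

set_option autoImplicit false

namespace Pool.Agent.GapReg

open Finset Filter Topology
open Pool.Agent.MP_e061a3_an

private lemma pr_tendsto (a : ℝ) :
    Tendsto (fun n : ℕ => Real.pi * a * ∏ j ∈ range n, (1 + a ^ 2 / ((j : ℝ) + 1) ^ 2)) atTop
      (𝓝 (Real.sinh (Real.pi * a))) := by
  have h := Complex.tendsto_euler_sin_prod (Complex.I * a)
  have h2 := (Complex.continuous_im.tendsto _).comp h
  have e1 : (Complex.sin (↑Real.pi * (Complex.I * a))).im = Real.sinh (Real.pi * a) := by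
    have : (↑Real.pi * (Complex.I * a) : ℂ) = ((Real.pi * a : ℝ) : ℂ) * Complex.I := by
      push_cast; ring
    rw [this, Complex.sin_mul_I, ← Complex.ofReal_sinh, Complex.im_ofReal_mul, Complex.I_im,
      mul_one]
  rw [e1] at h2
  refine h2.congr ?_
  intro n
  simp only [Function.comp_apply]
  have e2 : (↑Real.pi * (Complex.I * a) * ∏ j ∈ range n,
      (1 - (Complex.I * a) ^ 2 / ((j : ℂ) + 1) ^ 2) : ℂ)
      = ((Real.pi * a * ∏ j ∈ range n, (1 + a ^ 2 / ((j : ℝ) + 1) ^ 2) : ℝ) : ℂ) * Complex.I := by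
    push_cast
    have : ∀ j : ℕ, (1 - (Complex.I * a) ^ 2 / ((j : ℂ) + 1) ^ 2 : ℂ)
        = 1 + (a : ℂ) ^ 2 / ((j : ℂ) + 1) ^ 2 := by
      intro j
      rw [mul_pow, Complex.I_sq]
      ring
    simp_rw [this]
    ring
  rw [e2, Complex.im_ofReal_mul, Complex.I_im, mul_one]

private lemma pr_prod_le (a : ℝ) (ha : 0 ≤ a) (n : ℕ) :
    ∏ j ∈ range n, (1 + a ^ 2 / ((j : ℝ) + 1) ^ 2) ≤ Real.exp (Real.pi * a) := by
  rcases ha.eq_or_lt with h0 | h0
  · rw [← h0]; simp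
  have hpi := Real.pi_pos
  have hy : 0 < Real.pi * a := by positivity
  have hmono : Monotone (fun n : ℕ => Real.pi * a *
      ∏ j ∈ range n, (1 + a ^ 2 / ((j : ℝ) + 1) ^ 2)) := by
    apply monotone_nat_of_le_succ
    intro n
    rw [prod_range_succ]
    apply mul_le_mul_of_nonneg_left _ hy.le
    have hp : 0 ≤ ∏ j ∈ range n, (1 + a ^ 2 / ((j : ℝ) + 1) ^ 2) :=
      prod_nonneg (fun j _ => by positivity)
    have : 0 ≤ a ^ 2 / ((n : ℝ) + 1) ^ 2 := by positivity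
    nlinarith
  have h1 := hmono.ge_of_tendsto (pr_tendsto a) n
  have h2 : Real.sinh (Real.pi * a) ≤ Real.pi * a * Real.exp (Real.pi * a) := by
    set y := Real.pi * a with hydef
    rw [Real.sinh_eq]
    have e1 : Real.exp (-y) = Real.exp y * Real.exp (-(2 * y)) := by
      rw [← Real.exp_add]; congr 1; ring
    have e2 : 1 - 2 * y ≤ Real.exp (-(2 * y)) := by
      have := Real.add_one_le_exp (-(2 * y))
      linarith
    rw [e1]
    have e3 := Real.exp_pos y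
    nlinarith
  have h3 : Real.pi * a * ∏ j ∈ range n, (1 + a ^ 2 / ((j : ℝ) + 1) ^ 2)
      ≤ Real.pi * a * Real.exp (Real.pi * a) := h1.trans h2
  exact le_of_mul_le_mul_left h3 hy

private lemma pr_one_factor (δ ℓ x m n : ℝ) (hδ : 0 < δ) (hℓ : 1 ≤ ℓ) (hx : 0 ≤ x) (hm : 0 < m)
    (hn : 0 < n) (h : n ≤ δ * (m + √(ℓ * m))) :
    1 + (x / m) ^ 2 ≤ (1 + (2 * δ * x) ^ 2 / n ^ 2)
      * (1 + (2 * δ * √(ℓ * x)) ^ 2 / n ^ 2) ^ 2 := by
  have hsx : (√(ℓ * x)) ^ 2 = ℓ * x := Real.sq_sqrt (by positivity)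
  have hA : 0 ≤ (2 * δ * x) ^ 2 / n ^ 2 := by positivity
  have hB : 0 ≤ (2 * δ * √(ℓ * x)) ^ 2 / n ^ 2 := by positivity
  rcases le_total (√(ℓ * m)) m with hc | hc
  · have h1 : n ≤ 2 * δ * m := by nlinarith
    have h2 : x / m ≤ 2 * δ * x / n := by
      rw [div_le_div_iff₀ hm hn]
      nlinarith
    have h3 : (x / m) ^ 2 ≤ (2 * δ * x) ^ 2 / n ^ 2 := by
      rw [← div_pow]
      exact pow_le_pow_left₀ (by positivity) h2 2
    have h4 : 1 ≤ (1 + (2 * δ * √(ℓ * x)) ^ 2 / n ^ 2) ^ 2 := one_le_pow₀ (by linarith)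
    calc 1 + (x / m) ^ 2 ≤ (1 + (2 * δ * x) ^ 2 / n ^ 2) * 1 := by linarith
      _ ≤ _ := mul_le_mul_of_nonneg_left h4 (by linarith)
  · have h1 : n ≤ 2 * δ * √(ℓ * m) := by nlinarith
    have h2 : n ^ 2 ≤ 4 * δ ^ 2 * (ℓ * m) := by
      have := pow_le_pow_left₀ hn.le h1 2
      rw [mul_pow, Real.sq_sqrt (by positivity)] at this
      nlinarith
    have h3 : x / m ≤ (2 * δ * √(ℓ * x)) ^ 2 / n ^ 2 := by
      rw [mul_pow, hsx, div_le_div_iff₀ hm (by positivity)]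
      nlinarith [mul_le_mul_of_nonneg_left h2 hx]
    have h4 : 1 + (x / m) ^ 2 ≤ (1 + (2 * δ * √(ℓ * x)) ^ 2 / n ^ 2) ^ 2 := by
      have h5 : (x / m) ^ 2 ≤ ((2 * δ * √(ℓ * x)) ^ 2 / n ^ 2) ^ 2 :=
        pow_le_pow_left₀ (by positivity) h3 2
      nlinarith
    calc 1 + (x / m) ^ 2 ≤ 1 * (1 + (2 * δ * √(ℓ * x)) ^ 2 / n ^ 2) ^ 2 := by linarith
      _ ≤ _ := mul_le_mul_of_nonneg_right (by linarith) (by positivity)

theorem prod_one_add_sq_le (A : Set ℕ) (δ ℓ : ℝ) (hδ : 0 < δ) (hℓ : 1 ≤ ℓ) (hD : Dens A δ ℓ)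
    (S : Finset ℕ) (hS : ∀ m ∈ S, m ∈ A) (x : ℝ) (hx : 0 ≤ x) :
    ∏ m ∈ S, (1 + (x / m) ^ 2) ≤ Real.exp (13 * δ * ℓ + 13 * δ * x) := by
  have key : ∀ n : ℕ, ∀ S : Finset ℕ, (∀ m ∈ S, m ∈ A) → S.card = n →
      ∏ m ∈ S, (1 + (x / m) ^ 2) ≤ ∏ j ∈ range n, ((1 + (2 * δ * x) ^ 2 / ((j : ℝ) + 1) ^ 2)
        * (1 + (2 * δ * √(ℓ * x)) ^ 2 / ((j : ℝ) + 1) ^ 2) ^ 2) := by
    intro n
    induction n with
    | zero =>
      intro S _ hc
      rw [card_eq_zero.mp hc]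
      simp
    | succ n ih =>
      intro S hS hc
      have hne : S.Nonempty := card_pos.mp (by omega)
      set m := S.max' hne with hm
      have hmS : m ∈ S := S.max'_mem hne
      have hm0 : 0 < m := hD.1 m (hS m hmS)
      rw [← mul_prod_erase S _ hmS, prod_range_succ, mul_comm]
      have h1 := ih (S.erase m) (fun k hk => hS k (mem_of_mem_erase hk))
        (by rw [card_erase_of_mem hmS]; omega)
      have h2 := hD.2 S hS (m : ℝ) (Nat.cast_nonneg _)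
        (fun k hk => by exact_mod_cast S.le_max' k hk)
      rw [hc] at h2
      push_cast at h2
      have h3 := pr_one_factor δ ℓ x m ((n : ℝ) + 1) hδ hℓ hx (by exact_mod_cast hm0)
        (by positivity) h2
      exact mul_le_mul h1 h3 (by positivity) (prod_nonneg (fun j _ => by positivity))
  refine (key S.card S hS rfl).trans ?_
  rw [prod_mul_distrib, prod_pow]
  have ha := pr_prod_le (2 * δ * x) (by positivity) S.card
  have hb := pr_prod_le (2 * δ * √(ℓ * x)) (by positivity) S.card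
  have hb2 := pow_le_pow_left₀ (prod_nonneg (fun j _ => by positivity)) hb 2
  calc (∏ j ∈ range S.card, (1 + (2 * δ * x) ^ 2 / ((j : ℝ) + 1) ^ 2))
        * (∏ j ∈ range S.card, (1 + (2 * δ * √(ℓ * x)) ^ 2 / ((j : ℝ) + 1) ^ 2)) ^ 2
      ≤ Real.exp (Real.pi * (2 * δ * x)) * Real.exp (Real.pi * (2 * δ * √(ℓ * x))) ^ 2 :=
        mul_le_mul ha hb2 (pow_nonneg (prod_nonneg (fun j _ => by positivity)) 2)
          (Real.exp_pos _).le
    _ = Real.exp (Real.pi * (2 * δ * x) + 2 * (Real.pi * (2 * δ * √(ℓ * x)))) := by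
        rw [← Real.exp_nat_mul, ← Real.exp_add]
        norm_num
    _ ≤ Real.exp (13 * δ * ℓ + 13 * δ * x) := by
        apply Real.exp_le_exp.mpr
        have hpi : Real.pi < 3.15 := Real.pi_lt_d2
        have hpi0 := Real.pi_pos
        have hsq : √(ℓ * x) ≤ (ℓ + x) / 2 := by
          rw [Real.sqrt_le_left (by positivity)]
          nlinarith [sq_nonneg (ℓ - x)]
        have h1 : Real.pi * (2 * δ * x) ≤ 3.15 * (2 * δ * x) :=
          mul_le_mul_of_nonneg_right hpi.le (by positivity)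
        have h2 : Real.pi * (2 * δ * √(ℓ * x)) ≤ 3.15 * (2 * δ * ((ℓ + x) / 2)) := by
          apply mul_le_mul hpi.le _ (by positivity) (by norm_num)
          exact mul_le_mul_of_nonneg_left hsq (by positivity)
        nlinarith [mul_nonneg hδ.le hx, mul_pos hδ (lt_of_lt_of_le one_pos hℓ)]

end Pool.Agent.GapReg
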