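import Pool.Agent.GapReg.Defs

set_option autoImplicit false

namespace Pool.Agent.GapReg

open Finset Filter Topology
open Pool.Agent.MP_e061a3_an

namespace RGAux

/-- `8 log t ≤ t / 2 + 14.2`. -/
lemma log_le (t : ℝ) (ht : 0 < t) : 8 * Real.log t ≤ t / 2 + 142 / 10 := by
  have h1 : Real.log (t / 16) ≤ t / 16 - 1 := Real.log_le_sub_one_of_pos (by positivity)
  rw [Real.log_div ht.ne' (by norm_num)] at h1
  have h2 : Real.log 16 = 4 * Real.log 2 := by
    rw [show (16 : ℝ) = 2 ^ 4 by norm_num, Real.log_pow]; norm_num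
  have h3 : Real.log 2 < 0.6931471808 := Real.log_two_lt_d9
  rw [h2] at h1
  linarith

end RGAux

theorem re_gap (q p w : ℂ) (ρ X : ℝ) (hρ : 0 < ρ) (hw : ‖w - p‖ ≤ 128 * ρ)
    (hn : ¬ Horn (q - 2 * ρ) ρ w) (hX0 : 0 ≤ X) (hX : |p.im - q.im| ≤ X * ρ) :
    q.re - p.re ≤ ρ * (432 + 16 * Real.log (1 + X)) := by
  have hlogX : 0 ≤ Real.log (1 + X) := Real.log_nonneg (by linarith)
  by_cases hY : q.re - 2 * ρ - p.re < 0
  · nlinarith
  push Not at hY
  set w₀ : ℂ := q - 2 * ρ with hw₀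
  have hw0re : w₀.re = q.re - 2 * ρ := by simp [hw₀]
  have hw0im : w₀.im = q.im := by simp [hw₀]
  set Y : ℝ := (w₀.re - p.re) / ρ with hYdef
  have hYρ : Y * ρ = w₀.re - p.re := by rw [hYdef]; field_simp
  have hY0 : 0 ≤ Y := by rw [hYdef, hw0re]; positivity
  -- the distance
  have hd1 : ‖p - w₀‖ ≤ Y * ρ + X * ρ := by
    refine (Complex.norm_le_abs_re_add_abs_im _).trans ?_
    have e1 : |(p - w₀).re| = Y * ρ := by
      rw [Complex.sub_re, abs_sub_comm, ← hYρ, abs_of_nonneg (by positivity)]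
    have e2 : |(p - w₀).im| ≤ X * ρ := by rw [Complex.sub_im, hw0im]; exact hX
    linarith
  have hd : ‖w - w₀‖ ≤ (128 + Y + X) * ρ := by
    calc ‖w - w₀‖ = ‖(w - p) + (p - w₀)‖ := by congr 1; ring
      _ ≤ ‖w - p‖ + ‖p - w₀‖ := norm_add_le _ _
      _ ≤ _ := by nlinarith
  have hZ : ‖w - w₀‖ / ρ ≤ 128 + Y + X := by
    rw [div_le_iff₀ hρ]; exact hd
  have hZ0 : 0 ≤ ‖w - w₀‖ / ρ := by positivity
  have hwre : w.re ≤ p.re + 128 * ρ := by
    have h1 : |(w - p).re| ≤ 128 * ρ := (Complex.abs_re_le_norm _).trans hw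
    have h2 := (abs_le.1 h1).2
    rw [Complex.sub_re] at h2
    linarith
  unfold Horn at hn
  push Not at hn
  have hlog : Real.log (1 + ‖w - w₀‖ / ρ) ≤ Real.log (129 + Y) + Real.log (1 + X) := by
    rw [← Real.log_mul (by positivity) (by positivity)]
    apply Real.log_le_log (by positivity)
    nlinarith
  have hlog2 := RGAux.log_le (129 + Y) (by positivity)
  have hmain : (Y - 128) * ρ < 8 * ρ * (1 + Real.log (1 + ‖w - w₀‖ / ρ)) := by
    have : (Y - 128) * ρ ≤ w₀.re - w.re := by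
      have : Y * ρ = w₀.re - p.re := hYρ
      nlinarith
    linarith
  have hmain2 : Y - 128 < 8 * (1 + Real.log (1 + ‖w - w₀‖ / ρ)) := by
    have : (Y - 128) * ρ < (8 * (1 + Real.log (1 + ‖w - w₀‖ / ρ))) * ρ := by linarith
    exact lt_of_mul_lt_mul_right this hρ.le
  have hYb : Y ≤ 430 + 16 * Real.log (1 + X) := by linarith
  have : q.re - p.re = Y * ρ + 2 * ρ := by rw [hYρ, hw0re]; ring
  rw [this]
  nlinarith

end Pool.Agent.GapReg
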