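import Pool.Agent.GapReg.Defs

set_option autoImplicit false

namespace Pool.Agent.GapReg

open Finset Filter Topology
open Pool.Agent.MP_e061a3_an

theorem exists_scale (X : ℝ) (hX : 10 ^ 18 ≤ X) :
    ∃ k : ℕ, (1000 : ℝ) ^ k ≤ X / 700 ∧ 9 * (3 + Real.log (1 + 4 * X) / 10000) ≤ 2 ^ k := by
  obtain ⟨n, hn⟩ := pow_unbounded_of_one_lt (X / 700) (by norm_num : (1 : ℝ) < 1000)
  classical
  -- the first index with `X / 700 < 1000 ^ n`
  have hex : ∃ n : ℕ, X / 700 < (1000 : ℝ) ^ n := ⟨n, hn⟩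
  obtain ⟨N, hN, hmin⟩ : ∃ N, X / 700 < (1000 : ℝ) ^ N ∧ ∀ m < N, (1000 : ℝ) ^ m ≤ X / 700 :=
    ⟨Nat.find hex, Nat.find_spec hex, fun m hm => not_lt.1 (Nat.find_min hex hm)⟩
  have hN6 : 6 ≤ N := by
    by_contra hlt
    have h5 : N ≤ 5 := by omega
    have h1 : (1000 : ℝ) ^ N ≤ 1000 ^ 5 := pow_le_pow_right₀ (by norm_num) h5
    have h2 : (10 : ℝ) ^ 18 / 700 ≤ X / 700 := by linarith
    norm_num at h1 h2
    linarith
  obtain ⟨k, rfl⟩ : ∃ k, N = k + 1 := ⟨N - 1, by omega⟩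
  have hk5 : 5 ≤ k := by omega
  refine ⟨k, hmin k (by omega), ?_⟩
  have hX0 : (0 : ℝ) < X := by norm_num at hX; linarith
  have hlog : Real.log (1 + 4 * X) ≤ 23 + 7 * k := by
    have h1 : 1 + 4 * X ≤ 2 ^ 22 * (2 ^ 10) ^ k := by
      have hXX : X < 700 * (1000 * 1000 ^ k) := by
        have := hN; rw [pow_succ] at this
        have h3 : X / 700 * 700 < (1000 ^ k * 1000) * 700 := by
          exact mul_lt_mul_of_pos_right this (by norm_num)
        have h4 : X / 700 * 700 = X := by ring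
        linarith
      have h5 : (1000 : ℝ) ^ k ≤ (2 ^ 10) ^ k := by
        apply pow_le_pow_left₀ (by norm_num); norm_num
      have h6 : (1 : ℝ) ≤ 1000 ^ k := one_le_pow₀ (by norm_num)
      nlinarith
    calc Real.log (1 + 4 * X) ≤ Real.log (2 ^ 22 * (2 ^ 10) ^ k) :=
          Real.log_le_log (by linarith) h1
      _ = (22 + 10 * k) * Real.log 2 := by
          rw [← pow_mul, ← pow_add, Real.log_pow]; push_cast; ring
      _ ≤ (22 + 10 * k) * 0.7 := by
          have := Real.log_two_lt_d9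
          apply mul_le_mul_of_nonneg_left _ (by positivity)
          linarith
      _ ≤ 23 + 7 * k := by
          nlinarith
  have hpow : (27 : ℝ) + 2 / 10 + k / 100 ≤ 2 ^ k := by
    obtain ⟨j, rfl⟩ : ∃ j, k = 5 + j := ⟨k - 5, by omega⟩
    have h1 : ((j : ℝ) + 1) ≤ 2 ^ j := by
      have := Nat.lt_two_pow_self (n := j)
      exact_mod_cast this
    have h2 : (0 : ℝ) ≤ j := Nat.cast_nonneg j
    rw [pow_add]
    push_cast
    nlinarith
  have hk0 : (0 : ℝ) ≤ k := Nat.cast_nonneg k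
  nlinarith

end Pool.Agent.GapReg
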