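import Pool.Agent.GapReg.HornBound
import Pool.Agent.GapReg.ReGap

set_option autoImplicit false

namespace Pool.Agent.GapReg

open Finset Filter Topology
open Pool.Agent.MP_e061a3_an

variable {c : ℕ → ℂ} {δ δ' ℓ ℓ' r r' : ℝ} {Γ : ℝ → ℂ} {t₀ t₁ : ℝ}

/-- ST1: points of the curve are not far to the left of `Γ t₀`. -/
theorem StepData.re_le (h : StepData c δ δ' ℓ ℓ' r r' Γ t₀ t₁) (t : ℝ) (ht : t ∈ Set.Icc t₀ t₁)
    (X : ℝ) (hX0 : 0 ≤ X) (hX : |(Γ t).im - (Γ t₀).im| ≤ X * r') :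
    (Γ t₀).re - (Γ t).re ≤ r' * (432 + 16 * Real.log (1 + X)) := by
  have hδ' : 0 < δ' := lt_of_lt_of_le h.δ_pos h.δ_le
  have hr' : 0 < r' := by rw [h.r'_eq]; positivity
  by_cases hall : ∀ w : ℂ, ‖w - Γ t‖ ≤ 128 * r' → Horn (Γ t₀ - 2 * r') r' w
  · exfalso
    have h1 := low_of_horn c h.ent δ' ℓ' r' hδ' h.one_le h.dens' h.r'_eq h.big (Γ t₀ - 2 * r') r'
      le_rfl (fun u hu => HBAux.ball_of_low (Fs c) (Γ t₀) r' (ℓ' * r') hr' h.low₀ u hu) (Γ t)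
      (h.reach t ht) hall
    refine h.notlow t ht ?_
    intro w hw1 hw2
    have h2 : w.re ≤ (Γ t).re := by
      have := abs_nonneg (w.im - (Γ t).im)
      linarith
    refine (h1 w (by linarith) h2).trans (Real.exp_le_exp.mpr ?_)
    have := h.big
    linarith
  · push Not at hall
    obtain ⟨w, hw1, hw2⟩ := hall
    exact re_gap (Γ t₀) (Γ t) w r' X hr' hw1 hw2 hX0 hX

/-- ST1: `Γ t₀` is not far to the left of `Γ t₁`. -/
theorem StepData.re_le' (h : StepData c δ δ' ℓ ℓ' r r' Γ t₀ t₁) (X : ℝ) (hX0 : 0 ≤ X)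
    (hX : |(Γ t₀).im - (Γ t₁).im| ≤ X * r) :
    (Γ t₁).re - (Γ t₀).re ≤ r * (432 + 16 * Real.log (1 + X)) := by
  have hδ : 0 < δ := h.δ_pos
  have hr : 0 < r := by rw [h.r_eq]; positivity
  have hrr' : r ≤ r' := by
    rw [h.r_eq, h.r'_eq]
    have := h.δ_le
    linarith
  have hr'r : r' ≤ 2 * r := by
    rw [h.r_eq, h.r'_eq]
    have := h.δ'_le
    linarith
  have hℓ' := h.one_le
  have hℓ : 1 ≤ ℓ := by rw [h.level]; linarith
  have hbig := h.big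
  have h1 : ℓ' * r' ≤ ℓ' * (2 * r) := mul_le_mul_of_nonneg_left hr'r (by linarith)
  have h2 : ℓ' * r ≤ ℓ' * r' := mul_le_mul_of_nonneg_left hrr' (by linarith)
  have hs : 200 ≤ ℓ * r := by
    rw [h.level]
    linarith
  have htt : t₀ ∈ Set.Icc t₀ t₁ := ⟨le_rfl, h.time⟩
  by_cases hall : ∀ w : ℂ, ‖w - Γ t₀‖ ≤ 128 * r → Horn (Γ t₁ - 2 * r) r w
  · exfalso
    have h3 := low_of_horn c h.ent δ ℓ r hδ hℓ h.dens h.r_eq hs (Γ t₁ - 2 * r) r
      le_rfl (fun u hu => HBAux.ball_of_low (Fs c) (Γ t₁) r (ℓ * r) hr h.low₁ u hu) (Γ t₀)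
      (h.reach t₀ htt) hall
    refine h.notlow t₀ htt ?_
    intro w hw1 hw2
    have h4 : w.re ≤ (Γ t₀).re := by
      have := abs_nonneg (w.im - (Γ t₀).im)
      linarith
    refine (h3 w (by linarith) h4).trans (Real.exp_le_exp.mpr ?_)
    rw [h.level]
    linarith
  · push Not at hall
    obtain ⟨w, hw1, hw2⟩ := hall
    exact re_gap (Γ t₁) (Γ t₀) w r X hr hw1 hw2 hX0 hX

end Pool.Agent.GapReg
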