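import Pool.Agent.GapReg.StepA
import Pool.Agent.GapReg.Enclosure

set_option autoImplicit false

namespace Pool.Agent.GapReg

open Finset Filter Topology
open Pool.Agent.MP_e061a3_an

variable {c : ℕ → ℂ} {δ δ' ℓ ℓ' r r' : ℝ} {Γ : ℝ → ℂ} {t₀ t₁ : ℝ}

theorem S2Aux.log_le (x : ℝ) (hx : 0 ≤ x) : Real.log (1 + x) ≤ 10 + x / 10000 := by
  have h1 : Real.log (1 + x) = Real.log 10000 + Real.log ((1 + x) / 10000) := by
    rw [← Real.log_mul (by norm_num) (by positivity)]
    congr 1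
    field_simp
  have h2 : Real.log ((1 + x) / 10000) ≤ (1 + x) / 10000 - 1 :=
    Real.log_le_sub_one_of_pos (by positivity)
  have h3 : Real.log 10000 ≤ 10 := by
    have h4 : Real.log 10000 ≤ Real.log (2 ^ 14) := Real.log_le_log (by norm_num) (by norm_num)
    rw [Real.log_pow] at h4
    have := Real.log_two_lt_d9
    push_cast at h4
    linarith
  rw [h1]
  linarith

/-- ST2: the enclosed region. -/
theorem StepData.encl (h : StepData c δ δ' ℓ ℓ' r r' Γ t₀ t₁) (X : ℝ) (hX : 10 ^ 18 ≤ X)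
    (hΔ : |(Γ t₀).im - (Γ t₁).im| = X * r) (τ : ℝ) (hτ : 0 < τ) :
    ∃ W : Set ℂ, IsOpen W ∧
      (∀ w ∈ W, ‖Fs c w‖ ≤ Real.exp (ℓ * r * (3 + Real.log (1 + 4 * X) / 10000))) ∧
      (∀ w ∈ frontier W, ‖Fs c w‖ ≤ 2 ∨ w.im = (Γ t₀).im ∨ w.im = (Γ t₁).im ∨
        w.re = (Γ t₀).re - 2 * (X * r)) ∧
      ∀ w : ℂ, (Γ t₀).re - 2 * (X * r) < w.re → min (Γ t₀).im (Γ t₁).im < w.im →
        w.im < max (Γ t₀).im (Γ t₁).im →
        (∀ t ∈ Set.Icc t₀ t₁, |(Γ t).im - w.im| ≤ τ → w.re + τ < (Γ t).re) → w ∈ W := by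
  have hδ : 0 < δ := h.δ_pos
  have hr : 0 < r := by rw [h.r_eq]; positivity
  have hrr' : r ≤ r' := by
    rw [h.r_eq, h.r'_eq]
    have := h.δ_le
    linarith
  have hr'r : r' ≤ 2 * r := by
    rw [h.r_eq, h.r'_eq]
    have := h.δ'_le
    linarith
  have hℓ' := h.one_le
  have hℓ : 1 ≤ ℓ := by rw [h.level]; linarith
  have hbig := h.big
  have h1 : ℓ' * r' ≤ ℓ' * (2 * r) := mul_le_mul_of_nonneg_left hr'r (by linarith)
  have hlr : ℓ' * r' ≤ ℓ * r := by
    rw [h.level]
    linarith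
  have hs : 200 ≤ ℓ * r := by linarith
  have hℓr : 0 < ℓ * r := by linarith
  have hX0 : 0 < X := by linarith [show (0:ℝ) < 10 ^ 18 by norm_num]
  have hX18 : (10:ℝ) ^ 18 ≤ X := hX
  have hXr : 0 < X * r := by positivity
  have hlogX := S2Aux.log_le X hX0.le
  have hlog3X := S2Aux.log_le (3 * X) (by positivity)
  have hlog0 : 0 ≤ Real.log (1 + 4 * X) := Real.log_nonneg (by linarith)
  have hA : 432 + 16 * Real.log (1 + X) ≤ X / 100 := by
    norm_num at hX18
    linarith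
  -- low at Γ t₀ with radius 64 r and level ℓ r
  have hlow0 : Low (Fs c) (Γ t₀) (64 * r) (ℓ * r) := by
    intro w hw1 hw2
    exact (h.low₀ w (by linarith) hw2).trans (Real.exp_le_exp.mpr hlr)
  -- monotonicity of the bound
  have hmono : ∀ y : ℝ, 0 ≤ y → y ≤ 4 * X →
      Real.exp (ℓ * r * (3 + Real.log (1 + y) / 10000))
        ≤ Real.exp (ℓ * r * (3 + Real.log (1 + 4 * X) / 10000)) := by
    intro y hy0 hy
    apply Real.exp_le_exp.mpr
    apply mul_le_mul_of_nonneg_left _ hℓr.le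
    have : Real.log (1 + y) ≤ Real.log (1 + 4 * X) := Real.log_le_log (by linarith) (by linarith)
    linarith
  have hre1 : (Γ t₀).re - (Γ t₁).re ≤ r' * (432 + 16 * Real.log (1 + X)) := by
    apply h.re_le t₁ ⟨h.time, le_rfl⟩ X hX0.le
    rw [abs_sub_comm, hΔ]
    exact mul_le_mul_of_nonneg_left hrr' hX0.le
  have hre2 : (Γ t₁).re - (Γ t₀).re ≤ r * (432 + 16 * Real.log (1 + X)) :=
    h.re_le' X hX0.le hΔ.le
  have hA0 : 0 ≤ 432 + 16 * Real.log (1 + X) := by
    have : 0 ≤ Real.log (1 + X) := Real.log_nonneg (by linarith)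
    linarith
  have hre1' : (Γ t₀).re - (Γ t₁).re ≤ X * r / 50 := by
    refine hre1.trans ?_
    calc r' * (432 + 16 * Real.log (1 + X)) ≤ 2 * r * (X / 100) := by gcongr
      _ = X * r / 50 := by ring
  have hre2' : (Γ t₁).re - (Γ t₀).re ≤ X * r / 100 := by
    refine hre2.trans ?_
    calc r * (432 + 16 * Real.log (1 + X)) ≤ r * (X / 100) := by gcongr
      _ = X * r / 100 := by ring
  have hB : 2 ≤ Real.exp (ℓ * r * (3 + Real.log (1 + 4 * X) / 10000)) := by
    have h4 : (2:ℝ) ≤ Real.exp 1 := by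
      have := Real.exp_one_gt_d9
      linarith
    refine h4.trans (Real.exp_le_exp.mpr ?_)
    have : 0 ≤ ℓ * r * Real.log (1 + 4 * X) := by positivity
    nlinarith
  refine enclosure (Fs c) (differentiable_Fs c h.ent) Γ t₀ t₁ h.time h.cont h.one
    ((Γ t₀).re - 2 * (X * r)) _ hB ?_ ?_ ?_ ?_ ?_ ?_ τ hτ
  · intro he
    rw [he, sub_self, abs_zero] at hΔ
    linarith
  · linarith
  · linarith
  · intro x hx1 hx2
    have e : (⟨x, (Γ t₀).im⟩ : ℂ) = Γ t₀ - (((Γ t₀).re - x : ℝ) : ℂ) := by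
      apply Complex.ext <;> simp
    rw [e]
    refine (ray_bound c h.ent δ ℓ r hδ hℓ h.dens h.r_eq hs (Γ t₀) hlow0 _ (by linarith)).trans ?_
    apply hmono
    · apply div_nonneg (by linarith) hr.le
    · rw [div_le_iff₀ hr]
      linarith
  · intro x hx1 hx2
    have e : (⟨x, (Γ t₁).im⟩ : ℂ) = Γ t₁ - (((Γ t₁).re - x : ℝ) : ℂ) := by
      apply Complex.ext <;> simp
    rw [e]
    refine (ray_bound c h.ent δ ℓ r hδ hℓ h.dens h.r_eq hs (Γ t₁) h.low₁ _ (by linarith)).trans ?_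
    apply hmono
    · apply div_nonneg (by linarith) hr.le
    · rw [div_le_iff₀ hr]
      linarith
  · intro y hy1 hy2
    set w : ℂ := ⟨(Γ t₀).re - 2 * (X * r), y⟩ with hw
    have hyd : |y - (Γ t₀).im| ≤ X * r := by
      rw [← hΔ]
      rcases le_total (Γ t₀).im (Γ t₁).im with hle | hle
      · rw [min_eq_left hle] at hy1
        rw [max_eq_right hle] at hy2
        rw [abs_of_nonneg (by linarith), abs_of_nonpos (by linarith)]
        linarith
      · rw [min_eq_right hle] at hy1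
        rw [max_eq_left hle] at hy2
        rw [abs_of_nonpos (by linarith), abs_of_nonneg (by linarith)]
        linarith
    have hn1 : ‖w - Γ t₀‖ ≤ 3 * (X * r) := by
      refine (Complex.norm_le_abs_re_add_abs_im _).trans ?_
      have e1 : (w - Γ t₀).re = -(2 * (X * r)) := by
        rw [Complex.sub_re, hw]
        ring
      have e2 : (w - Γ t₀).im = y - (Γ t₀).im := by
        rw [Complex.sub_im, hw]
      rw [e1, e2, abs_neg, abs_of_pos (by linarith)]
      linarith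
    have hn2 : ‖w - (Γ t₀ - 2 * r)‖ ≤ 3 * (X * r) := by
      refine (Complex.norm_le_abs_re_add_abs_im _).trans ?_
      have e1 : (w - (Γ t₀ - 2 * r)).re = -(2 * (X * r) - 2 * r) := by
        rw [Complex.sub_re, hw]
        simp
      have e2 : (w - (Γ t₀ - 2 * r)).im = y - (Γ t₀).im := by
        rw [Complex.sub_im, hw]
        simp
      have h1X : r ≤ X * r := by nlinarith [show (1:ℝ) ≤ X by linarith [show (1:ℝ) ≤ 10 ^ 18 by norm_num]]
      rw [e1, e2, abs_neg, abs_of_nonneg (by linarith)]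
      linarith
    have hh : Horn (Γ t₀ - 2 * r) r w := by
      unfold Horn
      have e1 : (Γ t₀ - 2 * r : ℂ).re - w.re = 2 * (X * r) - 2 * r := by
        rw [hw]
        simp
      rw [e1]
      have h5 : Real.log (1 + ‖w - (Γ t₀ - 2 * r)‖ / r) ≤ Real.log (1 + 3 * X) := by
        apply Real.log_le_log (by positivity)
        have : ‖w - (Γ t₀ - 2 * r)‖ / r ≤ 3 * X := by
          rw [div_le_iff₀ hr]
          linarith
        linarith
      have h6 : 8 * (1 + Real.log (1 + ‖w - (Γ t₀ - 2 * r)‖ / r)) ≤ 2 * X - 2 := by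
        norm_num at hX18
        linarith
      calc 8 * r * (1 + Real.log (1 + ‖w - (Γ t₀ - 2 * r)‖ / r))
          = r * (8 * (1 + Real.log (1 + ‖w - (Γ t₀ - 2 * r)‖ / r))) := by ring
        _ ≤ r * (2 * X - 2) := mul_le_mul_of_nonneg_left h6 hr.le
        _ = _ := by ring
    refine (horn_bound c h.ent δ ℓ r hδ hℓ h.dens h.r_eq hs (Γ t₀) hlow0 w hh).trans ?_
    apply hmono
    · positivity
    · rw [div_le_iff₀ hr]
      linarith

end Pool.Agent.GapReg
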