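import Pool.Agent.GapReg.StepB

set_option autoImplicit false

namespace Pool.Agent.GapReg

open Finset Filter Topology
open Pool.Agent.MP_e061a3_an

variable {c : ℕ → ℂ} {δ δ' ℓ ℓ' r r' : ℝ} {Γ : ℝ → ℂ} {t₀ t₁ : ℝ}

private lemma s3_num (X L : ℝ) (hX : 10 ^ 18 ≤ X) (hL : L = Real.log (1 + 4 * X)) :
    0 ≤ L ∧ 8 * (3 + L / 10000) * (1 + L) + (3 + L / 10000) + 300 ≤ X / 1000 := by
  set s : ℝ := √(√(1 + 4 * X)) with hs
  have hy : (0:ℝ) ≤ 1 + 4 * X := by nlinarith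
  have hs0 : 0 ≤ s := Real.sqrt_nonneg _
  have hs2 : s ^ 2 = √(1 + 4 * X) := Real.sq_sqrt (Real.sqrt_nonneg _)
  have hs4 : s ^ 4 = 1 + 4 * X := by
    have : s ^ 4 = (s ^ 2) ^ 2 := by ring
    rw [this, hs2, Real.sq_sqrt hy]
  have hs40 : (40000:ℝ) ≤ s := by
    by_contra hcon
    have h1 : s ^ 4 < 40000 ^ 4 := pow_lt_pow_left₀ (not_le.mp hcon) hs0 (by norm_num)
    have h2 : (40000:ℝ) ^ 4 = 2560000000000000000 := by norm_num
    have h3 : (10:ℝ) ^ 18 = 1000000000000000000 := by norm_num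
    rw [hs4] at h1
    linarith
  have hspos : 0 < s := by linarith
  have hLs : L ≤ 4 * s := by
    rw [hL, ← hs4, Real.log_pow]
    have := Real.log_le_sub_one_of_pos hspos
    push_cast
    linarith
  have hL0 : 0 ≤ L := by
    rw [hL]
    apply Real.log_nonneg
    nlinarith
  refine ⟨hL0, ?_⟩
  have h1 : 3 + L / 10000 ≤ s / 1000 := by linarith
  have h2 : 1 + L ≤ 5 * s := by linarith
  have h3 : 8 * (3 + L / 10000) * (1 + L) ≤ 8 * (s / 1000) * (5 * s) := by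
    apply mul_le_mul _ h2 (by linarith) (by positivity)
    linarith
  have h4 : X = (s ^ 4 - 1) / 4 := by rw [hs4]; ring
  have h5 : (1600000000:ℝ) * s ^ 2 ≤ s ^ 4 := by
    have : s ^ 4 = s ^ 2 * s ^ 2 := by ring
    rw [this]
    apply mul_le_mul_of_nonneg_right _ (by positivity)
    nlinarith
  rw [h4]
  nlinarith

/-- ST3: the curve has a point at middle height which is not far to the right. -/
theorem StepData.exists_mid (h : StepData c δ δ' ℓ ℓ' r r' Γ t₀ t₁) (X : ℝ) (hX : 10 ^ 18 ≤ X)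
    (hΔ : |(Γ t₀).im - (Γ t₁).im| = X * r) :
    ∃ t ∈ Set.Icc t₀ t₁, min (Γ t₀).im (Γ t₁).im + X * r / 3 ≤ (Γ t).im ∧
      (Γ t).im ≤ min (Γ t₀).im (Γ t₁).im + 2 * (X * r) / 3 ∧
      (Γ t).re ≤ (Γ t₀).re + X * r / 1000 := by
  by_contra hcon
  push Not at hcon
  have hδ := h.δ_pos
  have hr0 : 0 < r := by rw [h.r_eq]; positivity
  have hrr' : r ≤ r' := by
    rw [h.r_eq, h.r'_eq]
    have := h.δ_le
    linarith
  have hr'r : r' ≤ 2 * r := by
    rw [h.r_eq, h.r'_eq]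
    have := h.δ'_le
    linarith
  have hℓ' := h.one_le
  have hℓ : 1 ≤ ℓ := by rw [h.level]; linarith
  obtain ⟨L, hL⟩ : ∃ L, L = Real.log (1 + 4 * X) := ⟨_, rfl⟩
  obtain ⟨hL0, hnum⟩ := s3_num X L hX hL
  obtain ⟨Λ, hΛ⟩ : ∃ Λ, Λ = 3 + L / 10000 := ⟨_, rfl⟩
  rw [← hΛ] at hnum
  have hΛ3 : 3 ≤ Λ := by rw [hΛ]; linarith [div_nonneg hL0 (by norm_num : (0:ℝ) ≤ 10000)]
  have hX0 : 0 < X := lt_of_lt_of_le (by norm_num) hX
  obtain ⟨l1, hl1⟩ : ∃ l1, l1 = Real.log (1 + X) := ⟨_, rfl⟩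
  have hl10 : 0 ≤ l1 := by rw [hl1]; exact Real.log_nonneg (by linarith)
  have hl1L : l1 ≤ L := by
    rw [hl1, hL]
    exact Real.log_le_log (by linarith) (by linarith)
  have hprod0 : 0 ≤ Λ * (1 + l1) := by nlinarith
  have hprod : Λ * (1 + l1) ≤ Λ * (1 + L) := mul_le_mul_of_nonneg_left (by linarith) (by linarith)
  have hnum' : 8 * (Λ * (1 + l1)) + Λ + 300 ≤ X / 1000 := by nlinarith
  have hnumr : 8 * (Λ * r * (1 + l1)) + Λ * r + 300 * r ≤ X * r / 1000 := by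
    have := mul_le_mul_of_nonneg_right hnum' hr0.le
    nlinarith
  have hprodr : 0 ≤ Λ * r * (1 + l1) := by
    have : Λ * r * (1 + l1) = Λ * (1 + l1) * r := by ring
    rw [this]; positivity
  have hΛr : 3 * r ≤ Λ * r := mul_le_mul_of_nonneg_right hΛ3 hr0.le
  have hXr : 0 < X * r := by positivity
  -- the heights
  set μ : ℝ := min (Γ t₀).im (Γ t₁).im with hμ
  have hmax : max (Γ t₀).im (Γ t₁).im = μ + X * r := by
    rw [hμ, ← hΔ]
    have := max_sub_min_eq_abs' (Γ t₀).im (Γ t₁).im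
    linarith
  have him0 : μ ≤ (Γ t₀).im ∧ (Γ t₀).im ≤ μ + X * r :=
    ⟨min_le_left _ _, hmax ▸ le_max_left _ _⟩
  obtain ⟨W, _, hWF, _, hWin⟩ := h.encl X hX hΔ r hr0
  set x₁ : ℝ := 128 * r + 8 * (Λ * r * (1 + l1)) with hx₁
  set w₁ : ℂ := ⟨(Γ t₀).re + x₁, μ + X * r / 2⟩ with hw₁
  have hw₁re : w₁.re = (Γ t₀).re + x₁ := rfl
  have hw₁im : w₁.im = μ + X * r / 2 := rfl
  have hball : ∀ w : ℂ, ‖w - w₁‖ ≤ Λ * r → ‖Fs c w‖ ≤ Real.exp (ℓ * (Λ * r)) := by
    intro w hw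
    have h1 := (Complex.abs_re_le_norm (w - w₁)).trans hw
    have h2 := (Complex.abs_im_le_norm (w - w₁)).trans hw
    rw [Complex.sub_re, abs_le, hw₁re] at h1
    rw [Complex.sub_im, abs_le, hw₁im] at h2
    have hwW : w ∈ W := by
      apply hWin w
      · linarith [h1.1]
      · linarith [h2.1]
      · rw [hmax]
        linarith [h2.2]
      · intro t ht htw
        rw [abs_le] at htw
        have h3 := hcon t ht (by linarith [htw.1, h2.1]) (by linarith [htw.2, h2.2])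
        linarith [h1.2]
    have h4 := hWF w hwW
    have e : ℓ * r * (3 + Real.log (1 + 4 * X) / 10000) = ℓ * (Λ * r) := by
      rw [← hL, ← hΛ]; ring
    rwa [e] at h4
  have hlr : 200 ≤ ℓ * r := by
    have h1 := h.big
    have h2 : ℓ * r = 4 * (ℓ' * r) := by rw [h.level]; ring
    have h3 : ℓ' * r' ≤ ℓ' * (2 * r) := mul_le_mul_of_nonneg_left hr'r (by linarith)
    nlinarith
  have h0mem : t₀ ∈ Set.Icc t₀ t₁ := ⟨le_rfl, h.time⟩
  have hlow := low_of_horn c h.ent δ ℓ r hδ hℓ h.dens h.r_eq hlr w₁ (Λ * r) (by linarith) hball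
    (Γ t₀) (h.reach t₀ h0mem) (by
      intro w hw
      have h1 := (Complex.abs_re_le_norm (w - Γ t₀)).trans hw
      rw [Complex.sub_re, abs_le] at h1
      have hdist : ‖w - w₁‖ ≤ X * r := by
        have e1 : ‖Γ t₀ - w₁‖ ≤ x₁ + X * r / 2 := by
          refine (Complex.norm_le_abs_re_add_abs_im _).trans ?_
          rw [Complex.sub_re, Complex.sub_im, hw₁re, hw₁im]
          have e2 : |(Γ t₀).re - ((Γ t₀).re + x₁)| ≤ x₁ := by
            rw [abs_le]
            constructor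
            · linarith
            · linarith
          have e3 : |(Γ t₀).im - (μ + X * r / 2)| ≤ X * r / 2 := by
            rw [abs_le]
            constructor
            · linarith [him0.1]
            · linarith [him0.2]
          linarith
        calc ‖w - w₁‖ = ‖(w - Γ t₀) + (Γ t₀ - w₁)‖ := by congr 1; ring
          _ ≤ ‖w - Γ t₀‖ + ‖Γ t₀ - w₁‖ := norm_add_le _ _
          _ ≤ X * r := by linarith
      unfold Horn
      have hΛr0 : 0 < Λ * r := by linarith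
      have hq : ‖w - w₁‖ / (Λ * r) ≤ X := by
        rw [div_le_iff₀ hΛr0]
        nlinarith
      have hlog : Real.log (1 + ‖w - w₁‖ / (Λ * r)) ≤ l1 := by
        rw [hl1]
        apply Real.log_le_log (by positivity)
        linarith
      have h5 : 8 * (Λ * r) * (1 + Real.log (1 + ‖w - w₁‖ / (Λ * r)))
          ≤ 8 * (Λ * r) * (1 + l1) :=
        mul_le_mul_of_nonneg_left (by linarith) (by positivity)
      rw [hw₁re]
      linarith [h1.2])
  apply h.notlow t₀ h0mem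
  intro w hw hwc
  have h6 := hlow w (by linarith) (by linarith [abs_nonneg (w.im - (Γ t₀).im)])
  refine h6.trans (Real.exp_le_exp.mpr ?_)
  have h7 : ℓ * r / 8 = ℓ' * r / 2 := by rw [h.level]; ring
  rw [h7]
  have h8 : ℓ' * r ≤ ℓ' * r' := mul_le_mul_of_nonneg_left hrr' (by linarith)
  linarith

end Pool.Agent.GapReg
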