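import Pool.Agent.GapReg.StepC
import Pool.Agent.GapReg.Decay
import Pool.Agent.GapReg.Scale
import Pool.Agent.GapReg.FsBasic

set_option autoImplicit false

/-!
# One step: the displacement of the curve between two consecutive levels
-/

namespace Pool.Agent.GapReg

open Finset Filter Topology
open Pool.Agent.MP_e061a3_an

variable {c : ℕ → ℂ} {δ δ' ℓ ℓ' r r' : ℝ} {Γ : ℝ → ℂ} {t₀ t₁ : ℝ}

namespace S4Aux

lemma log_small (X : ℝ) (hX : 10 ^ 18 ≤ X) : Real.log (1 + 4 * X) ≤ X / 10 ^ 9 := by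
  have hX0 : 0 < X := lt_of_lt_of_le (by positivity) hX
  rw [Real.log_le_iff_le_exp (by positivity)]
  have h1 := Real.pow_div_factorial_le_exp (X / 10 ^ 9) (by positivity) 3
  refine le_trans ?_ h1
  have h2 : (X / 10 ^ 9) ^ 3 / ((3 : ℕ).factorial : ℝ) = X * (X * X) / (6 * 10 ^ 27) := by
    have : ((3 : ℕ).factorial : ℝ) = 6 := by norm_num [Nat.factorial]
    rw [this]; ring
  rw [h2, le_div_iff₀ (by positivity)]
  have h3 : (10:ℝ) ^ 36 ≤ X * X := by
    calc (10:ℝ) ^ 36 = 10 ^ 18 * 10 ^ 18 := by norm_num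
      _ ≤ X * X := mul_le_mul hX hX (by positivity) hX0.le
  have h4 : X * 10 ^ 36 ≤ X * (X * X) := mul_le_mul_of_nonneg_left h3 hX0.le
  nlinarith

lemma log_small' (X : ℝ) (hX : 10 ^ 18 ≤ X) : Real.log (1 + X) ≤ X / 10 ^ 9 := by
  have hX0 : 0 < X := lt_of_lt_of_le (by positivity) hX
  refine le_trans (Real.log_le_log (by positivity) ?_) (log_small X hX)
  linarith

end S4Aux

open S4Aux

lemma StepData.r_pos (h : StepData c δ δ' ℓ ℓ' r r' Γ t₀ t₁) : 0 < r := by
  have := h.δ_pos; rw [h.r_eq]; positivity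

lemma StepData.r_le (h : StepData c δ δ' ℓ ℓ' r r' Γ t₀ t₁) : r ≤ r' := by
  have := h.δ_le; rw [h.r_eq, h.r'_eq]; linarith

lemma StepData.r'_le (h : StepData c δ δ' ℓ ℓ' r r' Γ t₀ t₁) : r' ≤ 2 * r := by
  have := h.δ'_le; rw [h.r_eq, h.r'_eq]; linarith

lemma StepData.lr_le (h : StepData c δ δ' ℓ ℓ' r r' Γ t₀ t₁) : ℓ * r ≤ 4 * (ℓ' * r') := by
  have h1 := h.r_le
  have h2 := h.one_le
  rw [h.level]
  nlinarith

lemma StepData.re_low (h : StepData c δ δ' ℓ ℓ' r r' Γ t₀ t₁) (X : ℝ) (hX : 10 ^ 18 ≤ X)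
    (t : ℝ) (ht : t ∈ Set.Icc t₀ t₁) (hi : |(Γ t).im - (Γ t₀).im| ≤ X * r) :
    (Γ t₀).re - (Γ t).re ≤ X * r / 1000 := by
  have hX0 : 0 < X := lt_of_lt_of_le (by positivity) hX
  have hr := h.r_pos
  have h1 := h.re_le t ht X hX0.le (hi.trans (mul_le_mul_of_nonneg_left h.r_le hX0.le))
  have h2 := log_small' X hX
  have h3 := h.r'_le
  have h4 : 0 ≤ Real.log (1 + X) := Real.log_nonneg (by linarith)
  have h5 : 2 * (432 + 16 * Real.log (1 + X)) ≤ X / 1000 := by
    have : (10:ℝ) ^ 18 ≤ X := hX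
    linarith
  calc (Γ t₀).re - (Γ t).re ≤ r' * (432 + 16 * Real.log (1 + X)) := h1
    _ ≤ (2 * r) * (432 + 16 * Real.log (1 + X)) :=
        mul_le_mul_of_nonneg_right h3 (by linarith)
    _ = r * (2 * (432 + 16 * Real.log (1 + X))) := by ring
    _ ≤ r * (X / 1000) := mul_le_mul_of_nonneg_left h5 hr.le
    _ = X * r / 1000 := by ring

/-- ST4: the vertical displacement is bounded. -/
theorem StepData.im_lt (h : StepData c δ δ' ℓ ℓ' r r' Γ t₀ t₁) :
    |(Γ t₀).im - (Γ t₁).im| < 10 ^ 18 * r := by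
  by_contra hcon
  push Not at hcon
  have hr := h.r_pos
  have hrr := h.r_le
  have hrr2 := h.r'_le
  have hlr := h.lr_le
  have hbig := h.big
  set X : ℝ := |(Γ t₀).im - (Γ t₁).im| / r with hXdef
  have hΔ : |(Γ t₀).im - (Γ t₁).im| = X * r := by rw [hXdef]; field_simp
  have hX : 10 ^ 18 ≤ X := by rw [hXdef, le_div_iff₀ hr]; exact hcon
  have hX0 : 0 < X := lt_of_lt_of_le (by positivity) hX
  have hXr : 10 ^ 18 * r ≤ X * r := mul_le_mul_of_nonneg_right hX hr.le
  obtain ⟨tq, htq, hq1, hq2, hq3⟩ := h.exists_mid X hX hΔ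
  -- heights
  set y0 := min (Γ t₀).im (Γ t₁).im with hy0
  set y1 := max (Γ t₀).im (Γ t₁).im with hy1
  have hy01 : y1 - y0 = X * r := by
    rw [← hΔ, hy0, hy1]
    exact max_sub_min_eq_abs' _ _
  have hG0 : y0 ≤ (Γ t₀).im ∧ (Γ t₀).im ≤ y1 := ⟨min_le_left _ _, le_max_left _ _⟩
  have hG0' : (Γ t₀).im = y0 ∨ (Γ t₀).im = y1 := by
    rcases le_total (Γ t₀).im (Γ t₁).im with h1 | h1
    · left; rw [hy0, min_eq_left h1]
    · right; rw [hy1, max_eq_left h1]
  have hG1' : (Γ t₁).im = y0 ∨ (Γ t₁).im = y1 := by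
    rcases le_total (Γ t₀).im (Γ t₁).im with h1 | h1
    · right; rw [hy1, max_eq_right h1]
    · left; rw [hy0, min_eq_right h1]
  set yq := (Γ tq).im with hyq
  -- the compact set of parameters
  set K : Set ℝ := {t | t ∈ Set.Icc t₀ t₁ ∧ |(Γ t).im - yq| ≤ X * r / 9} with hK
  have hcontim : ContinuousOn (fun t => |(Γ t).im - yq|) (Set.Icc t₀ t₁) := by
    have := Complex.continuous_im.comp_continuousOn h.cont
    exact (this.sub continuousOn_const).abs
  have hKcomp : IsCompact K := by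
    have : K = Set.Icc t₀ t₁ ∩ (fun t => |(Γ t).im - yq|) ⁻¹' Set.Iic (X * r / 9) := by
      ext t; rfl
    rw [this]
    exact isCompact_Icc.of_isClosed_subset
      (hcontim.preimage_isClosed_of_isClosed isClosed_Icc isClosed_Iic) Set.inter_subset_left
  have hKne : K.Nonempty := ⟨tq, htq, by rw [← hyq, sub_self, abs_zero]; positivity⟩
  have hfcont : ContinuousOn (fun t => (Γ t).re + |(Γ t).im - yq|) K := by
    have h1 := Complex.continuous_re.comp_continuousOn h.cont
    exact (h1.add hcontim).mono (fun t ht => ht.1)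
  obtain ⟨tp, htp, hmin⟩ := hKcomp.exists_isMinOn hKne hfcont
  have hmin' : ∀ t ∈ K, (Γ tp).re + |(Γ tp).im - yq| ≤ (Γ t).re + |(Γ t).im - yq| := fun t ht =>
    hmin ht
  have him0 : ∀ t, |(Γ t).im - yq| ≤ X * r / 9 → |(Γ t).im - (Γ t₀).im| ≤ X * r := by
    intro t ht
    rw [abs_le] at ht ⊢
    rcases hG0' with h1 | h1 <;> rw [h1] <;> constructor <;> linarith
  set p := Γ tp with hp
  have hpre : (Γ t₀).re - p.re ≤ X * r / 1000 := h.re_low X hX tp htp.1 (him0 tp htp.2)
  have hfp : p.re + |p.im - yq| ≤ (Γ t₀).re + X * r / 1000 := by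
    have h1 := hmin' tq ⟨htq, by rw [← hyq, sub_self, abs_zero]; positivity⟩
    rw [← hyq, sub_self, abs_zero] at h1
    linarith
  have hpim : |p.im - yq| ≤ X * r / 500 := by linarith
  obtain ⟨k, hk1, hk2⟩ := exists_scale X hX
  set Λ : ℝ := 3 + Real.log (1 + 4 * X) / 10000 with hΛ
  have hΛ0 : 0 < Λ := by
    have : 0 ≤ Real.log (1 + 4 * X) := Real.log_nonneg (by linarith)
    rw [hΛ]; positivity
  have hlr0 : 0 < ℓ * r := by
    have := h.one_le
    rw [h.level]; positivity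
  -- the bound on the strict cone
  have key : ∀ (ε : ℝ), 0 < ε → ∀ w : ℂ, ‖w - p‖ ≤ 130 * r → w.re + |w.im - p.im| ≤ p.re - ε →
      ‖Fs c w‖ ≤ Real.exp (ℓ' * r' / 2) := by
    intro ε hε w hw hwc
    set τ : ℝ := min (ε / 3) r with hτ
    have hτ0 : 0 < τ := lt_min (by positivity) hr
    have hτ1 : τ ≤ ε / 3 := min_le_left _ _
    have hτ2 : τ ≤ r := min_le_right _ _
    obtain ⟨W, hWo, hWb, hWf, hWm⟩ := h.encl X hX hΔ τ hτ0
    have hwim : |w.im - p.im| ≤ 130 * r := by
      rw [← Complex.sub_im]; exact (Complex.abs_im_le_norm _).trans hw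
    have hwre : |w.re - p.re| ≤ 130 * r := by
      rw [← Complex.sub_re]; exact (Complex.abs_re_le_norm _).trans hw
    have hwW : w ∈ W := by
      apply hWm
      · rw [abs_le] at hwre; linarith
      · rw [abs_le] at hwim hpim; linarith
      · rw [abs_le] at hwim hpim; linarith
      · intro t ht hti
        have h1 : |(Γ t).im - yq| ≤ X * r / 9 := by
          have e1 : (Γ t).im - yq = ((Γ t).im - w.im) + (w.im - p.im) + (p.im - yq) := by ring
          have e2 := abs_add_three ((Γ t).im - w.im) (w.im - p.im) (p.im - yq)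
          rw [← e1] at e2
          linarith
        have h2 := hmin' t ⟨ht, h1⟩
        have h3 : |(Γ t).im - yq| ≤ |(Γ t).im - w.im| + |w.im - p.im| + |p.im - yq| := by
          have e1 : (Γ t).im - yq = ((Γ t).im - w.im) + (w.im - p.im) + (p.im - yq) := by ring
          have e2 := abs_add_three ((Γ t).im - w.im) (w.im - p.im) (p.im - yq)
          rw [← e1] at e2
          exact e2
        linarith
    have hRk : 140 * r ≤ X * r / 5 / 1000 ^ k := by
      rw [le_div_iff₀ (by positivity)]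
      have : 700 * (1000:ℝ) ^ k ≤ X := by linarith
      nlinarith
    have hdec := decay_iter (Fs c) (differentiable_Fs c h.ent) W hWo p (X * r / 5) (ℓ * r * Λ)
      (by positivity) (by positivity) ?_ ?_ (h.reach tp htp.1) k w hwW (by linarith)
    · refine hdec.trans ?_
      have hm : ℓ * r * Λ / 2 ^ k ≤ 4 * (ℓ' * r') / 9 := by
        rw [div_le_iff₀ (by positivity)]
        calc ℓ * r * Λ ≤ 4 * (ℓ' * r') * Λ := mul_le_mul_of_nonneg_right hlr hΛ0.le
          _ = 4 * (ℓ' * r') / 9 * (9 * Λ) := by ring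
          _ ≤ 4 * (ℓ' * r') / 9 * 2 ^ k := by
              apply mul_le_mul_of_nonneg_left hk2
              linarith
      have h2 : (2:ℝ) ≤ Real.exp 1 := by
        have := Real.exp_one_gt_d9
        linarith
      calc 2 * Real.exp (ℓ * r * Λ / 2 ^ k) ≤ Real.exp 1 * Real.exp (4 * (ℓ' * r') / 9) := by
            apply mul_le_mul h2 (Real.exp_le_exp.mpr hm) (Real.exp_pos _).le (Real.exp_pos _).le
        _ = Real.exp (1 + 4 * (ℓ' * r') / 9) := by rw [← Real.exp_add]
        _ ≤ Real.exp (ℓ' * r' / 2) := Real.exp_le_exp.mpr (by linarith)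
    · intro z hz hzp
      have hzim : |z.im - p.im| < X * r / 5 := by
        rw [← Complex.sub_im]; exact (Complex.abs_im_le_norm _).trans_lt hzp
      have hzre : |z.re - p.re| < X * r / 5 := by
        rw [← Complex.sub_re]; exact (Complex.abs_re_le_norm _).trans_lt hzp
      rw [abs_lt] at hzim hzre
      rw [abs_le] at hpim
      rcases hWf z hz with h1 | h1 | h1 | h1
      · exact h1
      · exfalso
        rcases hG0' with h2 | h2 <;> rw [h2] at h1 <;> linarith
      · exfalso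
        rcases hG1' with h2 | h2 <;> rw [h2] at h1 <;> linarith
      · exfalso
        linarith
    · intro z hz _
      refine (hWb z hz).trans ?_
      have := Real.exp_pos (ℓ * r * Λ)
      linarith
  -- pass to the closed cone
  apply h.notlow tp htp.1
  intro w hw hwc
  have hlim : Tendsto (fun ε : ℝ => ‖Fs c (w - ε)‖) (𝓝[>] 0) (𝓝 ‖Fs c w‖) := by
    have hc : Continuous (fun ε : ℝ => ‖Fs c (w - ε)‖) :=
      ((differentiable_Fs c h.ent).continuous.comp
        (continuous_const.sub Complex.continuous_ofReal)).norm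
    have := hc.tendsto 0
    simp only [Complex.ofReal_zero, sub_zero] at this
    exact this.mono_left nhdsWithin_le_nhds
  refine le_of_tendsto hlim ?_
  have hev : ∀ᶠ ε : ℝ in 𝓝[>] 0, ε ∈ Set.Ioo (0:ℝ) r := Ioo_mem_nhdsGT hr
  filter_upwards [hev] with ε hε
  apply key ε hε.1
  · have e1 : w - (ε:ℂ) - p = (w - p) - (ε:ℂ) := by ring
    rw [e1]
    refine (norm_sub_le _ _).trans ?_
    rw [Complex.norm_real, Real.norm_eq_abs, abs_of_pos hε.1]
    have := hε.2
    rw [← hp] at hw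
    linarith
  · simp only [Complex.sub_re, Complex.ofReal_re, Complex.sub_im, Complex.ofReal_im, sub_zero]
    linarith

/-- ST5. -/
theorem StepData.dist_le (h : StepData c δ δ' ℓ ℓ' r r' Γ t₀ t₁) :
    ‖Γ t₁ - Γ t₀‖ ≤ 10 ^ 19 * r' := by
  have hr := h.r_pos
  have hrr := h.r_le
  have h1 := h.im_lt
  have hlog : Real.log (1 + 10 ^ 18) ≤ 10 ^ 9 := by
    have := log_small' (10 ^ 18) le_rfl
    have e : (10:ℝ) ^ 18 / 10 ^ 9 = 10 ^ 9 := by norm_num
    rw [e] at this
    exact this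
  have h2 := h.re_le t₁ (Set.right_mem_Icc.mpr h.time) (10 ^ 18) (by positivity) (by
    rw [abs_sub_comm]
    refine h1.le.trans ?_
    exact mul_le_mul_of_nonneg_left hrr (by positivity))
  have h3 := h.re_le' (10 ^ 18) (by positivity) h1.le
  have hb : (432 + 16 * Real.log (1 + 10 ^ 18)) ≤ 10 ^ 11 := by
    linarith
  have h4 : |(Γ t₁ - Γ t₀).re| ≤ 10 ^ 11 * r' := by
    rw [Complex.sub_re, abs_le]
    constructor
    · have : r' * (432 + 16 * Real.log (1 + 10 ^ 18)) ≤ r' * 10 ^ 11 :=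
        mul_le_mul_of_nonneg_left hb (by linarith)
      linarith
    · have e1 : r * (432 + 16 * Real.log (1 + 10 ^ 18)) ≤ r * 10 ^ 11 :=
        mul_le_mul_of_nonneg_left hb hr.le
      have e2 : r * 10 ^ 11 ≤ r' * 10 ^ 11 := mul_le_mul_of_nonneg_right hrr (by positivity)
      linarith
  have h5 : |(Γ t₁ - Γ t₀).im| ≤ 10 ^ 18 * r' := by
    rw [Complex.sub_im, abs_sub_comm]
    refine h1.le.trans ?_
    exact mul_le_mul_of_nonneg_left hrr (by positivity)
  calc ‖Γ t₁ - Γ t₀‖ ≤ |(Γ t₁ - Γ t₀).re| + |(Γ t₁ - Γ t₀).im| :=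
        Complex.norm_le_abs_re_add_abs_im _
    _ ≤ 10 ^ 11 * r' + 10 ^ 18 * r' := add_le_add h4 h5
    _ ≤ 10 ^ 19 * r' := by
        have : 0 < r' := by linarith
        linarith

end Pool.Agent.GapReg
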